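import Mathlib

/-!
# A checker for right inverses modulo a prime of the tangent matrices
-/

set_option autoImplicit false

namespace Pool.Agent.W507.Cert

/-- `j`-th digit of `x` in base `p` -/
def dig (p x j : ℕ) : ℕ := x / p ^ j % p

/-- inner product of digit strings -/
def dot (p a oa x ox : ℕ) : ℕ → ℕ
  | 0 => 0
  | j + 1 => dot p a oa x ox j + dig p a (oa + j) * dig p x (ox + j)

def allTo (f : ℕ → Bool) : ℕ → Bool
  | 0 => true
  | n + 1 => f n && allTo f n

def chkPt (p N μ R x t i V W : ℕ) : Bool :=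
  allTo (fun n => Nat.ble R (i * N + n) ||
    Nat.beq ((dot p V 0 x (N * n) N + (dot p W ((μ + 3) * n) x (N * N) μ +
      dot p W ((μ + 3) * n + μ) x (N * N + μ + 3 * i) 3)) % p)
      (bif Nat.beq (i * N + n) t then 1 else 0)) N

def chkT (p N μ R x t : ℕ) : List (ℕ × ℕ) → ℕ → Bool
  | [], _ => true
  | (V, W) :: l, i => chkPt p N μ R x t i V W && chkT p N μ R x t l (i + 1)

def chkAll (p N μ R : ℕ) (pts : List (ℕ × ℕ)) : List ℕ → ℕ → Bool
  | [], _ => true
  | x :: xs, t => chkT p N μ R x t pts 0 && chkAll p N μ R pts xs (t + 1)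

end Pool.Agent.W507.Cert
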