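import Mathlib

/-!
# Dominance of polynomial maps with surjective differential at one point
-/

set_option autoImplicit false

namespace Pool.Agent.W507

open MvPolynomial

variable {k : Type*} [Field k]

/-- Generic surjectivity of a dominant polynomial map (Chevalley + Nullstellensatz). -/
theorem generic_surj [IsAlgClosed k] {σ τ : Type} [Finite σ] [Finite τ] (φ : τ → MvPolynomial σ k)
    (hφ : ∀ F : MvPolynomial τ k, aeval φ F = 0 → F = 0)
    (D : MvPolynomial σ k) (hD : D ≠ 0) :
    ∃ P : MvPolynomial τ k, P ≠ 0 ∧ ∀ v : τ → k, eval v P ≠ 0 →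
      ∃ u : σ → k, (∀ j, eval u (φ j) = v j) ∧ eval u D ≠ 0 := by
  classical
  let f : MvPolynomial τ k →+* MvPolynomial σ k := (aeval φ : MvPolynomial τ k →ₐ[k] MvPolynomial σ k)
  have hinj : Function.Injective f := by
    rw [injective_iff_map_eq_zero]
    exact fun F hF => hφ F hF
  have hfp : f.FinitePresentation := by
    refine RingHom.FinitePresentation.of_finiteType.mp ?_
    have h1 : (algebraMap k (MvPolynomial σ k)).FiniteType := by
      rw [RingHom.finiteType_algebraMap]
      infer_instance
    have h2 : f.comp (algebraMap k (MvPolynomial τ k)) = algebraMap k (MvPolynomial σ k) := by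
      ext x
      simp [f]
    rw [← h2] at h1
    exact RingHom.FiniteType.of_comp_finiteType h1
  have hcon := PrimeSpectrum.isConstructible_comap_image hfp
    (PrimeSpectrum.isConstructible_basicOpen (f := D))
  obtain ⟨S, hS⟩ := PrimeSpectrum.exists_constructibleSetData_iff.mpr hcon
  have hbot : (⊥ : PrimeSpectrum (MvPolynomial τ k)) ∈
      PrimeSpectrum.comap f '' (PrimeSpectrum.basicOpen D : Set _) := by
    refine ⟨⊥, ?_, ?_⟩
    · simpa using hD
    · apply PrimeSpectrum.ext
      change Ideal.comap f ⊥ = ⊥
      exact Ideal.comap_bot_of_injective f hinj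
  rw [← hS] at hbot
  simp only [PrimeSpectrum.ConstructibleSetData.toSet, Set.mem_iUnion] at hbot
  obtain ⟨E, hC, hCb⟩ := hbot
  obtain ⟨hg, hf⟩ := hCb
  have hg0 : ∀ i, E.g i = 0 := by
    intro i
    have := hg (Set.mem_range_self i)
    simpa using this
  have hf0 : E.f ≠ 0 := by
    intro h
    apply hf
    rw [PrimeSpectrum.mem_zeroLocus, Set.singleton_subset_iff, h]
    exact Ideal.zero_mem _
  refine ⟨E.f, hf0, fun v hv => ?_⟩
  let m : PrimeSpectrum (MvPolynomial τ k) :=
    ⟨RingHom.ker (eval v), RingHom.ker_isPrime _⟩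
  have hm : m ∈ S.toSet := by
    simp only [PrimeSpectrum.ConstructibleSetData.toSet, Set.mem_iUnion]
    refine ⟨E, hC, ?_, ?_⟩
    · rw [PrimeSpectrum.mem_zeroLocus]
      rintro _ ⟨i, rfl⟩
      rw [hg0 i]
      exact Ideal.zero_mem _
    · rw [PrimeSpectrum.mem_zeroLocus, Set.singleton_subset_iff]
      intro h
      exact hv h
  rw [hS] at hm
  obtain ⟨q, hq, hqm⟩ := hm
  have hDq : D ∉ q.asIdeal := hq
  have hmem : ∀ j, φ j - C (v j) ∈ q.asIdeal := by
    intro j
    have h1 : X j - C (v j) ∈ m.asIdeal := by
      change eval v _ = 0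
      simp
    rw [← hqm] at h1
    have h2 : f (X j - C (v j)) ∈ q.asIdeal := h1
    simpa [f] using h2
  have := q.isPrime
  have hvan := MvPolynomial.IsPrime.vanishingIdeal_zeroLocus (k := k) (K := k) q.asIdeal
  rw [← hvan] at hDq
  rw [mem_vanishingIdeal_iff] at hDq
  push Not at hDq
  obtain ⟨u, hu, hDu⟩ := hDq
  refine ⟨u, fun j => ?_, ?_⟩
  · have := (mem_zeroLocus_iff.1 hu) _ (hmem j)
    have h3 : eval u (φ j) - v j = 0 := by
      simpa [aeval_eq_eval] using this
    exact sub_eq_zero.1 h3
  · simpa [aeval_eq_eval] using hDu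

section dir

variable {σ τ : Type*} [Fintype σ]

/-- directional derivative of a polynomial at the point `a` in direction `w` -/
noncomputable def dir (a w : σ → k) (F : MvPolynomial σ k) : k :=
  ∑ s, w s * eval a (pderiv s F)

lemma dir_add (a w : σ → k) (F G : MvPolynomial σ k) : dir a w (F + G) = dir a w F + dir a w G := by
  simp [dir, mul_add, Finset.sum_add_distrib]

lemma dir_C (a w : σ → k) (c : k) : dir a w (C c) = 0 := by
  simp [dir]

lemma dir_zero (a w : σ → k) : dir a w (0 : MvPolynomial σ k) = 0 := by
  simp [dir]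

lemma dir_X (a w : σ → k) (s : σ) : dir a w (X s) = w s := by
  classical
  simp [dir, pderiv_X, Pi.single_apply]

lemma dir_mul (a w : σ → k) (F G : MvPolynomial σ k) :
    dir a w (F * G) = dir a w F * eval a G + eval a F * dir a w G := by
  simp only [dir, pderiv_mul, map_add, map_mul, Finset.sum_mul, Finset.mul_sum,
    ← Finset.sum_add_distrib]
  refine Finset.sum_congr rfl fun s _ => ?_
  ring

lemma dir_neg (a w : σ → k) (F : MvPolynomial σ k) : dir a w (-F) = - dir a w F := by
  simp [dir]

lemma dir_sub (a w : σ → k) (F G : MvPolynomial σ k) : dir a w (F - G) = dir a w F - dir a w G := by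
  rw [sub_eq_add_neg, dir_add, dir_neg, sub_eq_add_neg]

lemma dir_sum {ι : Type*} (S : Finset ι) (a w : σ → k) (F : ι → MvPolynomial σ k) :
    dir a w (∑ i ∈ S, F i) = ∑ i ∈ S, dir a w (F i) := by
  classical
  induction S using Finset.induction_on with
  | empty => simp [dir_zero]
  | insert i S hi ih => rw [Finset.sum_insert hi, Finset.sum_insert hi, dir_add, ih]

/-- chain rule -/
lemma dir_aeval {ρ : Type*} [Fintype ρ] (a w : σ → k) (g : ρ → MvPolynomial σ k)
    (F : MvPolynomial ρ k) :
    dir a w (aeval g F) =
      dir (fun r => eval a (g r)) (fun r => dir a w (g r)) F := by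
  induction F using MvPolynomial.induction_on with
  | C c => simp [dir_C, algebraMap_eq]
  | add p q hp hq => rw [map_add, dir_add, hp, hq, dir_add]
  | mul_X p r hp =>
    have h1 : eval a (aeval g p) = eval (fun r => eval a (g r)) p := by
      rw [aeval_def, eval₂_eq', map_sum, eval_eq']
      refine Finset.sum_congr rfl fun d _ => ?_
      simp [map_prod]
    rw [map_mul, dir_mul, hp, dir_mul, aeval_X, h1, eval_X, dir_X]

end dir

lemma pderiv_zero_const {τ : Type*} [CharZero k] (F : MvPolynomial τ k)
    (h : ∀ t, pderiv t F = 0) : ∃ c, F = C c := by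
  classical
  refine ⟨coeff 0 F, ?_⟩
  ext m
  rw [coeff_C]
  split_ifs with h0
  · rw [h0]
  · obtain ⟨t, ht⟩ : ∃ t, m t ≠ 0 := by
      by_contra hcon
      push Not at hcon
      exact h0 (Finsupp.ext fun t => (hcon t).symm)
    have h1 := coeff_pderiv (i := t) F (m - Finsupp.single t 1)
    rw [h t, coeff_zero] at h1
    have h2 : m - Finsupp.single t 1 + Finsupp.single t 1 = m := by
      ext s
      by_cases hs : s = t
      · subst hs
        simp
        omega
      · simp [Finsupp.single_apply, Ne.symm hs]
    rw [h2] at h1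
    have h3 : (((m - Finsupp.single t 1 : τ →₀ ℕ) t : ℕ) : k) + 1 ≠ 0 :=
      Nat.cast_add_one_ne_zero _
    rcases mul_eq_zero.1 h1.symm with h4 | h4
    · exact h4
    · exact absurd h4 h3

lemma totalDegree_pderiv_lt {τ : Type*} (F : MvPolynomial τ k) (t : τ) (n : ℕ)
    (h : F.totalDegree ≤ n + 1) : (pderiv t F).totalDegree ≤ n := by
  classical
  rw [totalDegree]
  refine Finset.sup_le fun m hm => ?_
  rw [mem_support_iff, coeff_pderiv] at hm
  have h1 : coeff (m + Finsupp.single t 1) F ≠ 0 := left_ne_zero_of_mul hm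
  have h2 := le_totalDegree (mem_support_iff.2 h1)
  have h3 : (m + Finsupp.single t 1).sum (fun _ e => e) = (m.sum fun _ e => e) + 1 := by
    rw [Finsupp.sum_add_index']
    · simp
    · simp
    · intros; rfl
  omega

lemma pderiv_aeval' {σ τ : Type*} [Fintype τ] (φ : τ → MvPolynomial σ k) (F : MvPolynomial τ k)
    (s : σ) : pderiv s (aeval φ F) = ∑ t, pderiv s (φ t) * aeval φ (pderiv t F) := by
  classical
  induction F using MvPolynomial.induction_on with
  | C c => simp [algebraMap_eq]
  | add p q hp hq =>
    simp only [map_add, hp, hq, mul_add, Finset.sum_add_distrib]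
  | mul_X p r hp =>
    rw [map_mul, pderiv_mul, hp, aeval_X]
    simp only [pderiv_mul, map_add, map_mul, aeval_X, mul_add, Finset.sum_add_distrib,
      Finset.sum_mul]
    congr 1
    · refine Finset.sum_congr rfl fun t _ => ?_
      ring
    · rw [Finset.sum_eq_single r]
      · simp [mul_comm]
      · intro b _ hb
        rw [pderiv_X_of_ne hb.symm]
        simp
      · simp

/-- Jacobian criterion for algebraic independence. -/
theorem algInd_of_dir [CharZero k] {σ τ : Type*} [Fintype σ] [Finite τ]
    (φ : τ → MvPolynomial σ k) (a : σ → k)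
    (hs : Function.Surjective (fun w : σ → k => fun t => dir a w (φ t))) :
    ∀ F : MvPolynomial τ k, aeval φ F = 0 → F = 0 := by
  classical
  have := Fintype.ofFinite τ
  choose w hw using fun t' : τ => hs (Pi.single t' (1 : k))
  have key : ∀ F : MvPolynomial τ k, aeval φ F = 0 → ∀ t, aeval φ (pderiv t F) = 0 := by
    intro F hF
    let M : Matrix τ τ (MvPolynomial σ k) :=
      fun t' t => ∑ s, C (w t' s) * pderiv s (φ t)
    have hM : M.det ≠ 0 := by
      intro h0
      have h1 : eval a M.det = 0 := by rw [h0, map_zero]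
      rw [RingHom.map_det] at h1
      have h2 : (eval a).mapMatrix M = 1 := by
        ext t' t
        have h3 : ∑ s, w t' s * eval a (pderiv s (φ t)) = (Pi.single t' (1 : k) : τ → k) t :=
          congrFun (hw t') t
        have h4 : (eval a).mapMatrix M t' t = ∑ s, w t' s * eval a (pderiv s (φ t)) := by
          change eval a (∑ s, C (w t' s) * pderiv s (φ t)) = _
          simp only [map_sum, map_mul, eval_C]
        rw [h4, h3, Matrix.one_apply, Pi.single_apply]
        by_cases h : t = t'
        · simp [h]
        · simp [h, Ne.symm h]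
      rw [h2, Matrix.det_one] at h1
      exact one_ne_zero h1
    have h3 : M.mulVec (fun t => aeval φ (pderiv t F)) = 0 := by
      ext1 t'
      simp only [Matrix.mulVec, dotProduct, M, Finset.sum_mul, Pi.zero_apply]
      rw [Finset.sum_comm]
      have : ∀ s, ∑ t, C (w t' s) * pderiv s (φ t) * aeval φ (pderiv t F) = 0 := by
        intro s
        simp only [mul_assoc]
        rw [← Finset.mul_sum, ← pderiv_aeval' φ F s, hF, map_zero, mul_zero]
      exact Finset.sum_eq_zero fun s _ => this s
    have h4 := Matrix.eq_zero_of_mulVec_eq_zero hM h3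
    exact fun t => congrFun h4 t
  have main : ∀ n : ℕ, ∀ F : MvPolynomial τ k, F.totalDegree ≤ n → aeval φ F = 0 → F = 0 := by
    intro n
    induction n with
    | zero =>
      intro F hF h0
      rw [Nat.le_zero, totalDegree_eq_zero_iff_eq_C] at hF
      rw [hF] at h0 ⊢
      simpa using h0
    | succ n ih =>
      intro F hF h0
      have h1 : ∀ t, pderiv t F = 0 := fun t =>
        ih _ (totalDegree_pderiv_lt F t n hF) (key F h0 t)
      obtain ⟨c, rfl⟩ := pderiv_zero_const F h1
      simpa using h0
  exact fun F hF => main _ F le_rfl hF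

end Pool.Agent.W507
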