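import Mathlib

/-!
# Rado's theorem on independent transversals for subspaces of a vector space over an infinite field
-/

set_option autoImplicit false

namespace Pool.Agent.W507

open Module Submodule

variable {k : Type*} [Field k] [Infinite k] {U : Type*} [AddCommGroup U] [Module k U]

lemma exists_avoid {κ : Type*} [Finite κ] (L : Submodule k U) (W : κ → Submodule k U)
    (h : ∀ j, ¬ L ≤ W j) : ∃ u ∈ L, ∀ j, u ∉ W j := by
  by_contra hcon
  push Not at hcon
  obtain ⟨j, hj⟩ := Subspace.exists_eq_top_of_iUnion_eq_univ (k := k) (E := L)
    (p := fun j => (W j).comap L.subtype) (by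
      rw [Set.eq_univ_iff_forall]
      intro x
      obtain ⟨j, hj⟩ := hcon x.1 x.2
      exact Set.mem_iUnion.2 ⟨j, hj⟩)
  apply h j
  intro x hx
  have : (⟨x, hx⟩ : L) ∈ (W j).comap L.subtype := by rw [hj]; trivial
  exact this

variable [FiniteDimensional k U]

lemma rado_aux {ι : Type*} [Fintype ι] [DecidableEq ι] (L : ι → Submodule k U) :
    ∀ (n : ℕ) (f : Fin n → ι) (S : Submodule k U),
      (∀ J : Finset ι, (Finset.univ.filter (fun s => f s ∈ J)).card + finrank k S ≤
        finrank k (S ⊔ ⨆ i ∈ J, L i : Submodule k U)) →
      ∃ x : Fin n → U, (∀ s, x s ∈ L (f s)) ∧ LinearIndependent k (fun s => S.mkQ (x s)) := by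
  classical
  intro n
  induction n with
  | zero =>
    intro f S _
    exact ⟨Fin.elim0, fun s => s.elim0, linearIndependent_empty_type⟩
  | succ n ih =>
    intro f S h
    set i := f 0 with hi
    -- the tight sets
    let tight : Finset (Finset ι) := Finset.univ.filter (fun J => i ∉ J ∧
      (Finset.univ.filter (fun s => f s ∈ J)).card + finrank k S =
        finrank k (S ⊔ ⨆ i ∈ J, L i : Submodule k U))
    obtain ⟨u, huL, hu⟩ := exists_avoid (κ := tight) (L i)
      (fun J => S ⊔ ⨆ i ∈ J.1, L i) (by
        rintro ⟨J, hJ⟩ hle
        simp only [tight, Finset.mem_filter, Finset.mem_univ, true_and] at hJ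
        have h1 := h (insert i J)
        have h2 : (S ⊔ ⨆ i' ∈ insert i J, L i' : Submodule k U) = S ⊔ ⨆ i' ∈ J, L i' := by
          rw [Finset.iSup_insert]
          apply le_antisymm
          · exact sup_le le_sup_left (sup_le hle le_sup_right)
          · exact sup_le_sup_left le_sup_right _
        have h3 : (Finset.univ.filter (fun s => f s ∈ J)).card <
            (Finset.univ.filter (fun s => f s ∈ insert i J)).card := by
          apply Finset.card_lt_card
          rw [Finset.ssubset_iff_of_subset]
          · exact ⟨0, by simp [hi], by simpa [hi] using hJ.1⟩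
          · intro s hs
            simp only [Finset.mem_filter, Finset.mem_univ, true_and] at hs ⊢
            exact Finset.mem_insert_of_mem hs
        rw [h2] at h1
        omega)
    have huS : u ∉ S := by
      intro hmem
      by_cases h0 : (∅ : Finset ι) ∈ tight
      · exact hu ⟨∅, h0⟩ (Submodule.mem_sup_left hmem)
      · apply h0
        simp only [tight, Finset.mem_filter, Finset.mem_univ, true_and, Finset.notMem_empty,
          not_false_eq_true, Finset.filter_false, Finset.card_empty, zero_add]
        rw [show (⨆ i ∈ (∅ : Finset ι), L i) = ⊥ by simp, sup_bot_eq]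
    set S' := S ⊔ span k {u} with hS'
    have hu0 : u ≠ 0 := fun h0 => huS (by rw [h0]; exact S.zero_mem)
    have hfin : finrank k S' = finrank k S + 1 := by
      have hinf : S ⊓ span k {u} = ⊥ := by
        rw [← disjoint_iff]
        exact (Submodule.disjoint_span_singleton' hu0).2 huS
      have h1 := Submodule.finrank_sup_add_finrank_inf_eq S (span k {u})
      rw [hinf, finrank_bot, finrank_span_singleton hu0] at h1
      rw [hS']
      omega
    have hcard : ∀ J : Finset ι, (Finset.univ.filter (fun s => f s ∈ J)).card =
        (if i ∈ J then 1 else 0) + (Finset.univ.filter (fun s => Fin.tail f s ∈ J)).card := by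
      intro J
      simp only [Finset.card_filter]
      rw [Fin.sum_univ_succ]
      rfl
    obtain ⟨x, hx, hxi⟩ := ih (Fin.tail f) S' (by
      intro J
      rw [hfin]
      by_cases hiJ : i ∈ J
      · have h1 := h J
        have h2 : (S' ⊔ ⨆ i' ∈ J, L i' : Submodule k U) = S ⊔ ⨆ i' ∈ J, L i' := by
          apply le_antisymm
          · refine sup_le (sup_le le_sup_left ?_) le_sup_right
            rw [span_singleton_le_iff_mem]
            exact Submodule.mem_sup_right
              ((le_iSup₂_of_le (f := fun i' (_ : i' ∈ J) => L i') i hiJ le_rfl) huL)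
          · exact sup_le_sup_right le_sup_left _
        have h3 := hcard J
        rw [if_pos hiJ] at h3
        rw [h2]
        omega
      · have h3 := hcard J
        rw [if_neg hiJ] at h3
        by_cases hmem : u ∈ (S ⊔ ⨆ i' ∈ J, L i' : Submodule k U)
        · have h1 := h J
          have h4 : J ∉ tight := fun ht => hu ⟨J, ht⟩ hmem
          simp only [tight, Finset.mem_filter, Finset.mem_univ, true_and, not_and] at h4
          have h5 := h4 hiJ
          have h6 : finrank k (S ⊔ ⨆ i' ∈ J, L i' : Submodule k U) ≤
              finrank k (S' ⊔ ⨆ i' ∈ J, L i' : Submodule k U) :=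
            Submodule.finrank_mono (sup_le_sup_right le_sup_left _)
          omega
        · have h1 := h J
          have h6 : finrank k (S ⊔ ⨆ i' ∈ J, L i' : Submodule k U) <
              finrank k (S' ⊔ ⨆ i' ∈ J, L i' : Submodule k U) := by
            apply Submodule.finrank_lt_finrank_of_lt
            refine lt_of_le_of_ne (sup_le_sup_right le_sup_left _) fun heq => hmem ?_
            rw [heq]
            exact Submodule.mem_sup_left (Submodule.mem_sup_right (mem_span_singleton_self u))
          omega)
    refine ⟨Fin.cons u x, ?_, ?_⟩
    · intro s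
      refine Fin.cases ?_ (fun s => ?_) s
      · simpa using huL
      · simpa [Fin.tail] using hx s
    · rw [linearIndependent_fin_succ]
      have htail : Fin.tail (fun s => S.mkQ ((Fin.cons u x : Fin (n + 1) → U) s)) =
          fun s => S.mkQ (x s) := by
        ext s
        simp [Fin.tail]
      have hle : S ≤ S' := le_sup_left
      have hcomp : ∀ y : U, Submodule.mapQ S S' LinearMap.id hle (S.mkQ y) = S'.mkQ y := by
        intro y
        simp
      have hind : LinearIndependent k (fun s => S.mkQ (x s)) := by
        refine LinearIndependent.of_comp (Submodule.mapQ S S' LinearMap.id hle) ?_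
        have : (Submodule.mapQ S S' LinearMap.id hle) ∘ (fun s => S.mkQ (x s)) =
            fun s => S'.mkQ (x s) := by
          ext s
          exact hcomp _
        rw [this]
        exact hxi
      rw [htail]
      refine ⟨hind, ?_⟩
      simp only [Fin.cons_zero]
      intro hmem
      rw [Submodule.mem_span_range_iff_exists_fun] at hmem
      obtain ⟨c, hc⟩ := hmem
      have h1 := congrArg (Submodule.mapQ S S' LinearMap.id hle) hc
      rw [map_sum] at h1
      simp only [map_smul, hcomp] at h1
      have h2 : S'.mkQ u = 0 := by
        rw [Submodule.mkQ_apply, Submodule.Quotient.mk_eq_zero]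
        exact Submodule.mem_sup_right (mem_span_singleton_self u)
      rw [h2] at h1
      have h3 := (Fintype.linearIndependent_iff.1 hxi) c h1
      simp only [h3, zero_smul, Finset.sum_const_zero] at hc
      have h4 : S.mkQ u = 0 := hc.symm
      rw [Submodule.mkQ_apply, Submodule.Quotient.mk_eq_zero] at h4
      exact huS h4

/-- Rado's theorem for subspaces: `f` assigns to each of `n` slots one of the subspaces `L i`;
if any set `J` of subspaces spans a space of dimension at least the number of its slots, then
there are independent vectors, one for each slot, in the subspaces assigned. -/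
theorem rado {ι : Type*} [Fintype ι] [DecidableEq ι] (L : ι → Submodule k U) (n : ℕ)
    (f : Fin n → ι)
    (h : ∀ J : Finset ι, (Finset.univ.filter (fun s => f s ∈ J)).card ≤
      finrank k (⨆ i ∈ J, L i : Submodule k U)) :
    ∃ x : Fin n → U, (∀ s, x s ∈ L (f s)) ∧ LinearIndependent k x := by
  obtain ⟨x, hx, hi⟩ := rado_aux L n f ⊥ (by
    intro J
    rw [finrank_bot, bot_sup_eq, add_zero]
    exact h J)
  exact ⟨x, hx, LinearIndependent.of_comp _ hi⟩

end Pool.Agent.W507
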