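import Mathlib
import Pool.Agent.W507.Gen
import Pool.Agent.W507.Rado

/-!
# Tangent computations for families `g • Φ (m, u)` of parametrised surfaces
-/

set_option autoImplicit false

namespace Pool.Agent.W507

open MvPolynomial Module

variable {k : Type*} [Field k] {N μ : ℕ}

/-- the value of the family `Φ` of maps at the moduli `m` and the point `u` of the plane -/
noncomputable def val (Φ : Fin N → MvPolynomial (Fin μ ⊕ Fin 2) k) (m : Fin μ → k)
    (u : Fin 2 → k) (b : Fin N) : k := eval (Sum.elim m u) (Φ b)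

noncomputable def der (Φ : Fin N → MvPolynomial (Fin μ ⊕ Fin 2) k) (m : Fin μ → k)
    (u : Fin 2 → k) (s : Fin μ ⊕ Fin 2) (b : Fin N) : k := eval (Sum.elim m u) (pderiv s (Φ b))

/-- value and the two derivatives: they span the affine tangent space -/
noncomputable def tri (Φ : Fin N → MvPolynomial (Fin μ ⊕ Fin 2) k) (m : Fin μ → k)
    (u : Fin 2 → k) : Fin 3 → Fin N → k :=
  ![val Φ m u, der Φ m u (Sum.inr 0), der Φ m u (Sum.inr 1)]

/-- conormal vectors -/
noncomputable def Tperp (Φ : Fin N → MvPolynomial (Fin μ ⊕ Fin 2) k) (m : Fin μ → k)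
    (u : Fin 2 → k) : Submodule k (Fin N → k) where
  carrier := {ξ | ∀ l, ξ ⬝ᵥ tri Φ m u l = 0}
  add_mem' := by
    intro a b ha hb l
    rw [add_dotProduct, ha l, hb l, add_zero]
  zero_mem' := by
    intro l
    rw [zero_dotProduct]
  smul_mem' := by
    intro c a ha l
    rw [smul_dotProduct, ha l, smul_zero]

lemma mem_Tperp (Φ : Fin N → MvPolynomial (Fin μ ⊕ Fin 2) k) (m : Fin μ → k)
    (u : Fin 2 → k) (ξ : Fin N → k) : ξ ∈ Tperp Φ m u ↔ ∀ l, ξ ⬝ᵥ tri Φ m u l = 0 := Iff.rfl

/-- the functional on the tangent space of the family given by a conormal vector at `u` -/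
noncomputable def E (Φ : Fin N → MvPolynomial (Fin μ ⊕ Fin 2) k) (m : Fin μ → k)
    (u : Fin 2 → k) : (Fin N → k) →ₗ[k] ((Fin N × Fin N) ⊕ Fin μ → k) where
  toFun ξ := Sum.elim (fun ab => ξ ab.1 * val Φ m u ab.2) (fun s => ξ ⬝ᵥ der Φ m u (Sum.inl s))
  map_add' := by
    intro a b
    ext c
    rcases c with c | c
    · simp [add_mul]
    · simp [add_dotProduct]
  map_smul' := by
    intro r a
    ext c
    rcases c with c | c
    · simp [mul_assoc]
    · simp [smul_dotProduct]

noncomputable def Lsub (Φ : Fin N → MvPolynomial (Fin μ ⊕ Fin 2) k) (m : Fin μ → k)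
    (u : Fin 2 → k) : Submodule k ((Fin N × Fin N) ⊕ Fin μ → k) := (Tperp Φ m u).map (E Φ m u)

section mat

variable {ι : Type*} [Fintype ι] [DecidableEq ι]

noncomputable def mat (Φ : Fin N → MvPolynomial (Fin μ ⊕ Fin 2) k) (m : Fin μ → k)
    (u : ι → Fin 2 → k) : Matrix (ι × Fin N) (((Fin N × Fin N) ⊕ Fin μ) ⊕ (ι × Fin 3)) k :=
  fun p => Sum.elim
    (Sum.elim (fun ab => if ab.1 = p.2 then val Φ m (u p.1) ab.2 else 0)
      (fun s => der Φ m (u p.1) (Sum.inl s) p.2))
    (fun il => if il.1 = p.1 then tri Φ m (u p.1) il.2 p.2 else 0)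

lemma vecMul_mat (Φ : Fin N → MvPolynomial (Fin μ ⊕ Fin 2) k) (m : Fin μ → k)
    (u : ι → Fin 2 → k) (ξ : ι × Fin N → k) :
    Matrix.vecMul ξ (mat Φ m u) = Sum.elim (∑ i, E Φ m (u i) (fun n => ξ (i, n)))
      (fun il => (fun n => ξ (il.1, n)) ⬝ᵥ tri Φ m (u il.1) il.2) := by
  ext c
  simp only [Matrix.vecMul, dotProduct, mat, Fintype.sum_prod_type]
  rcases c with (⟨a, b⟩ | s) | ⟨i, l⟩
  · simp only [Sum.elim_inl, Finset.sum_apply, E, LinearMap.coe_mk, AddHom.coe_mk]
    refine Finset.sum_congr rfl fun i _ => ?_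
    rw [Finset.sum_eq_single a]
    · simp
    · intro n _ hn
      simp [hn.symm]
    · simp
  · simp only [Sum.elim_inl, Sum.elim_inr, Finset.sum_apply, E, LinearMap.coe_mk, AddHom.coe_mk,
      dotProduct]
  · simp only [Sum.elim_inr]
    rw [Finset.sum_eq_single i]
    · simp
    · intro i' _ hi'
      simp [hi'.symm]
    · simp

lemma rank_mat_le (Φ : Fin N → MvPolynomial (Fin μ ⊕ Fin 2) k) (m : Fin μ → k)
    (u : ι → Fin 2 → k) :
    (mat Φ m u).rank ≤ finrank k (⨆ i, Lsub Φ m (u i) : Submodule k _) + 3 * Fintype.card ι := by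
  classical
  let f : (ι × Fin N → k) →ₗ[k] _ := (mat Φ m u).vecMulLinear
  let f1 : (ι × Fin N → k) →ₗ[k] ((Fin N × Fin N) ⊕ Fin μ → k) :=
    (LinearMap.funLeft k k Sum.inl).comp f
  let f2 : (ι × Fin N → k) →ₗ[k] (ι × Fin 3 → k) :=
    (LinearMap.funLeft k k Sum.inr).comp f
  have hrank : (mat Φ m u).rank = finrank k (LinearMap.range f) := by
    have e : (mat Φ m u).transpose.mulVecLin = f := by
      ext1 ξ
      ext c
      simp [f]
    rw [← Matrix.rank_transpose, Matrix.rank, e]
  have hker : LinearMap.ker f = LinearMap.ker f1 ⊓ LinearMap.ker f2 := by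
    ext ξ
    simp only [LinearMap.mem_ker, Submodule.mem_inf]
    constructor
    · intro h
      constructor
      · simp [f1, h]
      · simp [f2, h]
    · rintro ⟨h1, h2⟩
      ext c
      rcases c with c | c
      · exact congrFun h1 c
      · exact congrFun h2 c
  have h1 := LinearMap.finrank_range_add_finrank_ker f
  have h2 := LinearMap.finrank_range_add_finrank_ker f2
  have h3 : finrank k (LinearMap.range f2) ≤ 3 * Fintype.card ι := by
    refine (Submodule.finrank_le _).trans ?_
    simp [mul_comm]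
  -- restrict f1 to ker f2
  let g : LinearMap.ker f2 →ₗ[k] ((Fin N × Fin N) ⊕ Fin μ → k) := f1.comp (LinearMap.ker f2).subtype
  have h4 := LinearMap.finrank_range_add_finrank_ker g
  have h5 : finrank k (LinearMap.ker g) = finrank k (LinearMap.ker f) := by
    rw [hker]
    have e : LinearMap.ker g = (LinearMap.ker f1 ⊓ LinearMap.ker f2).comap
        (LinearMap.ker f2).subtype := by
      ext x
      simp [g]
    rw [e]
    exact (Submodule.comapSubtypeEquivOfLe (p := LinearMap.ker f1 ⊓ LinearMap.ker f2)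
      (q := LinearMap.ker f2) inf_le_right).finrank_eq
  have h6 : LinearMap.range g ≤ ⨆ i, Lsub Φ m (u i) := by
    rintro _ ⟨⟨ξ, hξ⟩, rfl⟩
    have hx : g ⟨ξ, hξ⟩ = ∑ i, E Φ m (u i) (fun n => ξ (i, n)) := by
      ext c
      change (Matrix.vecMul ξ (mat Φ m u)) (Sum.inl c) = _
      rw [vecMul_mat]
      simp
    rw [hx]
    refine Submodule.sum_mem _ fun i _ => ?_
    refine (le_iSup (fun i => Lsub Φ m (u i)) i) ⟨_, ?_, rfl⟩
    intro l
    have h7 : (Matrix.vecMul ξ (mat Φ m u)) (Sum.inr (i, l)) = 0 := congrFun hξ (i, l)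
    rw [vecMul_mat] at h7
    simpa using h7
  have h7 := Submodule.finrank_mono h6
  omega

end mat

/-- lower semicontinuity of the rank -/
lemma semicont {a b σ : Type*} [Fintype a] [Fintype b] [DecidableEq a] [DecidableEq b]
    (M : Matrix a b (MvPolynomial σ k)) (x : σ → k) (r : ℕ) (h : r ≤ (M.map (eval x)).rank) :
    ∃ G : MvPolynomial σ k, eval x G ≠ 0 ∧ ∀ y, eval y G ≠ 0 → r ≤ (M.map (eval y)).rank := by
  classical
  -- independent vectors in the range
  obtain ⟨w, hw⟩ : ∃ w : Fin r → LinearMap.range (M.map (eval x)).mulVecLin,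
      LinearIndependent k w := exists_linearIndependent_of_le_finrank h
  choose z hz using fun j => (w j).2
  have hw' : LinearIndependent k (fun j => ((w j : LinearMap.range (M.map (eval x)).mulVecLin) :
      a → k)) := hw.map' (Submodule.subtype _) (Submodule.ker_subtype _)
  obtain ⟨h', hh'⟩ := LinearMap.exists_leftInverse_of_injective
    (Fintype.linearCombination k (fun j => ((w j : LinearMap.range (M.map (eval x)).mulVecLin) :
      a → k))) (by
      rw [LinearMap.ker_eq_bot]
      exact hw'.fintypeLinearCombination_injective)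
  let Cm : Matrix (Fin r) a k := LinearMap.toMatrix' h'
  let Bm : Matrix b (Fin r) k := Matrix.of fun β j => z j β
  have hone : Cm * M.map (eval x) * Bm = 1 := by
    rw [Matrix.mul_assoc]
    have h1 : (M.map (eval x) * Bm) = Matrix.of fun α j => (w j : a → k) α := by
      ext α j
      have h2 : (w j : a → k) α = ((M.map (eval x)).mulVecLin (z j)) α := by rw [hz j]
      rw [Matrix.of_apply, h2]
      rfl
    rw [h1]
    ext i j
    have h3 : (Cm * (Matrix.of fun α j => (w j : a → k) α)) i j =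
        (Cm.mulVec (w j : a → k)) i := rfl
    rw [h3]
    have h4 : Cm.mulVec (w j : a → k) = h' (w j : a → k) := by
      rw [LinearMap.toMatrix'_mulVec]
    rw [h4]
    have h5 := LinearMap.congr_fun hh' (Pi.single j 1)
    simp only [LinearMap.comp_apply, Fintype.linearCombination_apply_single, one_smul,
      LinearMap.id_apply] at h5
    rw [h5, Matrix.one_apply, Pi.single_apply]
  let P : Matrix (Fin r) (Fin r) (MvPolynomial σ k) :=
    (Cm.map (C : k → MvPolynomial σ k)) * M * (Bm.map (C : k → MvPolynomial σ k))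
  have hP : ∀ y : σ → k, (eval y) P.det = (Cm * M.map (eval y) * Bm).det := by
    intro y
    rw [RingHom.map_det]
    congr 1
    simp only [P, RingHom.mapMatrix_apply, Matrix.map_mul]
    congr 1
    · congr 1
      ext i j
      simp
    · ext i j
      simp
  refine ⟨P.det, ?_, fun y hy => ?_⟩
  · rw [hP, hone, Matrix.det_one]
    exact one_ne_zero
  · rw [hP] at hy
    have h1 := Matrix.rank_of_det_ne_zero hy
    rw [Fintype.card_fin] at h1
    rw [← h1]
    exact (Matrix.rank_mul_le_left _ _).trans (Matrix.rank_mul_le_right _ _)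

section poly

variable {ι : Type*} [Fintype ι] [DecidableEq ι]

/-- the matrix `mat` with the coordinates of the points as variables -/
noncomputable def matPoly (Φ : Fin N → MvPolynomial (Fin μ ⊕ Fin 2) k) (m : Fin μ → k) :
    Matrix (ι × Fin N) (((Fin N × Fin N) ⊕ Fin μ) ⊕ (ι × Fin 3)) (MvPolynomial (ι × Fin 2) k) :=
  fun p => Sum.elim
    (Sum.elim (fun ab => if ab.1 = p.2 then
        aeval (Sum.elim (fun s => C (m s)) (fun a => X (p.1, a))) (Φ ab.2) else 0)
      (fun s => aeval (Sum.elim (fun s => C (m s)) (fun a => X (p.1, a)))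
        (pderiv (Sum.inl s) (Φ p.2))))
    (fun il => if il.1 = p.1 then
      aeval (Sum.elim (fun s => C (m s)) (fun a => X (p.1, a)))
        ((![Φ p.2, pderiv (Sum.inr 0) (Φ p.2), pderiv (Sum.inr 1) (Φ p.2)] :
          Fin 3 → MvPolynomial (Fin μ ⊕ Fin 2) k) il.2) else 0)

omit [Fintype ι] [DecidableEq ι] in
lemma eval_aeval_elim (m : Fin μ → k) (x : ι × Fin 2 → k) (i : ι)
    (F : MvPolynomial (Fin μ ⊕ Fin 2) k) :
    eval x (aeval (Sum.elim (fun s => C (m s)) (fun a => X (i, a)) :
      Fin μ ⊕ Fin 2 → MvPolynomial (ι × Fin 2) k) F) =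
      eval (Sum.elim m (fun a => x (i, a))) F := by
  have : (eval x).comp ((aeval (Sum.elim (fun s => C (m s)) (fun a => X (i, a)) :
      Fin μ ⊕ Fin 2 → MvPolynomial (ι × Fin 2) k)) : MvPolynomial (Fin μ ⊕ Fin 2) k →ₐ[k] _).toRingHom
      = eval (Sum.elim m (fun a => x (i, a))) := by
    apply MvPolynomial.ringHom_ext
    · intro r
      simp [algebraMap_eq]
    · rintro (s | a)
      · simp
      · simp
  exact RingHom.congr_fun this F

lemma matPoly_eval (Φ : Fin N → MvPolynomial (Fin μ ⊕ Fin 2) k) (m : Fin μ → k)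
    (x : ι × Fin 2 → k) :
    (matPoly Φ m).map (eval x) = mat Φ m (fun (i : ι) a => x (i, a)) := by
  ext p c
  rcases c with (⟨a, b⟩ | s) | ⟨i, l⟩
  · simp only [Matrix.map_apply, matPoly, mat, Sum.elim_inl]
    split_ifs
    · rw [eval_aeval_elim]; rfl
    · simp
  · simp only [Matrix.map_apply, matPoly, mat, Sum.elim_inl, Sum.elim_inr]
    rw [eval_aeval_elim]; rfl
  · simp only [Matrix.map_apply, matPoly, mat, Sum.elim_inr]
    split_ifs
    · rw [eval_aeval_elim]
      fin_cases l <;> rfl
    · simp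

end poly

end Pool.Agent.W507
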