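import Mathlib
import Pool.Agent.W507.Cert
import Pool.Agent.W507.Tangent

/-!
# Soundness of the checker
-/

set_option autoImplicit false

namespace Pool.Agent.W507

open MvPolynomial Module

namespace Cert

lemma dot_eq (p a oa x ox j : ℕ) :
    dot p a oa x ox j = ∑ l ∈ Finset.range j, dig p a (oa + l) * dig p x (ox + l) := by
  induction j with
  | zero => rfl
  | succ j ih => rw [Finset.sum_range_succ, ← ih]; rfl

lemma allTo_spec (f : ℕ → Bool) (n : ℕ) (h : allTo f n = true) : ∀ j < n, f j = true := by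
  induction n with
  | zero => intro j hj; omega
  | succ n ih =>
    rw [allTo, Bool.and_eq_true] at h
    intro j hj
    rcases Nat.lt_succ_iff_lt_or_eq.1 hj with h1 | h1
    · exact ih h.2 j h1
    · rw [h1]; exact h.1

def VV (pts : List (ℕ × ℕ)) (i : ℕ) : ℕ := (pts.getD i (0, 0)).1
def WW (pts : List (ℕ × ℕ)) (i : ℕ) : ℕ := (pts.getD i (0, 0)).2

lemma chkT_spec (p N μ R x t : ℕ) (pts : List (ℕ × ℕ)) (i0 : ℕ)
    (h : chkT p N μ R x t pts i0 = true) :
    ∀ i < pts.length, chkPt p N μ R x t (i0 + i) (VV pts i) (WW pts i) = true := by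
  induction pts generalizing i0 with
  | nil => intro i hi; simp at hi
  | cons a l ih =>
    obtain ⟨V, W⟩ := a
    rw [chkT, Bool.and_eq_true] at h
    intro i hi
    rcases i with _ | i
    · simpa [VV, WW] using h.1
    · have := ih (i0 + 1) h.2 i (by simpa using hi)
      simpa [VV, WW, Nat.add_assoc, Nat.add_comm 1] using this

lemma chkAll_spec (p N μ R : ℕ) (pts : List (ℕ × ℕ)) (xs : List ℕ) (t0 : ℕ)
    (h : chkAll p N μ R pts xs t0 = true) :
    ∀ t < xs.length, chkT p N μ R (xs.getD t 0) (t0 + t) pts 0 = true := by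
  induction xs generalizing t0 with
  | nil => intro i hi; simp at hi
  | cons a l ih =>
    rw [chkAll, Bool.and_eq_true] at h
    intro i hi
    rcases i with _ | i
    · simpa using h.1
    · have := ih (t0 + 1) h.2 i (by simpa using hi)
      simpa [Nat.add_assoc, Nat.add_comm 1] using this

lemma chk_sound {p N μ R : ℕ} {pts : List (ℕ × ℕ)} {xs : List ℕ}
    (h : chkAll p N μ R pts xs 0 = true) (t : ℕ) (ht : t < xs.length) (i : ℕ)
    (hi : i < pts.length) (n : ℕ) (hn : n < N) (hR : i * N + n < R) :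
    (∑ b ∈ Finset.range N, dig p (VV pts i) b * dig p (xs.getD t 0) (N * n + b) +
      (∑ s ∈ Finset.range μ, dig p (WW pts i) ((μ + 3) * n + s) *
        dig p (xs.getD t 0) (N * N + s) +
      ∑ l ∈ Finset.range 3, dig p (WW pts i) ((μ + 3) * n + μ + l) *
        dig p (xs.getD t 0) (N * N + μ + 3 * i + l))) % p = if i * N + n = t then 1 else 0 := by
  have h1 := chkT_spec p N μ R _ _ pts 0 (chkAll_spec p N μ R pts xs 0 h t ht) i hi
  rw [zero_add, zero_add, chkPt] at h1
  have h2 := allTo_spec _ _ h1 n hn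
  rw [Bool.or_eq_true] at h2
  rcases h2 with h2 | h2
  · rw [Nat.ble_eq] at h2
    omega
  · rw [Nat.beq_eq] at h2
    simp only [dot_eq, zero_add] at h2
    rw [h2]
    by_cases h3 : i * N + n = t
    · simp [h3]
    · have : Nat.beq (i * N + n) t = false := by
        rw [← Bool.not_eq_true, Nat.beq_eq]
        exact h3
      rw [this, if_neg h3]
      rfl

end Cert

variable {k : Type*} [Field k] [CharZero k]

lemma rank_of_mod {a b : Type*} [Fintype a] [Fintype b] [DecidableEq b] (M : Matrix a b k) (r : ℕ)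
    (f : Fin r → a) (A : Matrix (Fin r) b ℤ) (hA : ∀ i j, M (f i) j = (A i j : k))
    (B : Matrix b (Fin r) ℤ) (p : ℕ) [Fact (1 < p)]
    (h : (A * B).map (Int.castRingHom (ZMod p)) = 1) : r ≤ M.rank := by
  have h1 : (A * B).det ≠ 0 := by
    intro h0
    have h2 : (Int.castRingHom (ZMod p)) (A * B).det = 0 := by rw [h0, map_zero]
    rw [RingHom.map_det, RingHom.mapMatrix_apply, h, Matrix.det_one] at h2
    exact one_ne_zero h2
  have h2 : ((A * B).map (Int.castRingHom k)).det ≠ 0 := by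
    intro h0
    apply h1
    rw [← RingHom.mapMatrix_apply, ← RingHom.map_det, eq_intCast] at h0
    exact Int.cast_eq_zero.1 h0
  have h3 : (A * B).map (Int.castRingHom k) = (M.submatrix f id) * (B.map (Int.castRingHom k)) := by
    rw [Matrix.map_mul]
    congr 1
    ext i j
    simp [hA]
  rw [h3] at h2
  have h4 := Matrix.rank_of_det_ne_zero h2
  rw [Fintype.card_fin] at h4
  rw [← h4]
  exact (Matrix.rank_mul_le_left _ _).trans (Matrix.rank_submatrix_le _ _ _)

variable {N μ : ℕ}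

/-- the tangent matrix at the points `w 0, …, w (s - 1)` has rank at least `min (N s) R` -/
theorem rank_of_cert (Φ : Fin N → MvPolynomial (Fin μ ⊕ Fin 2) k) (m0 : Fin μ → k)
    (w : ℕ → Fin 2 → k) {p R Q : ℕ} [Fact (1 < p)] {pts : List (ℕ × ℕ)} {xs : List ℕ}
    (hchk : Cert.chkAll p N μ R pts xs 0 = true) (hxs : xs.length = R) (hpts : pts.length = Q)
    (vz : ℕ → Fin N → ℤ) (hvz : ∀ i < Q, ∀ b, val Φ m0 (w i) b = (vz i b : k))
    (hvz' : ∀ i < Q, ∀ b : Fin N, (vz i b : ZMod p) = (Cert.dig p (Cert.VV pts i) b : ℕ))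
    (dz : ℕ → Fin μ → Fin N → ℤ)
    (hdz : ∀ i < Q, ∀ s b, der Φ m0 (w i) (Sum.inl s) b = (dz i s b : k))
    (hdz' : ∀ i < Q, ∀ (s : Fin μ) (b : Fin N), (dz i s b : ZMod p) =
      (Cert.dig p (Cert.WW pts i) ((μ + 3) * b + s) : ℕ))
    (tz : ℕ → Fin 3 → Fin N → ℤ) (htz : ∀ i < Q, ∀ l b, tri Φ m0 (w i) l b = (tz i l b : k))
    (htz' : ∀ i < Q, ∀ (l : Fin 3) (b : Fin N), (tz i l b : ZMod p) =
      (Cert.dig p (Cert.WW pts i) ((μ + 3) * b + μ + l) : ℕ))
    (s : ℕ) (hs : s ≤ Q) (r : ℕ) (hr : r ≤ R) (hr' : r ≤ N * s) :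
    r ≤ (mat Φ m0 (fun i : Fin s => w i)).rank := by
  rcases Nat.eq_zero_or_pos r with h0 | hr0
  · rw [h0]; exact Nat.zero_le _
  have hN : 0 < N := by
    rcases Nat.eq_zero_or_pos N with h | h
    · subst h; omega
    · exact h
  let fi : Fin r → Fin s := fun ρ => ⟨ρ / N, by
    rw [Nat.div_lt_iff_lt_mul hN]
    have := ρ.2
    rw [mul_comm]
    omega⟩
  let fn : Fin r → Fin N := fun ρ => ⟨ρ % N, Nat.mod_lt _ hN⟩
  let A : Matrix (Fin r) (((Fin N × Fin N) ⊕ Fin μ) ⊕ (Fin s × Fin 3)) ℤ := fun ρ =>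
    Sum.elim
      (Sum.elim (fun ab => if ab.1 = fn ρ then vz (fi ρ) ab.2 else 0)
        (fun s' => dz (fi ρ) s' (fn ρ)))
      (fun il => if il.1 = fi ρ then tz (fi ρ) il.2 (fn ρ) else 0)
  let B : Matrix (((Fin N × Fin N) ⊕ Fin μ) ⊕ (Fin s × Fin 3)) (Fin r) ℤ := fun c t =>
    (Sum.elim
      (Sum.elim (fun ab : Fin N × Fin N => Cert.dig p (xs.getD t 0) (N * ab.1 + ab.2))
        (fun s' : Fin μ => Cert.dig p (xs.getD t 0) (N * N + s')))
      (fun il : Fin s × Fin 3 => Cert.dig p (xs.getD t 0) (N * N + μ + 3 * il.1 + il.2)) c : ℕ)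
  refine rank_of_mod _ r (fun ρ => (fi ρ, fn ρ)) A ?_ B p ?_
  · intro ρ c
    have hi : (fi ρ : ℕ) < Q := lt_of_lt_of_le (fi ρ).2 hs
    rcases c with (⟨a, b⟩ | s') | ⟨i', l⟩
    · simp only [mat, A, Sum.elim_inl]
      split_ifs
      · exact hvz _ hi _
      · simp
    · simp only [mat, A, Sum.elim_inl, Sum.elim_inr]
      exact hdz _ hi _ _
    · simp only [mat, A, Sum.elim_inr]
      split_ifs
      · exact htz _ hi _ _
      · simp
  · ext ρ t
    have hi : (fi ρ : ℕ) < Q := lt_of_lt_of_le (fi ρ).2 hs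
    have hρ : (fi ρ : ℕ) * N + (fn ρ : ℕ) = ρ := by
      have := Nat.div_add_mod (ρ : ℕ) N
      simp only [fi, fn]
      rw [mul_comm]
      exact this
    have h1 := Cert.chk_sound hchk t (by rw [hxs]; exact lt_of_lt_of_le t.2 hr) (fi ρ)
      (by rw [hpts]; exact hi) (fn ρ) (fn ρ).2 (by rw [hρ]; exact lt_of_lt_of_le ρ.2 hr)
    have h2 := congrArg (Nat.cast : ℕ → ZMod p) h1
    rw [ZMod.natCast_mod] at h2
    rw [Matrix.map_apply, Matrix.mul_apply, Fintype.sum_sum_type, Fintype.sum_sum_type,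
      Fintype.sum_prod_type, Fintype.sum_prod_type, Finset.sum_eq_single (fn ρ),
      Finset.sum_eq_single (fi ρ)]
    · simp only [A, B, Sum.elim_inl, Sum.elim_inr, if_true, map_add, map_sum, map_mul,
        eq_intCast, Int.cast_natCast, hvz' _ hi, hdz' _ hi, htz' _ hi]
      rw [hρ] at h2
      push_cast at h2
      rw [Finset.sum_range, Finset.sum_range, Finset.sum_range] at h2
      rw [Matrix.one_apply]
      have h3 : (ρ = t) ↔ ((ρ : ℕ) = (t : ℕ)) := Fin.ext_iff
      simp only [h3]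
      rw [← h2]
      ring
    · intro i' _ hi'
      simp [A, hi']
    · simp
    · intro a _ ha
      simp [A, ha]
    · simp

end Pool.Agent.W507
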