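import Mathlib

/-!
# Linear algebra: complementary vectors, surjectivity by duality
-/

set_option autoImplicit false

namespace Pool.Agent.W507

open Module

variable {k : Type*} [Field k] {N : ℕ}

lemma complement {a e : ℕ} (T : Fin 3 → Fin N → k) (hT : LinearIndependent k T)
    (ξ : Fin a → Fin N → k) (hξ : LinearIndependent k ξ) (horth : ∀ j l, ξ j ⬝ᵥ T l = 0)
    (hN : N = 3 + a + e) :
    ∃ v : Fin e → Fin N → k, ∀ η : Fin N → k, (∀ l, η ⬝ᵥ T l = 0) → (∀ j, η ⬝ᵥ v j = 0) →
      η ∈ Submodule.span k (Set.range ξ) := by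
  classical
  set P : Submodule k (Fin N → k) := LinearMap.ker (Matrix.of T).mulVecLin with hP
  set Z : Submodule k (Fin N → k) := Submodule.span k (Set.range ξ) with hZ
  have memP : ∀ η : Fin N → k, η ∈ P ↔ ∀ l, η ⬝ᵥ T l = 0 := by
    intro η
    rw [hP, LinearMap.mem_ker, Matrix.mulVecLin_apply]
    constructor
    · intro h l
      have := congrFun h l
      rw [dotProduct_comm]
      exact this
    · intro h
      funext l
      have := h l
      rw [dotProduct_comm] at this
      exact this
  have hZP : Z ≤ P := by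
    rw [hZ, Submodule.span_le]
    rintro _ ⟨j, rfl⟩
    exact (memP _).2 (horth j)
  have hrank : (Matrix.of T).rank = 3 := by
    have := LinearIndependent.rank_matrix (M := Matrix.of T) hT
    simpa using this
  have hPdim : finrank k P = N - 3 := by
    have h1 := LinearMap.finrank_range_add_finrank_ker (Matrix.of T).mulVecLin
    rw [Matrix.rank] at hrank
    rw [hrank, ← hP, finrank_fintype_fun_eq_card, Fintype.card_fin] at h1
    omega
  have hZdim : finrank k Z = a := by
    rw [hZ, finrank_span_eq_card hξ, Fintype.card_fin]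
  let W : Submodule k ((Fin N → k) ⧸ Z) := P.map Z.mkQ
  have hW : finrank k W ≤ e := by
    have h1 := LinearMap.finrank_range_add_finrank_ker (Z.mkQ.comp P.subtype)
    have h2 : LinearMap.range (Z.mkQ.comp P.subtype) = W := by
      rw [LinearMap.range_comp, Submodule.range_subtype]
    have h3 : LinearMap.ker (Z.mkQ.comp P.subtype) = Z.comap P.subtype := by
      rw [LinearMap.ker_comp, Submodule.ker_mkQ]
    rw [h2, h3, (Submodule.comapSubtypeEquivOfLe hZP).finrank_eq, hZdim, hPdim] at h1
    omega
  -- an injective map from W to k^e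
  obtain ⟨φ, hφ⟩ : ∃ φ : W →ₗ[k] (Fin e → k), Function.Injective φ := by
    rw [← finrank_le_iff_exists_linearMap, finrank_fintype_fun_eq_card, Fintype.card_fin]
    exact hW
  obtain ⟨g, hg⟩ := LinearMap.exists_extend φ
  let F : Fin e → Module.Dual k (Fin N → k) := fun j => (LinearMap.proj j).comp (g.comp Z.mkQ)
  refine ⟨fun j => (dotProductEquiv k (Fin N)).symm (F j), fun η h1 h2 => ?_⟩
  have hFη : ∀ j, F j η = 0 := by
    intro j
    have h3 := h2 j
    have h4 : dotProductEquiv k (Fin N) ((dotProductEquiv k (Fin N)).symm (F j)) η = F j η := by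
      rw [LinearEquiv.apply_symm_apply]
    rw [← h4, dotProductEquiv_apply_apply, dotProduct_comm]
    exact h3
  have hηP : η ∈ P := (memP η).2 h1
  have h5 : φ ⟨Z.mkQ η, ⟨η, hηP, rfl⟩⟩ = 0 := by
    funext j
    rw [← hg]
    exact hFη j
  have h6 := hφ (h5.trans (map_zero φ).symm)
  have h7 : Z.mkQ η = 0 := congrArg Subtype.val h6
  rwa [Submodule.mkQ_apply, Submodule.Quotient.mk_eq_zero] at h7

/-- a linear map to a space of functions is surjective if no nonzero vector is orthogonal to
its range -/
lemma surj_of_orth {V κ : Type*} [AddCommGroup V] [Module k V] [Fintype κ] [DecidableEq κ]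
    (f : V →ₗ[k] (κ → k)) (h : ∀ ξ : κ → k, (∀ x, ξ ⬝ᵥ f x = 0) → ξ = 0) :
    Function.Surjective f := by
  rw [← LinearMap.range_eq_top]
  by_contra hcon
  obtain ⟨φ, hφ, hle⟩ := Submodule.exists_le_ker_of_lt_top _ (lt_top_iff_ne_top.2 hcon)
  apply hφ
  have h1 : (dotProductEquiv k κ).symm φ = 0 := by
    apply h
    intro x
    have h2 : φ (f x) = 0 := hle ⟨x, rfl⟩
    have h3 : dotProductEquiv k κ ((dotProductEquiv k κ).symm φ) (f x) = φ (f x) := by
      rw [LinearEquiv.apply_symm_apply]
    rw [dotProductEquiv_apply_apply] at h3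
    rw [h3, h2]
  have h4 := congrArg (dotProductEquiv k κ) h1
  rw [LinearEquiv.apply_symm_apply, map_zero] at h4
  exact h4

end Pool.Agent.W507
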