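import Mathlib
import Pool.Agent.W507.Tangent

/-!
# General points
-/

set_option autoImplicit false

namespace Pool.Agent.W507

open MvPolynomial Module

variable {k : Type*} [Field k] {N μ : ℕ}

lemma exists_eval_ne [Infinite k] {σ : Type*} {κ : Type*} [Fintype κ]
    (G : κ → MvPolynomial σ k) (h : ∀ i, G i ≠ 0) : ∃ x : σ → k, ∀ i, eval x (G i) ≠ 0 := by
  classical
  have h1 : ∏ i, G i ≠ 0 := Finset.prod_ne_zero_iff.2 fun i _ => h i
  by_contra hcon
  push Not at hcon
  apply h1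
  apply MvPolynomial.funext
  intro x
  obtain ⟨i, hi⟩ := hcon x
  rw [map_prod, map_zero]
  exact Finset.prod_eq_zero (Finset.mem_univ i) hi

lemma eval_ne_zero_imp {σ : Type*} (G : MvPolynomial σ k) (x : σ → k) (h : eval x G ≠ 0) :
    G ≠ 0 := by
  rintro rfl
  exact h (map_zero _)

lemma rename_ne_zero {σ τ : Type*} (G : MvPolynomial σ k) (hG : G ≠ 0) (f : σ → τ)
    (hf : Function.Injective f) : rename f G ≠ 0 := by
  rw [Ne, rename_eq_zero_iff_of_injective G hf]
  exact hG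

lemma open_mat (Φ : Fin N → MvPolynomial (Fin μ ⊕ Fin 2) k) (m : Fin μ → k) (s r : ℕ)
    (w : Fin s → Fin 2 → k) (h : r ≤ (mat Φ m w).rank) :
    ∃ G : MvPolynomial (Fin s × Fin 2) k, G ≠ 0 ∧ ∀ x : Fin s × Fin 2 → k, eval x G ≠ 0 →
      r ≤ (mat Φ m (fun i a => x (i, a))).rank := by
  obtain ⟨G, hG, hG'⟩ := semicont (matPoly Φ m) (fun p : Fin s × Fin 2 => w p.1 p.2) r (by
    rw [matPoly_eval]
    exact h)
  refine ⟨G, eval_ne_zero_imp _ _ hG, fun x hx => ?_⟩
  have := hG' x hx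
  rwa [matPoly_eval] at this

lemma open_tri (Φ : Fin N → MvPolynomial (Fin μ ⊕ Fin 2) k) (m : Fin μ → k)
    (w : Fin 2 → k) (h : LinearIndependent k (tri Φ m w)) :
    ∃ G : MvPolynomial (Fin 2) k, G ≠ 0 ∧ ∀ x : Fin 2 → k, eval x G ≠ 0 →
      LinearIndependent k (tri Φ m x) := by
  classical
  let M : Matrix (Fin 3) (Fin N) (MvPolynomial (Fin 2) k) := fun l n =>
    aeval (Sum.elim (fun s => C (m s)) X)
      ((![Φ n, pderiv (Sum.inr 0) (Φ n), pderiv (Sum.inr 1) (Φ n)] :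
          Fin 3 → MvPolynomial (Fin μ ⊕ Fin 2) k) l)
  have hM : ∀ x : Fin 2 → k, M.map (eval x) = Matrix.of (tri Φ m x) := by
    intro x
    ext l n
    have : (eval x).comp ((aeval (Sum.elim (fun s => C (m s)) X :
        Fin μ ⊕ Fin 2 → MvPolynomial (Fin 2) k)) :
          MvPolynomial (Fin μ ⊕ Fin 2) k →ₐ[k] _).toRingHom
        = eval (Sum.elim m x) := by
      apply MvPolynomial.ringHom_ext
      · intro r
        simp [algebraMap_eq]
      · rintro (s | a)
        · simp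
        · simp
    have h1 := fun F => RingHom.congr_fun this F
    simp only [Matrix.map_apply, M, Matrix.of_apply]
    refine (h1 _).trans ?_
    fin_cases l <;> rfl
  obtain ⟨G, hG, hG'⟩ := semicont M w 3 (by
    rw [hM]
    have := LinearIndependent.rank_matrix (M := Matrix.of (tri Φ m w)) h
    rw [this]
    simp)
  refine ⟨G, eval_ne_zero_imp _ _ hG, fun x hx => ?_⟩
  have h1 := hG' x hx
  rw [hM, Matrix.rank_eq_finrank_span_row] at h1
  rw [linearIndependent_iff_card_le_finrank_span, Set.finrank, Fintype.card_fin]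
  exact h1

lemma generic_choice [Infinite k] (Φ : Fin N → MvPolynomial (Fin μ ⊕ Fin 2) k) (m : Fin μ → k)
    (n s1 s2 r1 r2 : ℕ) (w1 : Fin s1 → Fin 2 → k) (h1 : r1 ≤ (mat Φ m w1).rank)
    (w2 : Fin s2 → Fin 2 → k) (h2 : r2 ≤ (mat Φ m w2).rank)
    (w3 : Fin 2 → k) (h3 : LinearIndependent k (tri Φ m w3)) :
    ∃ u : Fin n → Fin 2 → k,
      (∀ e : Fin s1 ↪ Fin n, r1 ≤ (mat Φ m (fun i => u (e i))).rank) ∧
      (∀ e : Fin s2 ↪ Fin n, r2 ≤ (mat Φ m (fun i => u (e i))).rank) ∧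
      ∀ i, LinearIndependent k (tri Φ m (u i)) := by
  classical
  obtain ⟨G1, hG1, hG1'⟩ := open_mat Φ m s1 r1 w1 h1
  obtain ⟨G2, hG2, hG2'⟩ := open_mat Φ m s2 r2 w2 h2
  obtain ⟨G3, hG3, hG3'⟩ := open_tri Φ m w3 h3
  obtain ⟨x, hx⟩ := exists_eval_ne (k := k) (σ := Fin n × Fin 2)
    (κ := (Fin s1 ↪ Fin n) ⊕ ((Fin s2 ↪ Fin n) ⊕ Fin n))
    (Sum.elim (fun e => rename (fun p : Fin s1 × Fin 2 => (e p.1, p.2)) G1)
      (Sum.elim (fun e => rename (fun p : Fin s2 × Fin 2 => (e p.1, p.2)) G2)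
        (fun i => rename (fun a : Fin 2 => (i, a)) G3))) (by
      rintro (e | e | i)
      · exact rename_ne_zero G1 hG1 _ (fun a b h => by
          rw [Prod.mk.injEq] at h
          exact Prod.ext (e.injective h.1) h.2)
      · exact rename_ne_zero G2 hG2 _ (fun a b h => by
          rw [Prod.mk.injEq] at h
          exact Prod.ext (e.injective h.1) h.2)
      · exact rename_ne_zero G3 hG3 _ (fun a b h => by
          rw [Prod.mk.injEq] at h
          exact h.2))
  refine ⟨fun i a => x (i, a), fun e => ?_, fun e => ?_, fun i => ?_⟩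
  · have h4 := hx (Sum.inl e)
    rw [Sum.elim_inl, eval_rename] at h4
    have h5 := hG1' _ h4
    simpa only [Function.comp_apply] using h5
  · have h4 := hx (Sum.inr (Sum.inl e))
    rw [Sum.elim_inr, Sum.elim_inl, eval_rename] at h4
    have h5 := hG2' _ h4
    simpa only [Function.comp_apply] using h5
  · have h4 := hx (Sum.inr (Sum.inr i))
    rw [Sum.elim_inr, Sum.elim_inr, eval_rename] at h4
    exact hG3' _ h4

end Pool.Agent.W507
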