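import Mathlib
import Pool.Agent.W507.Choice

/-!
# Independent conormal vectors at general points, and complementary vectors
-/

set_option autoImplicit false

namespace Pool.Agent.W507

open MvPolynomial Module

variable {k : Type*} [Field k] {N μ : ℕ}

lemma full_sub {ι : Type*} [Fintype ι] [DecidableEq ι]
    (Φ : Fin N → MvPolynomial (Fin μ ⊕ Fin 2) k) (m : Fin μ → k)
    (u : ι → Fin 2 → k) (h : N * Fintype.card ι ≤ (mat Φ m u).rank) (J : Finset ι) :
    N * J.card ≤ finrank k (⨆ i ∈ J, Lsub Φ m (u i) : Submodule k _) + 3 * J.card := by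
  classical
  have h1 : LinearIndependent k (mat Φ m u).row := by
    rw [linearIndependent_iff_card_le_finrank_span]
    rw [Matrix.rank_eq_finrank_span_row] at h
    simp only [Fintype.card_prod, Fintype.card_fin]
    rw [mul_comm]
    exact h
  let uJ : J → Fin 2 → k := fun i => u i.1
  let ext : ((((Fin N × Fin N) ⊕ Fin μ) ⊕ (J × Fin 3)) → k) →ₗ[k]
      ((((Fin N × Fin N) ⊕ Fin μ) ⊕ (ι × Fin 3)) → k) :=
    { toFun := fun x => Sum.elim (fun c => x (Sum.inl c))
        (fun il => if h : il.1 ∈ J then x (Sum.inr (⟨il.1, h⟩, il.2)) else 0)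
      map_add' := by
        intro x y
        ext c
        rcases c with c | ⟨i, l⟩
        · simp
        · simp only [Pi.add_apply, Sum.elim_inr]
          split_ifs <;> simp
      map_smul' := by
        intro r x
        ext c
        rcases c with c | ⟨i, l⟩
        · simp
        · simp only [Pi.smul_apply, Sum.elim_inr, smul_eq_mul, RingHom.id_apply]
          split_ifs <;> simp }
  have h2 : LinearIndependent k (mat Φ m uJ).row := by
    refine LinearIndependent.of_comp ext ?_
    have h3 := h1.comp (fun p : J × Fin N => ((p.1 : ι), p.2)) (by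
      rintro ⟨⟨a, ha⟩, b⟩ ⟨⟨c, hc⟩, d⟩ hh
      simp only [Prod.mk.injEq] at hh
      simp [hh.1, hh.2])
    have e2 : ext ∘ (mat Φ m uJ).row = (mat Φ m u).row ∘
        (fun p : J × Fin N => ((p.1 : ι), p.2)) := by
      funext p
      obtain ⟨⟨i, hi⟩, n⟩ := p
      funext c
      rcases c with (⟨a, b⟩ | s) | ⟨i', l⟩
      · rfl
      · rfl
      · change (if h : i' ∈ J then (if (⟨i', h⟩ : J) = ⟨i, hi⟩ then tri Φ m (u i) l n else 0) else 0)
          = (if i' = i then tri Φ m (u i) l n else 0)
        by_cases hi' : i' ∈ J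
        · by_cases h4 : i' = i
          · subst h4
            simp [hi]
          · simp [hi', h4]
        · have h4 : i' ≠ i := fun h5 => hi' (h5 ▸ hi)
          simp [hi', h4]
    rw [e2]
    exact h3
  have h3 : N * J.card = (mat Φ m uJ).rank := by
    rw [LinearIndependent.rank_matrix h2]
    simp [mul_comm]
  have h4 := rank_mat_le Φ m uJ
  rw [← h3, Fintype.card_coe] at h4
  have h5 : (⨆ i : J, Lsub Φ m (uJ i)) = ⨆ i ∈ J, Lsub Φ m (u i) := by
    rw [iSup_subtype']
  rw [h5] at h4
  exact h4

lemma span_sub {n s r : ℕ} (Φ : Fin N → MvPolynomial (Fin μ ⊕ Fin 2) k) (m : Fin μ → k)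
    (u : Fin n → Fin 2 → k)
    (h : ∀ e : Fin s ↪ Fin n, r + 3 * s ≤ (mat Φ m (fun i => u (e i))).rank)
    (J : Finset (Fin n)) (hJ : s ≤ J.card) :
    r ≤ finrank k (⨆ i ∈ J, Lsub Φ m (u i) : Submodule k _) := by
  classical
  obtain ⟨J', hJ', hcard⟩ := Finset.exists_subset_card_eq hJ
  let e : Fin s ↪ Fin n := (J'.orderEmbOfFin hcard).toEmbedding
  have h1 := h e
  have h2 := rank_mat_le Φ m (fun i => u (e i))
  rw [Fintype.card_fin] at h2
  have h3 : (⨆ i, Lsub Φ m (u (e i))) ≤ ⨆ i ∈ J, Lsub Φ m (u i) := by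
    refine iSup_le fun i => ?_
    exact le_iSup₂_of_le (f := fun i (_ : i ∈ J) => Lsub Φ m (u i)) (e i)
      (hJ' (Finset.orderEmbOfFin_mem J' hcard i)) le_rfl
  have h4 := Submodule.finrank_mono h3
  omega

/-- independent conormal vectors, `lam i` of them at the `i`-th point -/
lemma transversal [Infinite k] {n q Q D c : ℕ} (Φ : Fin N → MvPolynomial (Fin μ ⊕ Fin 2) k)
    (m : Fin μ → k) (u : Fin n → Fin 2 → k) (hN : N = c + 3) (hc : 0 < c) (hQ : Q ≤ q + 1)
    (hqD : q * c ≤ D)
    (h1 : ∀ e : Fin q ↪ Fin n, N * q ≤ (mat Φ m (fun i => u (e i))).rank)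
    (h2 : ∀ e : Fin Q ↪ Fin n, D + 3 * Q ≤ (mat Φ m (fun i => u (e i))).rank)
    (lam : Fin n → ℕ) (hlam : ∀ i, lam i ≤ c) (hsum : ∑ i, lam i = D) :
    ∃ ξ : (Σ i, Fin (lam i)) → Fin N → k, (∀ p, ξ p ∈ Tperp Φ m (u p.1)) ∧
      LinearIndependent k (fun p => E Φ m (u p.1) (ξ p)) := by
  classical
  have hqn : q ≤ n := by
    have h3 : ∑ i, lam i ≤ n * c := by
      calc ∑ i, lam i ≤ ∑ _i : Fin n, c := Finset.sum_le_sum fun i _ => hlam i
        _ = n * c := by simp
    have h4 : q * c ≤ n * c := by omega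
    exact Nat.le_of_mul_le_mul_right h4 hc
  have key : ∀ J : Finset (Fin n), ∑ i ∈ J, lam i ≤
      finrank k (⨆ i ∈ J, Lsub Φ m (u i) : Submodule k _) := by
    intro J
    by_cases hJ : J.card ≤ q
    · obtain ⟨J', hJJ', hcard⟩ := Finset.exists_superset_card_eq hJ (by simpa using hqn)
      let e : Fin q ↪ Fin n := (J'.orderEmbOfFin hcard).toEmbedding
      have h3 := full_sub Φ m (fun i => u (e i)) (by
        rw [Fintype.card_fin]
        exact h1 e) (Finset.univ.filter (fun i => e i ∈ J))
      have h4 : (Finset.univ.filter (fun i => e i ∈ J)).map e = J := by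
        ext x
        simp only [Finset.mem_map, Finset.mem_filter, Finset.mem_univ, true_and]
        constructor
        · rintro ⟨a, ha, rfl⟩
          exact ha
        · intro hx
          have hx' : x ∈ Set.range (J'.orderEmbOfFin hcard) := by
            rw [Finset.range_orderEmbOfFin]
            exact hJJ' hx
          obtain ⟨a, ha⟩ := hx'
          exact ⟨a, by change (J'.orderEmbOfFin hcard) a ∈ J; rw [ha]; exact hx, ha⟩
      have h5 : (Finset.univ.filter (fun i => e i ∈ J)).card = J.card := by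
        rw [← Finset.card_map e, h4]
      rw [h5] at h3
      have h6 : (⨆ i ∈ Finset.univ.filter (fun i => e i ∈ J), Lsub Φ m (u (e i))) ≤
          ⨆ i ∈ J, Lsub Φ m (u i) := by
        refine iSup₂_le fun i hi => ?_
        simp only [Finset.mem_filter, Finset.mem_univ, true_and] at hi
        exact le_iSup₂_of_le (f := fun i (_ : i ∈ J) => Lsub Φ m (u i)) (e i) hi le_rfl
      have h7 := Submodule.finrank_mono h6
      have h8 : ∑ i ∈ J, lam i ≤ c * J.card := by
        calc ∑ i ∈ J, lam i ≤ ∑ _i ∈ J, c := Finset.sum_le_sum fun i _ => hlam i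
          _ = c * J.card := by simp [mul_comm]
      have h9 : N * J.card = c * J.card + 3 * J.card := by rw [hN]; ring
      omega
    · have h3 := span_sub Φ m u h2 J (by omega)
      have h4 : ∑ i ∈ J, lam i ≤ ∑ i, lam i :=
        Finset.sum_le_sum_of_subset (Finset.subset_univ J)
      omega
  -- slots
  let κ := Σ i, Fin (lam i)
  let ε : Fin (Fintype.card κ) ≃ κ := (Fintype.equivFin κ).symm
  obtain ⟨x, hx, hxi⟩ := rado (fun i => Lsub Φ m (u i)) (Fintype.card κ) (fun s => (ε s).1) (by
    intro J
    have h3 : (Finset.univ.filter (fun s => (ε s).1 ∈ J)).card = ∑ i ∈ J, lam i := by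
      have h4 : (Finset.univ.filter (fun s => (ε s).1 ∈ J)).card =
          (Finset.univ.filter (fun p : κ => p.1 ∈ J)).card := by
        rw [← Finset.card_map ε.toEmbedding]
        congr 1
        ext p
        simp only [Finset.mem_map_equiv, Finset.mem_filter, Finset.mem_univ, true_and,
          Equiv.apply_symm_apply]
      rw [h4]
      have h5 : (Finset.univ.filter (fun p : κ => p.1 ∈ J)) =
          J.sigma (fun i => (Finset.univ : Finset (Fin (lam i)))) := by
        ext p
        rw [Finset.mem_sigma]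
        simp
      rw [h5, Finset.card_sigma]
      simp
    rw [h3]
    exact key J)
  choose ξ hξ hξ' using hx
  have h3 := hxi.comp ε.symm ε.symm.injective
  refine ⟨fun p => ξ (ε.symm p), fun p => ?_, ?_⟩
  · have := hξ (ε.symm p)
    rw [Equiv.apply_symm_apply] at this
    exact this
  · have e3 : (fun p => E Φ m (u p.1) (ξ (ε.symm p))) = x ∘ ε.symm := by
      funext p
      have := hξ' (ε.symm p)
      rw [Equiv.apply_symm_apply] at this
      exact this
    rw [e3]
    exact h3

end Pool.Agent.W507
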