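import Mathlib
import Pool.Agent.W507.Trans
import Pool.Agent.W507.Compl

/-!
# Interpolation for families of parametrised surfaces
-/

set_option autoImplicit false

namespace Pool.Agent.W507

open MvPolynomial Module

variable {k : Type*} [Field k] {N μ : ℕ}

/-- the variables: the matrix, the moduli, scale and plane point for each index, coefficients,
vectors -/
abbrev Var (N μ n : ℕ) (e : Fin n → ℕ) : Type :=
  (((Fin N × Fin N) ⊕ Fin μ) ⊕ (Fin n × Fin 3)) ⊕
    ((Σ i, Fin (e i)) ⊕ ((Σ i, Fin (e i)) × Fin N))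

section

variable {n : ℕ} {e : Fin n → ℕ}

/-- the point -/
noncomputable def base (m0 : Fin μ → k) (u : Fin n → Fin 2 → k)
    (v : (Σ i, Fin (e i)) → Fin N → k) : Var N μ n e → k :=
  Sum.elim (Sum.elim (Sum.elim (fun ab => if ab.1 = ab.2 then 1 else 0) m0)
    (fun il => (Fin.cons 1 (u il.1) : Fin 3 → k) il.2))
    (Sum.elim (fun _ => 0) (fun p => v p.1 p.2))

noncomputable def Phip (Φ : Fin N → MvPolynomial (Fin μ ⊕ Fin 2) k) (i : Fin n) (b : Fin N) :
    MvPolynomial (Var N μ n e) k :=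
  aeval (Sum.elim (fun s => X (Sum.inl (Sum.inl (Sum.inr s))))
    (fun a => X (Sum.inl (Sum.inr (i, Fin.succ a))))) (Φ b)

noncomputable def Ypol (Φ : Fin N → MvPolynomial (Fin μ ⊕ Fin 2) k) (i : Fin n) (a : Fin N) :
    MvPolynomial (Var N μ n e) k :=
  X (Sum.inl (Sum.inr (i, 0))) * ∑ b, X (Sum.inl (Sum.inl (Sum.inl (a, b)))) * Phip Φ i b

noncomputable def outp (Φ : Fin N → MvPolynomial (Fin μ ⊕ Fin 2) k)
    (p : (Σ i : Fin n, Fin (e i + 1)) × Fin N) : MvPolynomial (Var N μ n e) k :=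
  Fin.cases (motive := fun _ => MvPolynomial (Var N μ n e) k)
    (Ypol Φ p.1.1 p.2 - ∑ j, X (Sum.inr (Sum.inl ⟨p.1.1, j⟩)) *
      X (Sum.inr (Sum.inr (⟨p.1.1, j⟩, p.2))))
    (fun j => X (Sum.inr (Sum.inr (⟨p.1.1, j⟩, p.2)))) p.1.2

lemma outp_zero (Φ : Fin N → MvPolynomial (Fin μ ⊕ Fin 2) k) (i : Fin n) (a : Fin N) :
    outp (e := e) Φ (⟨i, 0⟩, a) = Ypol Φ i a - ∑ j, X (Sum.inr (Sum.inl ⟨i, j⟩)) *
      X (Sum.inr (Sum.inr (⟨i, j⟩, a))) := rfl

lemma outp_succ (Φ : Fin N → MvPolynomial (Fin μ ⊕ Fin 2) k) (i : Fin n) (j : Fin (e i))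
    (a : Fin N) : outp (e := e) Φ (⟨i, j.succ⟩, a) = X (Sum.inr (Sum.inr (⟨i, j⟩, a))) := rfl

lemma eval_Phip (Φ : Fin N → MvPolynomial (Fin μ ⊕ Fin 2) k) (x : Var N μ n e → k) (i : Fin n)
    (b : Fin N) : eval x (Phip Φ i b) = val Φ (fun s => x (Sum.inl (Sum.inl (Sum.inr s))))
      (fun a => x (Sum.inl (Sum.inr (i, Fin.succ a)))) b := by
  unfold Phip val
  have : (eval x).comp ((aeval (Sum.elim (fun s => X (Sum.inl (Sum.inl (Sum.inr s))))
    (fun a => X (Sum.inl (Sum.inr (i, Fin.succ a))))) :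
      MvPolynomial (Fin μ ⊕ Fin 2) k →ₐ[k] MvPolynomial (Var N μ n e) k)).toRingHom
      = eval (Sum.elim (fun s => x (Sum.inl (Sum.inl (Sum.inr s))))
      (fun a => x (Sum.inl (Sum.inr (i, Fin.succ a))))) := by
    apply MvPolynomial.ringHom_ext
    · intro r
      simp [algebraMap_eq]
    · rintro (s | a)
      · simp
      · simp
  exact RingHom.congr_fun this (Φ b)

lemma dir_aeval' {σ ρ : Type*} [Fintype σ] [Fintype ρ] (a w : σ → k)
    (g : ρ → MvPolynomial σ k) (F : MvPolynomial ρ k) :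
    dir a w (aeval g F) =
      ∑ r, dir a w (g r) * eval (fun r => eval a (g r)) (pderiv r F) := by
  rw [dir_aeval]
  rfl

lemma dir_Phip (Φ : Fin N → MvPolynomial (Fin μ ⊕ Fin 2) k) (m0 : Fin μ → k)
    (u : Fin n → Fin 2 → k) (v : (Σ i, Fin (e i)) → Fin N → k) (w : Var N μ n e → k) (i : Fin n)
    (b : Fin N) : dir (base m0 u v) w (Phip Φ i b) =
      ∑ s, der Φ m0 (u i) (Sum.inl s) b * w (Sum.inl (Sum.inl (Sum.inr s))) +
      (der Φ m0 (u i) (Sum.inr 0) b * w (Sum.inl (Sum.inr (i, 1))) +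
        der Φ m0 (u i) (Sum.inr 1) b * w (Sum.inl (Sum.inr (i, 2)))) := by
  unfold Phip
  rw [dir_aeval']
  have h1 : (fun r : Fin μ ⊕ Fin 2 => eval (base m0 u v)
      ((Sum.elim (fun s => X (Sum.inl (Sum.inl (Sum.inr s))))
        (fun a => X (Sum.inl (Sum.inr (i, Fin.succ a)))) :
        Fin μ ⊕ Fin 2 → MvPolynomial (Var N μ n e) k) r)) = Sum.elim m0 (u i) := by
    funext r
    rcases r with s | a
    · simp [base]
    · simp [base]
  rw [h1, Fintype.sum_sum_type, Fin.sum_univ_two]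
  simp only [Sum.elim_inl, Sum.elim_inr, dir_X]
  congr 1
  · refine Finset.sum_congr rfl fun s _ => ?_
    rw [mul_comm]
    rfl
  · congr 1
    · rw [mul_comm]
      rfl
    · rw [mul_comm]
      rfl

lemma mat_mulVec (Φ : Fin N → MvPolynomial (Fin μ ⊕ Fin 2) k) (m0 : Fin μ → k)
    (u : Fin n → Fin 2 → k) (x : ((Fin N × Fin N) ⊕ Fin μ) ⊕ (Fin n × Fin 3) → k)
    (i : Fin n) (a : Fin N) :
    (mat Φ m0 u).mulVec x (i, a) = ∑ b, val Φ m0 (u i) b * x (Sum.inl (Sum.inl (a, b))) +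
      ∑ s, der Φ m0 (u i) (Sum.inl s) a * x (Sum.inl (Sum.inr s)) +
      (val Φ m0 (u i) a * x (Sum.inr (i, 0)) + der Φ m0 (u i) (Sum.inr 0) a * x (Sum.inr (i, 1)) +
        der Φ m0 (u i) (Sum.inr 1) a * x (Sum.inr (i, 2))) := by
  rw [Matrix.mulVec, dotProduct, Fintype.sum_sum_type, Fintype.sum_sum_type,
    Fintype.sum_prod_type, Fintype.sum_prod_type]
  congr 1
  · congr 1
    rw [Finset.sum_eq_single a]
    · simp [mat]
    · intro a' _ ha'
      simp [mat, ha']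
    · simp
  · rw [Finset.sum_eq_single i]
    · simp [mat, Fin.sum_univ_three, tri]
    · intro i' _ hi'
      simp [mat, hi']
    · simp

lemma dir_Ypol (Φ : Fin N → MvPolynomial (Fin μ ⊕ Fin 2) k) (m0 : Fin μ → k)
    (u : Fin n → Fin 2 → k) (v : (Σ i, Fin (e i)) → Fin N → k) (w : Var N μ n e → k) (i : Fin n)
    (a : Fin N) : dir (base m0 u v) w (Ypol Φ i a) =
      (mat Φ m0 u).mulVec (fun c => w (Sum.inl c)) (i, a) := by
  have hval : ∀ b, eval (base m0 u v) (Phip Φ i b) = val Φ m0 (u i) b := by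
    intro b
    rw [eval_Phip]
    rfl
  rw [mat_mulVec]
  unfold Ypol
  have hb : ∀ b, (base m0 u v : Var N μ n e → k) (Sum.inl (Sum.inl (Sum.inl (a, b)))) =
      if a = b then 1 else 0 := fun b => rfl
  have hs : (base m0 u v : Var N μ n e → k) (Sum.inl (Sum.inr (i, 0))) = 1 := rfl
  rw [dir_mul, dir_X, dir_sum]
  simp only [dir_mul, dir_X, hval, map_sum, map_mul, eval_X, dir_Phip, hb, hs, one_mul, ite_mul,
    zero_mul]
  rw [Finset.sum_add_distrib]
  simp only [Finset.sum_ite_eq, Finset.mem_univ, if_true]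
  have : ∀ b, w (Sum.inl (Sum.inl (Sum.inl (a, b)))) * val Φ m0 (u i) b =
    val Φ m0 (u i) b * w (Sum.inl (Sum.inl (Sum.inl (a, b)))) := fun b => mul_comm _ _
  simp only [this]
  ring

/-- surjectivity of the differential -/
lemma surj_dir (Φ : Fin N → MvPolynomial (Fin μ ⊕ Fin 2) k) (m0 : Fin μ → k)
    (u : Fin n → Fin 2 → k) (v : (Σ i, Fin (e i)) → Fin N → k)
    (hdual : ∀ ξ : Fin n × Fin N → k,
      (∀ i l, (fun a => ξ (i, a)) ⬝ᵥ tri Φ m0 (u i) l = 0) →
      (∀ i j, (fun a => ξ (i, a)) ⬝ᵥ v ⟨i, j⟩ = 0) →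
      ∑ i, E Φ m0 (u i) (fun a => ξ (i, a)) = 0 → ξ = 0) :
    Function.Surjective (fun w : Var N μ n e → k => fun p => dir (base m0 u v) w (outp Φ p)) := by
  classical
  let B : Matrix (Fin n × Fin N) (Σ i, Fin (e i)) k := fun p ij =>
    if ij.1 = p.1 then v ij p.2 else 0
  let M := Matrix.fromCols (mat Φ m0 u) B
  have hM : Function.Surjective M.mulVecLin := by
    apply surj_of_orth
    intro ξ hξ
    have h1 : Matrix.vecMul ξ M = 0 := by
      funext c
      have := hξ (Pi.single c 1)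
      rw [Matrix.mulVecLin_apply, Matrix.dotProduct_mulVec, dotProduct_single, mul_one] at this
      exact this
    rw [Matrix.vecMul_fromCols] at h1
    have h2 : Matrix.vecMul ξ (mat Φ m0 u) = 0 := by
      funext c
      exact congrFun h1 (Sum.inl c)
    have h3 : Matrix.vecMul ξ B = 0 := by
      funext c
      exact congrFun h1 (Sum.inr c)
    rw [vecMul_mat] at h2
    apply hdual
    · intro i l
      exact congrFun h2 (Sum.inr (i, l))
    · intro i j
      have h4 := congrFun h3 ⟨i, j⟩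
      rw [Matrix.vecMul, dotProduct, Fintype.sum_prod_type, Finset.sum_eq_single i] at h4
      · simpa [B, dotProduct] using h4
      · intro i' _ hi'
        simp [B, hi'.symm]
      · simp
    · funext c
      exact congrFun h2 (Sum.inl c)
  intro η
  -- prescribed vector part
  let wv : (Σ i, Fin (e i)) × Fin N → k := fun p => η (⟨p.1.1, p.1.2.succ⟩, p.2)
  obtain ⟨x, hx⟩ := hM (fun p => η (⟨p.1, 0⟩, p.2))
  refine ⟨Sum.elim (fun c => x (Sum.inl c)) (Sum.elim (fun ij => - x (Sum.inr ij)) wv), ?_⟩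
  funext p
  obtain ⟨⟨i, j⟩, a⟩ := p
  refine Fin.cases ?_ (fun j => ?_) j
  · beta_reduce
    rw [outp_zero, dir_sub, dir_Ypol, dir_sum]
    simp only [dir_mul, dir_X, eval_X, Sum.elim_inl, Sum.elim_inr]
    have h1 := congrFun hx (i, a)
    rw [Matrix.mulVecLin_apply, Matrix.fromCols_mulVec] at h1
    simp only [Pi.add_apply] at h1
    rw [← h1]
    have h2 : (B.mulVec (x ∘ Sum.inr)) (i, a) = ∑ j, v ⟨i, j⟩ a * x (Sum.inr ⟨i, j⟩) := by
      rw [Matrix.mulVec, dotProduct, Fintype.sum_sigma, Finset.sum_eq_single i]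
      · simp [B]
      · intro i' _ hi'
        simp [B, hi']
      · simp
    rw [h2, sub_eq_add_neg, ← Finset.sum_neg_distrib]
    congr 1
    refine Finset.sum_congr rfl fun j _ => ?_
    have h3 : (base m0 u v : Var N μ n e → k) (Sum.inr (Sum.inl ⟨i, j⟩)) = 0 := rfl
    have h4 : (base m0 u v : Var N μ n e → k) (Sum.inr (Sum.inr (⟨i, j⟩, a))) = v ⟨i, j⟩ a := rfl
    rw [h3, h4]
    ring
  · beta_reduce
    rw [outp_succ, dir_X]
    rfl

end

/-- **The general interpolation theorem.** -/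
theorem general [CharZero k] [IsAlgClosed k] {c q Q D : ℕ}
    (Φ : Fin N → MvPolynomial (Fin μ ⊕ Fin 2) k)
    (m0 : Fin μ → k) (G0 : MvPolynomial (Fin μ) k) (hG0 : eval m0 G0 ≠ 0) (hN : N = c + 3)
    (hc : 0 < c) (hQ : Q ≤ q + 1) (hqD : q * c ≤ D)
    (w1 : Fin q → Fin 2 → k) (h1 : N * q ≤ (mat Φ m0 w1).rank)
    (w2 : Fin Q → Fin 2 → k) (h2 : D + 3 * Q ≤ (mat Φ m0 w2).rank)
    (w3 : Fin 2 → k) (h3 : LinearIndependent k (tri Φ m0 w3))
    (n : ℕ) (lam : Fin n → ℕ) (hlam : ∀ i, lam i ≤ c) (hsum : ∑ i, lam i = D) :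
    ∃ P : MvPolynomial ((Σ i : Fin n, Fin (c - lam i + 1)) × Fin N) k, P ≠ 0 ∧
      ∀ v : (Σ i : Fin n, Fin (c - lam i + 1)) → Fin N → k,
        eval (fun p => v p.1 p.2) P ≠ 0 →
        ∃ (g : Matrix (Fin N) (Fin N) k) (m : Fin μ → k), g.det ≠ 0 ∧ eval m G0 ≠ 0 ∧
          ∀ i, ∃ u : Fin 2 → k, val Φ m u ≠ 0 ∧
            g.mulVec (val Φ m u) ∈ Submodule.span k (Set.range fun j => v ⟨i, j⟩) := by
  classical
  have hinf : Infinite k := IsAlgClosed.instInfinite
  obtain ⟨u, hu1, hu2, hu3⟩ := generic_choice Φ m0 n q Q (N * q) (D + 3 * Q) w1 h1 w2 h2 w3 h3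
  obtain ⟨ξ, hξ, hξi⟩ := transversal Φ m0 u hN hc hQ hqD hu1 hu2 lam hlam hsum
  let e : Fin n → ℕ := fun i => c - lam i
  have hξ' : ∀ i, LinearIndependent k (fun j : Fin (lam i) => ξ ⟨i, j⟩) := by
    intro i
    have h4 := hξi.comp (fun j : Fin (lam i) => (⟨i, j⟩ : Σ i, Fin (lam i))) (by
      intro a b hab
      simpa using hab)
    exact LinearIndependent.of_comp (E Φ m0 (u i)) h4
  have hv : ∀ i, ∃ v : Fin (e i) → Fin N → k, ∀ η : Fin N → k,
      (∀ l, η ⬝ᵥ tri Φ m0 (u i) l = 0) → (∀ j, η ⬝ᵥ v j = 0) →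
      η ∈ Submodule.span k (Set.range (fun j : Fin (lam i) => ξ ⟨i, j⟩)) := by
    intro i
    apply complement (tri Φ m0 (u i)) (hu3 i) _ (hξ' i)
    · intro j l
      exact hξ ⟨i, j⟩ l
    · have := hlam i
      simp only [e]
      omega
  choose v hv using hv
  have hsurj := surj_dir (e := e) Φ m0 u (fun p => v p.1 p.2) (by
    intro η hη1 hη2 hη3
    have h4 : ∀ i, (fun a => η (i, a)) ∈
        Submodule.span k (Set.range (fun j : Fin (lam i) => ξ ⟨i, j⟩)) :=
      fun i => hv i _ (hη1 i) (hη2 i)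
    simp only [Submodule.mem_span_range_iff_exists_fun] at h4
    choose cf hcf using h4
    have h5 : ∑ p : Σ i, Fin (lam i), cf p.1 p.2 • E Φ m0 (u p.1) (ξ p) = 0 := by
      rw [Fintype.sum_sigma, ← hη3]
      refine Finset.sum_congr rfl fun i _ => ?_
      rw [← hcf i, map_sum]
      simp
    have h6 := (Fintype.linearIndependent_iff.1 hξi) (fun p => cf p.1 p.2) h5
    funext p
    have h7 : (fun a => η (p.1, a)) = 0 := by
      rw [← hcf p.1]
      exact Finset.sum_eq_zero fun j _ => by rw [h6 ⟨p.1, j⟩, zero_smul]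
    exact congrFun h7 p.2)
  have hind := algInd_of_dir (outp Φ) (base m0 u (fun p => v p.1 p.2)) hsurj
  -- coordinates that do not vanish
  have hval : ∀ i, ∃ b, val Φ m0 (u i) b ≠ 0 := by
    intro i
    by_contra hcon
    push Not at hcon
    have := (hu3 i).ne_zero 0
    apply this
    funext b
    exact hcon b
  choose b hb using hval
  let gm : Matrix (Fin N) (Fin N) (MvPolynomial (Var N μ n e) k) :=
    fun a b => X (Sum.inl (Sum.inl (Sum.inl (a, b))))
  let D0 : MvPolynomial (Var N μ n e) k := gm.det *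
    rename (fun s => Sum.inl (Sum.inl (Sum.inr s))) G0 *
    ∏ i, (X (Sum.inl (Sum.inr (i, 0))) * Phip Φ i (b i))
  have hdet : ∀ x : Var N μ n e → k, eval x gm.det =
      (Matrix.of fun a b => x (Sum.inl (Sum.inl (Sum.inl (a, b))))).det := by
    intro x
    rw [RingHom.map_det]
    congr 1
    ext a b
    change eval x (X (Sum.inl (Sum.inl (Sum.inl (a, b))))) = _
    rw [eval_X]
    rfl
  have hD0 : D0 ≠ 0 := by
    apply eval_ne_zero_imp D0 (base m0 u (fun p => v p.1 p.2))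
    simp only [D0, map_mul, map_prod, eval_X, hdet, eval_rename, eval_Phip]
    refine mul_ne_zero (mul_ne_zero ?_ ?_) ?_
    · have : (Matrix.of fun a b => (base m0 u (fun p => v p.1 p.2) : Var N μ n e → k)
          (Sum.inl (Sum.inl (Sum.inl (a, b))))) = (1 : Matrix (Fin N) (Fin N) k) := by
        ext a b
        simp [base, Matrix.one_apply]
      rw [this, Matrix.det_one]
      exact one_ne_zero
    · exact hG0
    · refine Finset.prod_ne_zero_iff.2 fun i _ => mul_ne_zero ?_ (hb i)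
      exact one_ne_zero
  obtain ⟨P, hP, hP'⟩ := generic_surj (outp Φ) hind D0 hD0
  refine ⟨P, hP, fun v' hv' => ?_⟩
  obtain ⟨x, hx, hx'⟩ := hP' (fun p => v' p.1 p.2) hv'
  simp only [D0, map_mul, map_prod, eval_X, hdet, eval_rename, eval_Phip] at hx'
  have hx1 := left_ne_zero_of_mul (left_ne_zero_of_mul hx')
  have hx2 := right_ne_zero_of_mul (left_ne_zero_of_mul hx')
  have hx3 := Finset.prod_ne_zero_iff.1 (right_ne_zero_of_mul hx')
  refine ⟨Matrix.of fun a b => x (Sum.inl (Sum.inl (Sum.inl (a, b)))),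
    fun s => x (Sum.inl (Sum.inl (Sum.inr s))), hx1, hx2, fun i => ?_⟩
  refine ⟨fun a => x (Sum.inl (Sum.inr (i, Fin.succ a))), ?_, ?_⟩
  · intro h0
    apply right_ne_zero_of_mul (hx3 i (Finset.mem_univ i))
    rw [h0]
    rfl
  · have hs : x (Sum.inl (Sum.inr (i, 0))) ≠ 0 :=
      left_ne_zero_of_mul (hx3 i (Finset.mem_univ i))
    set y := (Matrix.of fun a b => x (Sum.inl (Sum.inl (Sum.inl (a, b))))).mulVec
      (val Φ (fun s => x (Sum.inl (Sum.inl (Sum.inr s))))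
        (fun a => x (Sum.inl (Sum.inr (i, Fin.succ a))))) with hy
    have h4 : ∀ (j : Fin (e i)) (a : Fin N), x (Sum.inr (Sum.inr (⟨i, j⟩, a))) =
        v' ⟨i, j.succ⟩ a := by
      intro j a
      have := hx (⟨i, j.succ⟩, a)
      rw [outp_succ, eval_X] at this
      exact this
    have h5 : x (Sum.inl (Sum.inr (i, 0))) • y =
        v' ⟨i, 0⟩ + ∑ j : Fin (e i), x (Sum.inr (Sum.inl ⟨i, j⟩)) • v' ⟨i, j.succ⟩ := by
      funext a
      have := hx (⟨i, 0⟩, a)
      rw [outp_zero] at this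
      simp only [Ypol, map_sub, map_mul, map_sum, eval_X, eval_Phip, h4] at this
      simp only [Pi.smul_apply, Pi.add_apply, Finset.sum_apply, smul_eq_mul]
      rw [← this]
      simp only [hy, Matrix.mulVec, dotProduct, Matrix.of_apply]
      ring
    have h6 : y = (x (Sum.inl (Sum.inr (i, 0))))⁻¹ • (x (Sum.inl (Sum.inr (i, 0))) • y) := by
      rw [smul_smul, inv_mul_cancel₀ hs, one_smul]
    rw [h6, h5]
    refine Submodule.smul_mem _ _ (Submodule.add_mem _ ?_ (Submodule.sum_mem _ fun j _ =>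
      Submodule.smul_mem _ _ ?_))
    · exact Submodule.subset_span ⟨0, rfl⟩
    · exact Submodule.subset_span ⟨j.succ, rfl⟩

end Pool.Agent.W507
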