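import Mathlib
import Pool.Agent.W507.CertSound
import Pool.Agent.W507.General

/-!
# Families given by monomials with coefficients depending on the moduli
-/

set_option autoImplicit false

namespace Pool.Agent.W507

open MvPolynomial Module

variable {k : Type*} [Field k] {N μ K : ℕ}

/-- the family of maps whose `b`-th coordinate is the sum of the `A b j` times monomials -/
noncomputable def PhiOf (A : Fin N → Fin K → MvPolynomial (Fin μ) k) (ex : Fin K → ℕ × ℕ) :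
    Fin N → MvPolynomial (Fin μ ⊕ Fin 2) k :=
  fun b => ∑ j, rename Sum.inl (A b j) * (X (Sum.inr 0) ^ (ex j).1 * X (Sum.inr 1) ^ (ex j).2)

lemma eval_rename_inl (m : Fin μ → k) (u : Fin 2 → k) (F : MvPolynomial (Fin μ) k) :
    eval (Sum.elim m u) (rename Sum.inl F) = eval m F := by
  rw [eval_rename]
  rfl

lemma val_PhiOf (A : Fin N → Fin K → MvPolynomial (Fin μ) k) (ex : Fin K → ℕ × ℕ)
    (m : Fin μ → k) (u : Fin 2 → k) (b : Fin N) :
    val (PhiOf A ex) m u b = ∑ j, eval m (A b j) * (u 0 ^ (ex j).1 * u 1 ^ (ex j).2) := by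
  unfold val PhiOf
  rw [map_sum]
  refine Finset.sum_congr rfl fun j _ => ?_
  rw [map_mul, eval_rename_inl]
  simp

lemma pderiv_rename_inl (s : Fin μ) (F : MvPolynomial (Fin μ) k) :
    pderiv (Sum.inl s : Fin μ ⊕ Fin 2) (rename Sum.inl F) = rename Sum.inl (pderiv s F) :=
  pderiv_rename Sum.inl_injective s F

lemma pderiv_rename_inr (a : Fin 2) (F : MvPolynomial (Fin μ) k) :
    pderiv (Sum.inr a : Fin μ ⊕ Fin 2) (rename Sum.inl F) = 0 := by
  classical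
  apply pderiv_eq_zero_of_notMem_vars
  intro h
  have := vars_rename Sum.inl F h
  simp at this

lemma der_inl_PhiOf (A : Fin N → Fin K → MvPolynomial (Fin μ) k) (ex : Fin K → ℕ × ℕ)
    (m : Fin μ → k) (u : Fin 2 → k) (s : Fin μ) (b : Fin N) :
    der (PhiOf A ex) m u (Sum.inl s) b =
      ∑ j, eval m (pderiv s (A b j)) * (u 0 ^ (ex j).1 * u 1 ^ (ex j).2) := by
  unfold der PhiOf
  rw [map_sum, map_sum]
  refine Finset.sum_congr rfl fun j _ => ?_
  rw [pderiv_mul, pderiv_rename_inl, pderiv_mul, pderiv_pow, pderiv_pow,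
    pderiv_X_of_ne (by simp), pderiv_X_of_ne (by simp)]
  simp only [mul_zero, zero_mul, add_zero, map_mul, eval_rename_inl, map_pow, eval_X,
    Sum.elim_inr]

lemma der_inr0_PhiOf (A : Fin N → Fin K → MvPolynomial (Fin μ) k) (ex : Fin K → ℕ × ℕ)
    (m : Fin μ → k) (u : Fin 2 → k) (b : Fin N) :
    der (PhiOf A ex) m u (Sum.inr 0) b =
      ∑ j, eval m (A b j) * (((ex j).1 : k) * u 0 ^ ((ex j).1 - 1) * u 1 ^ (ex j).2) := by
  unfold der PhiOf
  rw [map_sum, map_sum]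
  refine Finset.sum_congr rfl fun j _ => ?_
  rw [pderiv_mul, pderiv_rename_inr, pderiv_mul, pderiv_pow, pderiv_pow,
    pderiv_X_self, pderiv_X_of_ne (by simp)]
  simp only [mul_zero, zero_mul, zero_add, add_zero, map_mul, eval_rename_inl, map_pow, eval_X,
    Sum.elim_inr, mul_one, map_natCast]

lemma der_inr1_PhiOf (A : Fin N → Fin K → MvPolynomial (Fin μ) k) (ex : Fin K → ℕ × ℕ)
    (m : Fin μ → k) (u : Fin 2 → k) (b : Fin N) :
    der (PhiOf A ex) m u (Sum.inr 1) b =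
      ∑ j, eval m (A b j) * (u 0 ^ (ex j).1 * (((ex j).2 : k) * u 1 ^ ((ex j).2 - 1))) := by
  unfold der PhiOf
  rw [map_sum, map_sum]
  refine Finset.sum_congr rfl fun j _ => ?_
  rw [pderiv_mul, pderiv_rename_inr, pderiv_mul, pderiv_pow, pderiv_pow,
    pderiv_X_self, pderiv_X_of_ne (by simp)]
  simp only [mul_zero, zero_mul, zero_add, map_mul, eval_rename_inl, map_pow, eval_X,
    Sum.elim_inr, mul_one, map_natCast]

/-- integral values -/
def vzf (ex : Fin K → ℕ × ℕ) (a0 : Fin N → Fin K → ℤ) (xy : ℕ × ℕ) (b : Fin N) : ℤ :=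
  ∑ j, a0 b j * ((xy.1 : ℤ) ^ (ex j).1 * (xy.2 : ℤ) ^ (ex j).2)

def tzf (ex : Fin K → ℕ × ℕ) (a0 : Fin N → Fin K → ℤ) (xy : ℕ × ℕ) (l : Fin 3) (b : Fin N) : ℤ :=
  match l with
  | 0 => ∑ j, a0 b j * ((xy.1 : ℤ) ^ (ex j).1 * (xy.2 : ℤ) ^ (ex j).2)
  | 1 => ∑ j, a0 b j * (((ex j).1 : ℤ) * (xy.1 : ℤ) ^ ((ex j).1 - 1) * (xy.2 : ℤ) ^ (ex j).2)
  | 2 => ∑ j, a0 b j * ((xy.1 : ℤ) ^ (ex j).1 * (((ex j).2 : ℤ) * (xy.2 : ℤ) ^ ((ex j).2 - 1)))

/-- the condition to be checked on the numerical data of the points -/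
def ptsOK (p : ℕ) (ex : Fin K → ℕ × ℕ) (a0 : Fin N → Fin K → ℤ) (a1 : Fin μ → Fin N → Fin K → ℤ)
    (xys pts : List (ℕ × ℕ)) (Q : ℕ) : Prop :=
  ∀ i : Fin Q, ∀ b : Fin N,
    (vzf ex a0 (xys.getD i (0, 0)) b - (Cert.dig p (Cert.VV pts i) b : ℕ)) % p = 0 ∧
    (∀ s : Fin μ, (vzf ex (a1 s) (xys.getD i (0, 0)) b -
      (Cert.dig p (Cert.WW pts i) ((μ + 3) * b + s) : ℕ)) % p = 0) ∧
    (∀ l : Fin 3, (tzf ex a0 (xys.getD i (0, 0)) l b -
      (Cert.dig p (Cert.WW pts i) ((μ + 3) * b + μ + l) : ℕ)) % p = 0)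

instance (p : ℕ) (ex : Fin K → ℕ × ℕ) (a0 : Fin N → Fin K → ℤ) (a1 : Fin μ → Fin N → Fin K → ℤ)
    (xys pts : List (ℕ × ℕ)) (Q : ℕ) : Decidable (ptsOK p ex a0 a1 xys pts Q) := by
  unfold ptsOK; infer_instance

/-- the condition that the tangent vectors at the first point are independent -/
def triOK (p : ℕ) (ex : Fin K → ℕ × ℕ) (a0 : Fin N → Fin K → ℤ) (xy : ℕ × ℕ)
    (ys : Fin 3 → ℕ) : Prop :=
  ∀ l t : Fin 3, (∑ b, tzf ex a0 xy l b * (Cert.dig p (ys t) b : ℕ) -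
    (if l = t then 1 else 0)) % p = 0

instance (p : ℕ) (ex : Fin K → ℕ × ℕ) (a0 : Fin N → Fin K → ℤ) (xy : ℕ × ℕ)
    (ys : Fin 3 → ℕ) : Decidable (triOK p ex a0 xy ys) := by
  unfold triOK; infer_instance

lemma zmod_of_mod {p : ℕ} {a : ℤ} {b : ℕ} (h : (a - b) % p = 0) : (a : ZMod p) = (b : ℕ) := by
  have h1 : ((a - b : ℤ) : ZMod p) = 0 := (ZMod.intCast_zmod_eq_zero_iff_dvd _ _).2
    (Int.dvd_of_emod_eq_zero h)
  push_cast at h1
  exact sub_eq_zero.1 h1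

theorem fam_general [CharZero k] [IsAlgClosed k] {c q Q D R p : ℕ} [Fact (1 < p)]
    (A : Fin N → Fin K → MvPolynomial (Fin μ) k) (ex : Fin K → ℕ × ℕ)
    (m0 : Fin μ → k) (G0 : MvPolynomial (Fin μ) k) (hG0 : eval m0 G0 ≠ 0)
    (a0 : Fin N → Fin K → ℤ) (ha0 : ∀ b j, eval m0 (A b j) = (a0 b j : k))
    (a1 : Fin μ → Fin N → Fin K → ℤ) (ha1 : ∀ s b j, eval m0 (pderiv s (A b j)) = (a1 s b j : k))
    (hN : N = c + 3) (hc : 0 < c) (hQ : Q ≤ q + 1) (hqQ : q ≤ Q) (hqD : q * c ≤ D)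
    (hDQ : D ≤ Q * c) (hR : R = D + 3 * Q)
    (xys pts : List (ℕ × ℕ)) (xs : List ℕ) (hpts : pts.length = Q) (hxs : xs.length = R)
    (hchk : Cert.chkAll p N μ R pts xs 0 = true) (hok : ptsOK p ex a0 a1 xys pts Q)
    (ys : Fin 3 → ℕ) (htri : triOK p ex a0 (xys.getD 0 (0, 0)) ys)
    (n : ℕ) (lam : Fin n → ℕ) (hlam : ∀ i, lam i ≤ c) (hsum : ∑ i, lam i = D) :
    ∃ P : MvPolynomial ((Σ i : Fin n, Fin (c - lam i + 1)) × Fin N) k, P ≠ 0 ∧
      ∀ v : (Σ i : Fin n, Fin (c - lam i + 1)) → Fin N → k,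
        eval (fun p => v p.1 p.2) P ≠ 0 →
        ∃ (g : Matrix (Fin N) (Fin N) k) (m : Fin μ → k), g.det ≠ 0 ∧ eval m G0 ≠ 0 ∧
          ∀ i, ∃ u : Fin 2 → k, val (PhiOf A ex) m u ≠ 0 ∧
            g.mulVec (val (PhiOf A ex) m u) ∈ Submodule.span k (Set.range fun j => v ⟨i, j⟩) := by
  classical
  let w : ℕ → Fin 2 → k := fun i =>
    ![((xys.getD i (0, 0)).1 : k), ((xys.getD i (0, 0)).2 : k)]
  have hv : ∀ i b, val (PhiOf A ex) m0 (w i) b = (vzf ex a0 (xys.getD i (0, 0)) b : k) := by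
    intro i b
    rw [val_PhiOf, vzf]
    push_cast
    simp only [ha0]
    rfl
  have hd : ∀ i s b, der (PhiOf A ex) m0 (w i) (Sum.inl s) b =
      (vzf ex (a1 s) (xys.getD i (0, 0)) b : k) := by
    intro i s b
    rw [der_inl_PhiOf, vzf]
    push_cast
    simp only [ha1]
    rfl
  have ht : ∀ i l b, tri (PhiOf A ex) m0 (w i) l b =
      (tzf ex a0 (xys.getD i (0, 0)) l b : k) := by
    intro i l b
    fin_cases l
    · change val (PhiOf A ex) m0 (w i) b = _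
      rw [hv]
      rfl
    · change der (PhiOf A ex) m0 (w i) (Sum.inr 0) b = ((∑ j, _ : ℤ) : k)
      rw [der_inr0_PhiOf]
      push_cast
      simp only [ha0]
      rfl
    · change der (PhiOf A ex) m0 (w i) (Sum.inr 1) b = ((∑ j, _ : ℤ) : k)
      rw [der_inr1_PhiOf]
      push_cast
      simp only [ha0]
      rfl
  have key := rank_of_cert (PhiOf A ex) m0 w hchk hxs hpts
    (fun i b => vzf ex a0 (xys.getD i (0, 0)) b) (fun i _ b => hv i b)
    (fun i hi b => zmod_of_mod (hok ⟨i, hi⟩ b).1)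
    (fun i s b => vzf ex (a1 s) (xys.getD i (0, 0)) b) (fun i _ s b => hd i s b)
    (fun i hi s b => zmod_of_mod ((hok ⟨i, hi⟩ b).2.1 s))
    (fun i l b => tzf ex a0 (xys.getD i (0, 0)) l b) (fun i _ l b => ht i l b)
    (fun i hi l b => zmod_of_mod ((hok ⟨i, hi⟩ b).2.2 l))
  have hcq : N * q ≤ R := by
    rw [hR, hN]
    have : (c + 3) * q = q * c + 3 * q := by ring
    omega
  have hcQ : R ≤ N * Q := by
    rw [hR, hN]
    have : (c + 3) * Q = Q * c + 3 * Q := by ring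
    omega
  refine general (PhiOf A ex) m0 G0 hG0 hN hc hQ hqD (fun i : Fin q => w i)
    (key q hqQ (N * q) hcq le_rfl) (fun i : Fin Q => w i)
    (hR ▸ key Q le_rfl R le_rfl hcQ) (w 0) ?_ n lam hlam hsum
  have h3 : 3 ≤ (Matrix.of (tri (PhiOf A ex) m0 (w 0))).rank := by
    refine rank_of_mod _ 3 id (Matrix.of fun l b => tzf ex a0 (xys.getD 0 (0, 0)) l b) ?_
      (Matrix.of fun b t => ((Cert.dig p (ys t) b : ℕ) : ℤ)) p ?_
    · intro l b
      exact ht 0 l b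
    · ext l t
      have h4 := htri l t
      rw [Matrix.map_apply, Matrix.mul_apply, Matrix.one_apply]
      simp only [Matrix.of_apply]
      have h5 : ((∑ b, tzf ex a0 (xys.getD 0 (0, 0)) l b * (Cert.dig p (ys t) b : ℕ) -
        ((if l = t then 1 else 0 : ℕ) : ℤ)) : ℤ) % p = 0 := by
        rw [← h4]
        congr 2
        split_ifs <;> rfl
      have h6 := zmod_of_mod h5
      rw [eq_intCast, h6]
      split_ifs <;> simp
  rw [linearIndependent_iff_card_le_finrank_span, Set.finrank, Fintype.card_fin]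
  rw [Matrix.rank_eq_finrank_span_row] at h3
  exact h3

end Pool.Agent.W507
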