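import Mathlib

/-!
# Del Pezzo surfaces in projective space and (strong) interpolation

The field `k` is meant to be algebraically closed of characteristic zero.
-/

set_option autoImplicit false

namespace Pool.Agent.W507.DelPezzo

open MvPolynomial
open scoped LinearAlgebra.Projectivization

/-- The types of del Pezzo surfaces of degree at least three: the blow-up of the projective plane
at `r ≤ 6` points in general position, and `ℙ¹ × ℙ¹`. -/
inductive Kind : Type
  | plane (r : Fin 7) : Kind
  | quadric : Kind

/-- The degree `d` of the surfaces of the given type; they are embedded in `ℙ^d`. -/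
def Kind.degree : Kind → ℕ
  | .plane r => 9 - r
  | .quadric => 8

variable {k : Type*} [Field k]

/-- The Zariski closure of a subset of `ℙⁿ`. -/
def zclosure {n : ℕ} (S : Set (ℙ k (Fin (n + 1) → k))) : Set (ℙ k (Fin (n + 1) → k)) :=
  {y | ∀ (e : ℕ) (F : MvPolynomial (Fin (n + 1)) k), F.IsHomogeneous e →
    (∀ s ∈ S, eval s.rep F = 0) → eval y.rep F = 0}

/-- The set of all points `(f 0 (x) : … : f n (x))` with not all `f j (x)` equal to zero. -/
def image {σ : Type} {n : ℕ} (f : Fin (n + 1) → MvPolynomial σ k) :
    Set (ℙ k (Fin (n + 1) → k)) :=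
  {y | ∃ (x : σ → k) (h : (fun j => eval x (f j)) ≠ 0),
    y = Projectivization.mk k (fun j => eval x (f j)) h}

/-- The points of the projective plane with homogeneous coordinates `p i` are in general position:
they are pairwise different, no three are on a line, and six are not on a conic. -/
structure InGeneralPosition {r : ℕ} (p : Fin r → Fin 3 → k) : Prop where
  ne_zero : ∀ i, p i ≠ 0
  two : ∀ i j, i < j → LinearIndependent k ![p i, p j]
  three : ∀ i j l, i < j → j < l → LinearIndependent k ![p i, p j, p l]
  six : r = 6 → ∀ F : MvPolynomial (Fin 3) k, F.IsHomogeneous 2 →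
    (∀ i, eval (p i) F = 0) → F = 0

/-- The space of cubic forms that vanish at the points `p i`; these are the sections of the
anticanonical line bundle of the blow-up of the plane at these points. -/
def cubicsThrough {r : ℕ} (p : Fin r → Fin 3 → k) : Submodule k (MvPolynomial (Fin 3) k) where
  carrier := {F | F.IsHomogeneous 3 ∧ ∀ i, eval (p i) F = 0}
  add_mem' := fun ha hb => ⟨ha.1.add hb.1, fun i => by rw [map_add, ha.2 i, hb.2 i, add_zero]⟩
  zero_mem' := ⟨isHomogeneous_zero _ _ _, fun i => map_zero _⟩
  smul_mem' := fun c F hF => ⟨by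
    rw [smul_eq_C_mul]
    simpa using (isHomogeneous_C (Fin 3) c).mul hF.1, fun i => by
    rw [smul_eval, hF.2 i, mul_zero]⟩

/-- The space of the forms of bidegree `(2, 2)` on `ℙ¹ × ℙ¹`, the sections of its anticanonical
line bundle. -/
def biquadratics (k : Type*) [Field k] : Submodule k (MvPolynomial (Fin 2 ⊕ Fin 2) k) :=
  weightedHomogeneousSubmodule k
    (Sum.elim (fun _ => ((1, 0) : ℕ × ℕ)) (fun _ => ((0, 1) : ℕ × ℕ))) (2, 2)

/-- The anticanonically embedded del Pezzo surfaces of the given type, as subsets of `ℙ^d`:
the closures of the images of the maps given by a basis of the space of anticanonical forms. -/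
def IsDelPezzo : (T : Kind) → Set (ℙ k (Fin (T.degree + 1) → k)) → Prop
  | .plane r, Y => ∃ p : Fin r → Fin 3 → k, InGeneralPosition p ∧
      ∃ f : Fin (9 - r + 1) → MvPolynomial (Fin 3) k, LinearIndependent k f ∧
        Submodule.span k (Set.range f) = cubicsThrough p ∧ Y = zclosure (image f)
  | .quadric, Y => ∃ f : Fin (8 + 1) → MvPolynomial (Fin 2 ⊕ Fin 2) k, LinearIndependent k f ∧
        Submodule.span k (Set.range f) = biquadratics k ∧ Y = zclosure (image f)

/-- The assertion `A` holds for a general system of `m` linear subspaces of `ℙⁿ`, of dimensions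
`e i`: it holds for the systems of the spans of all systems of `e i + 1` independent vectors at
which a certain nonzero polynomial in the coordinates of these vectors does not vanish. -/
def ForGeneralSpaces {n m : ℕ} (e : Fin m → ℕ)
    (A : (Fin m → Submodule k (Fin (n + 1) → k)) → Prop) : Prop :=
  ∃ P : MvPolynomial ((Σ i : Fin m, Fin (e i + 1)) × Fin (n + 1)) k, P ≠ 0 ∧
    ∀ v : (i : Fin m) → Fin (e i + 1) → Fin (n + 1) → k, (∀ i, LinearIndependent k (v i)) →
      eval (fun p => v p.1.1 p.1.2 p.2) P ≠ 0 → A (fun i => Submodule.span k (Set.range (v i)))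

/-- `lam`-interpolation for a family `H` of surfaces in `ℙⁿ` (of codimension `n - 2`): for general
linear spaces `Λ i` of dimensions `n - 2 - lam i` some member of the family meets every `Λ i`. -/
def LambdaInterpolation {n m : ℕ} (H : Set (Set (ℙ k (Fin (n + 1) → k)))) (lam : Fin m → ℕ) :
    Prop :=
  ForGeneralSpaces (n := n) (k := k) (fun i => n - 2 - lam i)
    (fun Λ => ∃ Y ∈ H, ∀ i, ∃ y ∈ Y, y.submodule ≤ Λ i)

/-- Strong interpolation for a family of surfaces in `ℙⁿ` of dimension `D`. -/
def StrongInterpolation {n : ℕ} (D : ℕ) (H : Set (Set (ℙ k (Fin (n + 1) → k)))) : Prop :=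
  ∀ (m : ℕ) (lam : Fin m → ℕ), (∀ i, 1 ≤ lam i ∧ lam i ≤ n - 2) → ∑ i, lam i = D →
    LambdaInterpolation H lam

end Pool.Agent.W507.DelPezzo
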