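import Mathlib
import Pool.Agent.W507.DelPezzoDefs

/-!
# From the linear algebra families to del Pezzo surfaces
-/

set_option autoImplicit false

namespace Pool.Agent.W507.DelPezzo

open MvPolynomial
open scoped LinearAlgebra.Projectivization

variable {k : Type*} [Field k]

/-- the forms with coefficient matrix `a` and exponents `E` -/
noncomputable def fam {σ : Type} {N K : ℕ} (E : Fin K → (σ →₀ ℕ)) (a : Fin N → Fin K → k) :
    Fin N → MvPolynomial σ k :=
  fun b => ∑ j, monomial (E j) (a b j)

lemma coeff_sum_monomial {σ : Type} {K : ℕ} (E : Fin K → (σ →₀ ℕ)) (hE : Function.Injective E)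
    (c : Fin K → k) (j : Fin K) : coeff (E j) (∑ i, monomial (E i) (c i)) = c j := by
  classical
  rw [coeff_sum]
  simp only [coeff_monomial]
  rw [Finset.sum_eq_single j]
  · simp
  · intro i _ hi
    rw [if_neg]
    exact fun h => hi (hE h)
  · simp

lemma eq_sum_monomial {σ : Type} {K : ℕ} (E : Fin K → (σ →₀ ℕ)) (hE : Function.Injective E)
    (F : MvPolynomial σ k) (h : ∀ d, coeff d F ≠ 0 → ∃ j, E j = d) :
    F = ∑ i, monomial (E i) (coeff (E i) F) := by
  classical
  ext d
  by_cases hd : ∃ j, E j = d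
  · obtain ⟨j, rfl⟩ := hd
    rw [coeff_sum_monomial E hE]
  · have h0 : coeff d F = 0 := by
      by_contra h1
      exact hd (h d h1)
    rw [h0, coeff_sum]
    symm
    refine Finset.sum_eq_zero fun i _ => ?_
    rw [coeff_monomial, if_neg]
    exact fun h2 => hd ⟨i, h2⟩

theorem span_fam {σ : Type} {N K : ℕ} (E : Fin K → (σ →₀ ℕ)) (hE : Function.Injective E)
    (a : Fin N → Fin K → k) (S : Submodule k (MvPolynomial σ k))
    (h1 : ∀ F ∈ S, ∀ d, coeff d F ≠ 0 → ∃ j, E j = d)
    (h2 : ∀ b, fam E a b ∈ S)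
    (h3 : ∀ c : Fin K → k, (∑ j, monomial (E j) (c j)) ∈ S →
      ∃ γ : Fin N → k, ∀ j, c j = ∑ b, γ b * a b j)
    (h4 : ∀ γ : Fin N → k, (∀ j, ∑ b, γ b * a b j = 0) → γ = 0) :
    LinearIndependent k (fam E a) ∧ Submodule.span k (Set.range (fam E a)) = S := by
  classical
  have key : ∀ γ : Fin N → k, ∑ b, γ b • fam E a b =
      ∑ j, monomial (E j) (∑ b, γ b * a b j) := by
    intro γ
    unfold fam
    simp only [Finset.smul_sum, smul_monomial, smul_eq_mul, map_sum]
    rw [Finset.sum_comm]
  constructor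
  · rw [Fintype.linearIndependent_iff]
    intro γ hγ
    rw [key] at hγ
    have := h4 γ (fun j => by
      have h5 := congrArg (coeff (E j)) hγ
      rw [coeff_sum_monomial E hE] at h5
      simpa using h5)
    intro i
    rw [this]
    rfl
  · apply le_antisymm
    · rw [Submodule.span_le]
      rintro _ ⟨b, rfl⟩
      exact h2 b
    · intro F hF
      have h5 := eq_sum_monomial E hE F (h1 F hF)
      obtain ⟨γ, hγ⟩ := h3 (fun j => coeff (E j) F) (h5 ▸ hF)
      have h6 : F = ∑ b, γ b • fam E a b := by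
        rw [key, h5]
        refine Finset.sum_congr rfl fun j _ => ?_
        rw [← hγ j]
      rw [h6]
      exact Submodule.sum_mem _ fun b _ => Submodule.smul_mem _ _
        (Submodule.subset_span ⟨b, rfl⟩)

/-- change of basis -/
theorem basis_change {σ : Type} {N : ℕ} (h : Fin N → MvPolynomial σ k)
    (g : Matrix (Fin N) (Fin N) k) (hg : g.det ≠ 0) (hli : LinearIndependent k h) :
    LinearIndependent k (fun a => ∑ b, g a b • h b) ∧
      Submodule.span k (Set.range (fun a => ∑ b, g a b • h b)) =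
        Submodule.span k (Set.range h) := by
  classical
  constructor
  · rw [Fintype.linearIndependent_iff] at hli ⊢
    intro γ hγ
    have h1 : ∑ b, (∑ a, γ a * g a b) • h b = 0 := by
      rw [← hγ]
      simp only [Finset.smul_sum, Finset.sum_smul, smul_smul]
      rw [Finset.sum_comm]
    have h2 := hli _ h1
    have h3 : Matrix.vecMul γ g = 0 := by
      ext b
      exact h2 b
    have h4 := Matrix.eq_zero_of_vecMul_eq_zero hg h3
    intro i
    rw [h4]
    rfl
  · apply le_antisymm
    · rw [Submodule.span_le]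
      rintro _ ⟨a, rfl⟩
      exact Submodule.sum_mem _ fun b _ => Submodule.smul_mem _ _
        (Submodule.subset_span ⟨b, rfl⟩)
    · rw [Submodule.span_le]
      rintro _ ⟨b, rfl⟩
      have hu : IsUnit g.det := isUnit_iff_ne_zero.2 hg
      have h5 : h b = ∑ a, g⁻¹ b a • ∑ c, g a c • h c := by
        simp only [Finset.smul_sum, smul_smul]
        rw [Finset.sum_comm]
        simp only [← Finset.sum_smul]
        have h6 : ∀ c, ∑ a, g⁻¹ b a * g a c = (1 : Matrix (Fin N) (Fin N) k) b c := by
          intro c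
          rw [← Matrix.nonsing_inv_mul g hu, Matrix.mul_apply]
        simp only [h6, Matrix.one_apply, ite_smul, one_smul, zero_smul]
        simp
      rw [h5]
      exact Submodule.sum_mem _ fun a _ => Submodule.smul_mem _ _
        (Submodule.subset_span ⟨a, rfl⟩)

lemma subset_zclosure {n : ℕ} (S : Set (ℙ k (Fin (n + 1) → k))) : S ⊆ zclosure S :=
  fun s hs _ _ _ hF => hF s hs

/-- the point with homogeneous coordinates `g (h(x))` on the image -/
theorem mem_image {σ : Type} {n : ℕ} (h : Fin (n + 1) → MvPolynomial σ k)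
    (g : Matrix (Fin (n + 1)) (Fin (n + 1)) k) (hg : g.det ≠ 0) (x : σ → k)
    (hx : (fun b => eval x (h b)) ≠ 0) (L : Submodule k (Fin (n + 1) → k))
    (hL : g.mulVec (fun b => eval x (h b)) ∈ L) :
    ∃ y ∈ zclosure (image (fun a => ∑ b, g a b • h b)), y.submodule ≤ L := by
  have he : (fun a => eval x (∑ b, g a b • h b)) = g.mulVec (fun b => eval x (h b)) := by
    ext a
    simp [Matrix.mulVec, dotProduct, smul_eval]
  have hne : (fun a => eval x (∑ b, g a b • h b)) ≠ 0 := by
    rw [he]
    intro h0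
    exact hx (Matrix.eq_zero_of_mulVec_eq_zero hg h0)
  refine ⟨Projectivization.mk k _ hne, subset_zclosure _ ⟨x, hne, rfl⟩, ?_⟩
  rw [Projectivization.submodule_mk, Submodule.span_singleton_le_iff_mem, he]
  exact hL

/-- reformulation of strong interpolation -/
theorem strong_of {n D c : ℕ} (hn : n = c + 2) (H : Set (Set (ℙ k (Fin (n + 1) → k))))
    (hfam : ∀ (m : ℕ) (lam : Fin m → ℕ), (∀ i, lam i ≤ c) → ∑ i, lam i = D →
      ∃ P : MvPolynomial ((Σ i : Fin m, Fin (c - lam i + 1)) × Fin (n + 1)) k, P ≠ 0 ∧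
        ∀ v : (Σ i : Fin m, Fin (c - lam i + 1)) → Fin (n + 1) → k,
          eval (fun p => v p.1 p.2) P ≠ 0 → ∃ Y ∈ H, ∀ i, ∃ y ∈ Y,
            y.submodule ≤ Submodule.span k (Set.range fun j => v ⟨i, j⟩)) :
    StrongInterpolation D H := by
  subst hn
  intro m lam hlam hsum
  obtain ⟨P, hP, h⟩ := hfam m lam (fun i => (hlam i).2) hsum
  refine ⟨P, hP, fun v _ hv => ?_⟩
  exact h (fun p => v p.1 p.2) hv

end Pool.Agent.W507.DelPezzo
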