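import Mathlib
import Pool.Agent.W507.Geo
import Pool.Agent.W507.Fam

/-!
# Cubic forms in three variables through given points
-/

set_option autoImplicit false

namespace Pool.Agent.W507.DelPezzo

open MvPolynomial
open scoped LinearAlgebra.Projectivization

variable {k : Type*} [Field k]

/-- the exponent vector of a monomial of degree three -/
noncomputable def mon3 (e : ℕ × ℕ) : Fin 3 →₀ ℕ :=
  Finsupp.equivFunOnFinite.symm ![e.1, e.2, 3 - e.1 - e.2]

lemma mon3_inj {K : ℕ} {ex : Fin K → ℕ × ℕ} (h : Function.Injective ex) :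
    Function.Injective (fun j => mon3 (ex j)) := by
  intro i j hij
  apply h
  have h1 : (![(ex i).1, (ex i).2, 3 - (ex i).1 - (ex i).2] : Fin 3 → ℕ) =
      ![(ex j).1, (ex j).2, 3 - (ex j).1 - (ex j).2] :=
    Finsupp.equivFunOnFinite.symm.injective hij
  have h2 := congrFun h1 0
  have h3 := congrFun h1 1
  exact Prod.ext h2 h3

lemma eval_mon3 (x : Fin 3 → k) (e : ℕ × ℕ) (c : k) :
    eval x (monomial (mon3 e) c) = c * (x 0 ^ e.1 * x 1 ^ e.2 * x 2 ^ (3 - e.1 - e.2)) := by
  rw [eval_monomial, Finsupp.prod_fintype _ _ (fun i => pow_zero _), Fin.prod_univ_three]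
  rfl

lemma eval_sum_mon3 {K : ℕ} (x : Fin 3 → k) (ex : Fin K → ℕ × ℕ) (c : Fin K → k) :
    eval x (∑ j, monomial (mon3 (ex j)) (c j)) =
      ∑ j, c j * (x 0 ^ (ex j).1 * x 1 ^ (ex j).2 * x 2 ^ (3 - (ex j).1 - (ex j).2)) := by
  rw [map_sum]
  exact Finset.sum_congr rfl fun j _ => eval_mon3 _ _ _

lemma mon3_eq {d : Fin 3 →₀ ℕ} (hd : d.degree = 3) : mon3 (d 0, d 1) = d := by
  have h1 : d 0 + d 1 + d 2 = 3 := by
    rw [Finsupp.degree_eq_sum, Fin.sum_univ_three] at hd
    exact hd
  ext i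
  fin_cases i
  · rfl
  · rfl
  · change 3 - d 0 - d 1 = d 2
    omega

lemma hom3_mon3 {e : ℕ × ℕ} (he : e.1 + e.2 ≤ 3) (c : k) :
    (monomial (mon3 e) c).IsHomogeneous 3 := by
  apply isHomogeneous_monomial
  rw [Finsupp.degree_eq_sum, Fin.sum_univ_three]
  change e.1 + e.2 + (3 - e.1 - e.2) = 3
  omega

/-- the support of a cubic form without certain monomials -/
lemma cubic_support {K : ℕ} {ex : Fin K → ℕ × ℕ} (B : List (ℕ × ℕ))
    (hcov : ∀ i j : Fin 4, (i : ℕ) + j ≤ 3 → (∃ l, ex l = ((i : ℕ), (j : ℕ))) ∨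
      ((i : ℕ), (j : ℕ)) ∈ B)
    (F : MvPolynomial (Fin 3) k) (hF : F.IsHomogeneous 3)
    (hB : ∀ e ∈ B, coeff (mon3 e) F = 0) (d : Fin 3 →₀ ℕ) (hd : coeff d F ≠ 0) :
    ∃ j, mon3 (ex j) = d := by
  have h1 : d.degree = 3 := by
    rw [Finsupp.degree_eq_weight_one]
    exact hF hd
  have h2 := mon3_eq h1
  have h3 : d 0 + d 1 ≤ 3 := by
    rw [Finsupp.degree_eq_sum, Fin.sum_univ_three] at h1
    omega
  rcases hcov ⟨d 0, by omega⟩ ⟨d 1, by omega⟩ h3 with ⟨l, hl⟩ | h
  · exact ⟨l, by rw [hl]; exact h2⟩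
  · exfalso
    apply hd
    rw [← h2]
    exact hB _ h

/-- the value of a form at a coordinate point -/
lemma eval_coord {n e : ℕ} (F : MvPolynomial (Fin n) k) (hF : F.IsHomogeneous e) (i : Fin n) :
    eval (Pi.single i 1) F = coeff (Finsupp.single i e) F := by
  classical
  rw [eval_eq']
  rw [Finset.sum_eq_single (Finsupp.single i e)]
  · rw [Finset.prod_eq_one, mul_one]
    intro j _
    by_cases hj : j = i
    · subst hj
      simp
    · rw [Finsupp.single_eq_of_ne hj, pow_zero]
  · intro d hd hne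
    have h1 : d.degree = e := by
      rw [Finsupp.degree_eq_weight_one]
      exact hF (mem_support_iff.1 hd)
    have h2 : ∃ j, j ≠ i ∧ d j ≠ 0 := by
      by_contra hcon
      push Not at hcon
      apply hne
      ext j
      by_cases hj : j = i
      · subst hj
        rw [Finsupp.single_eq_same, ← h1, Finsupp.degree_eq_sum]
        rw [Finset.sum_eq_single j]
        · intro l _ hl
          exact hcon l hl
        · simp
      · rw [Finsupp.single_eq_of_ne hj]
        exact hcon j hj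
    obtain ⟨j, hj, hdj⟩ := h2
    rw [Finset.prod_eq_zero (Finset.mem_univ j), mul_zero]
    rw [Pi.single_eq_of_ne hj, zero_pow hdj]
  · intro h
    rw [notMem_support_iff.1 h, zero_mul]

lemma pt0 : (![1, 0, 0] : Fin 3 → k) = Pi.single 0 1 := by
  ext i; fin_cases i <;> simp

lemma pt1 : (![0, 1, 0] : Fin 3 → k) = Pi.single 1 1 := by
  ext i; fin_cases i <;> simp

lemma pt2 : (![0, 0, 1] : Fin 3 → k) = Pi.single 2 1 := by
  ext i; fin_cases i <;> simp

lemma mon3_30 : mon3 (3, 0) = Finsupp.single 0 3 := by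
  ext i; fin_cases i <;> simp [mon3]

lemma mon3_03 : mon3 (0, 3) = Finsupp.single 1 3 := by
  ext i; fin_cases i <;> simp [mon3]

lemma mon3_00 : mon3 (0, 0) = Finsupp.single 2 3 := by
  ext i; fin_cases i <;> simp [mon3]

lemma li3_of_det {u v w : Fin 3 → k} (h : Matrix.det (Matrix.of ![u, v, w]) ≠ 0) :
    LinearIndependent k ![u, v, w] :=
  Matrix.linearIndependent_rows_of_det_ne_zero h

/-- pairs are independent if all triples are -/
lemma two_of_three {r : ℕ} (hr : 3 ≤ r) (p : Fin r → Fin 3 → k)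
    (h3 : ∀ i j l, i < j → j < l → LinearIndependent k ![p i, p j, p l]) (i j : Fin r)
    (hij : i < j) : LinearIndependent k ![p i, p j] := by
  obtain ⟨l, hli, hlj⟩ : ∃ l : Fin r, l ≠ i ∧ l ≠ j := by
    by_contra hcon
    push Not at hcon
    have h0 := hcon ⟨0, by omega⟩
    have h1 := hcon ⟨1, by omega⟩
    have h2 := hcon ⟨2, by omega⟩
    have e0 := fun h : (⟨0, by omega⟩ : Fin r) ≠ i => congrArg Fin.val (h0 h)
    have e1 := fun h : (⟨1, by omega⟩ : Fin r) ≠ i => congrArg Fin.val (h1 h)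
    have e2 := fun h : (⟨2, by omega⟩ : Fin r) ≠ i => congrArg Fin.val (h2 h)
    simp only [ne_eq, Fin.ext_iff] at e0 e1 e2
    omega
  rcases lt_trichotomy l i with h | h | h
  · have := (h3 l i j h hij).comp ![1, 2] (by decide)
    convert this using 1
    ext a; fin_cases a <;> rfl
  · exact absurd h hli
  · rcases lt_trichotomy l j with h' | h' | h'
    · have := (h3 i l j h h').comp ![0, 2] (by decide)
      convert this using 1
      ext a; fin_cases a <;> rfl
    · exact absurd h' hlj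
    · have := (h3 i j l hij h').comp ![0, 1] (by decide)
      convert this using 1
      ext a; fin_cases a <;> rfl

/-- The last step: families of cubic forms give del Pezzo surfaces. -/
theorem plane_meets {r n K μ : ℕ} (ex : Fin K → ℕ × ℕ)
    (A : Fin (n + 1) → Fin K → MvPolynomial (Fin μ) k) (m : Fin μ → k)
    (p : Fin r → Fin 3 → k)
    (hspan : LinearIndependent k (fam (fun j => mon3 (ex j)) (fun b j => eval m (A b j))) ∧
      Submodule.span k (Set.range (fam (fun j => mon3 (ex j)) (fun b j => eval m (A b j)))) =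
        cubicsThrough p)
    (g : Matrix (Fin (n + 1)) (Fin (n + 1)) k) (hg : g.det ≠ 0) {ι : Type*}
    (L : ι → Submodule k (Fin (n + 1) → k))
    (hL : ∀ i, ∃ u : Fin 2 → k, val (PhiOf A ex) m u ≠ 0 ∧
      g.mulVec (val (PhiOf A ex) m u) ∈ L i) :
    ∃ f : Fin (n + 1) → MvPolynomial (Fin 3) k, LinearIndependent k f ∧
      Submodule.span k (Set.range f) = cubicsThrough p ∧
      ∀ i, ∃ y ∈ zclosure (image f), y.submodule ≤ L i := by
  obtain ⟨hli, hsp⟩ := hspan
  obtain ⟨h1, h2⟩ := basis_change _ g hg hli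
  refine ⟨_, h1, h2.trans hsp, fun i => ?_⟩
  obtain ⟨u, hu, huL⟩ := hL i
  have he : (fun b => eval ![u 0, u 1, 1]
      (fam (fun j => mon3 (ex j)) (fun b j => eval m (A b j)) b)) = val (PhiOf A ex) m u := by
    ext b
    rw [val_PhiOf, fam, map_sum]
    refine Finset.sum_congr rfl fun j _ => ?_
    rw [eval_mon3]
    simp
  exact mem_image _ g hg ![u 0, u 1, 1] (by rw [he]; exact hu) (L i) (by rw [he]; exact huL)

end Pool.Agent.W507.DelPezzo
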