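import Mathlib
import Pool.Agent.W507.Plane

/-!
# Strong interpolation for blow-ups of the plane from a certificate; the toric cases
-/

set_option autoImplicit false

namespace Pool.Agent.W507.DelPezzo

open MvPolynomial
open scoped LinearAlgebra.Projectivization

variable {k : Type*} [Field k]

theorem plane_strong [CharZero k] [IsAlgClosed k] (r : Fin 7) {c q Q D R p μ K : ℕ}
    [Fact (1 < p)]
    (A : Fin (9 - r + 1) → Fin K → MvPolynomial (Fin μ) k) (ex : Fin K → ℕ × ℕ)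
    (m0 : Fin μ → k) (G0 : MvPolynomial (Fin μ) k) (hG0 : eval m0 G0 ≠ 0)
    (a0 : Fin (9 - r + 1) → Fin K → ℤ) (ha0 : ∀ b j, eval m0 (A b j) = (a0 b j : k))
    (a1 : Fin μ → Fin (9 - r + 1) → Fin K → ℤ)
    (ha1 : ∀ s b j, eval m0 (pderiv s (A b j)) = (a1 s b j : k))
    (hN : 9 - (r : ℕ) = c + 2) (hc : 0 < c) (hQ : Q ≤ q + 1) (hqQ : q ≤ Q) (hqD : q * c ≤ D)
    (hDQ : D ≤ Q * c) (hR : R = D + 3 * Q)
    (xys pts : List (ℕ × ℕ)) (xs : List ℕ) (hpts : pts.length = Q) (hxs : xs.length = R)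
    (hchk : Cert.chkAll p (9 - r + 1) μ R pts xs 0 = true) (hok : ptsOK p ex a0 a1 xys pts Q)
    (ys : Fin 3 → ℕ) (htri : triOK p ex a0 (xys.getD 0 (0, 0)) ys)
    (hgeo : ∀ m : Fin μ → k, eval m G0 ≠ 0 → ∃ p : Fin r → Fin 3 → k, InGeneralPosition p ∧
      LinearIndependent k (fam (fun j => mon3 (ex j)) (fun b j => eval m (A b j))) ∧
      Submodule.span k (Set.range (fam (fun j => mon3 (ex j)) (fun b j => eval m (A b j)))) =
        cubicsThrough p) :
    StrongInterpolation D {Y | IsDelPezzo (k := k) (Kind.plane r) Y} := by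
  refine strong_of (c := c) hN _ fun m lam hlam hsum => ?_
  obtain ⟨P, hP, h⟩ := fam_general A ex m0 G0 hG0 a0 ha0 a1 ha1 (by omega) hc hQ hqQ hqD hDQ
    hR xys pts xs hpts hxs hchk hok ys htri m lam hlam hsum
  refine ⟨P, hP, fun v hv => ?_⟩
  obtain ⟨g, mm, hg, hmm, hu⟩ := h v hv
  obtain ⟨pp, hgp, hsp⟩ := hgeo mm hmm
  obtain ⟨f, hf1, hf2, hf3⟩ := plane_meets ex A mm pp hsp g hg
    (fun i => Submodule.span k (Set.range fun j => v ⟨i, j⟩)) hu
  exact ⟨zclosure (image f), ⟨pp, hgp, f, hf1, hf2, rfl⟩, hf3⟩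

/-- the identity matrix as a family without moduli -/
noncomputable def idA (N : ℕ) (b j : Fin N) : MvPolynomial (Fin 0) k := if b = j then 1 else 0

lemma eval_idA {N : ℕ} (m : Fin 0 → k) (b j : Fin N) :
    eval m (idA N b j) = if b = j then 1 else 0 := by
  unfold idA
  split_ifs <;> simp

theorem toric_span {r N : ℕ} (ex : Fin N → ℕ × ℕ) (hinj : Function.Injective ex)
    (B : List (ℕ × ℕ))
    (hcov : ∀ i j : Fin 4, (i : ℕ) + j ≤ 3 → (∃ l, ex l = ((i : ℕ), (j : ℕ))) ∨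
      ((i : ℕ), (j : ℕ)) ∈ B)
    (hdeg : ∀ j, (ex j).1 + (ex j).2 ≤ 3) (p : Fin r → Fin 3 → k)
    (hB : ∀ F : MvPolynomial (Fin 3) k, F.IsHomogeneous 3 → (∀ i, eval (p i) F = 0) →
      ∀ e ∈ B, coeff (mon3 e) F = 0)
    (hp : ∀ i j, p i 0 ^ (ex j).1 * p i 1 ^ (ex j).2 * p i 2 ^ (3 - (ex j).1 - (ex j).2) = 0)
    (m : Fin 0 → k) :
    LinearIndependent k (fam (fun j => mon3 (ex j)) (fun b j => eval m (idA N b j))) ∧
      Submodule.span k (Set.range (fam (fun j => mon3 (ex j))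
        (fun b j => eval m (idA N b j)))) = cubicsThrough p := by
  refine span_fam _ (mon3_inj hinj) _ _ ?_ ?_ ?_ ?_
  · intro F hF d hd
    exact cubic_support B hcov F hF.1 (hB F hF.1 hF.2) d hd
  · intro b
    refine ⟨?_, fun i => ?_⟩
    · exact IsHomogeneous.sum _ _ _ fun j _ => hom3_mon3 (hdeg j) _
    · rw [fam, map_sum]
      refine Finset.sum_eq_zero fun j _ => ?_
      rw [eval_mon3, hp, mul_zero]
  · intro c _
    refine ⟨c, fun j => ?_⟩
    simp [eval_idA]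
  · intro γ h
    ext j
    have := h j
    simpa [eval_idA] using this

lemma coeff_of_vanish {r : ℕ} (p : Fin r → Fin 3 → k) (F : MvPolynomial (Fin 3) k)
    (hF : F.IsHomogeneous 3) (hv : ∀ i, eval (p i) F = 0) (i : Fin r) (l : Fin 3)
    (hi : p i = Pi.single l 1) : coeff (Finsupp.single l 3) F = 0 := by
  rw [← eval_coord F hF l, ← hi]
  exact hv i

end Pool.Agent.W507.DelPezzo
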