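import Mathlib
import Pool.Agent.W507.Toric
import Pool.Agent.W507.C4

/-!
# Strong interpolation for del Pezzo surfaces of degree four
-/

set_option autoImplicit false

namespace Pool.Agent.W507.DelPezzo

open MvPolynomial
open scoped LinearAlgebra.Projectivization

variable {k : Type*} [Field k]

/-- five points -/
def pp5 (a b : k) : Fin 5 → Fin 3 → k :=
  ![![1, 0, 0], ![0, 1, 0], ![0, 0, 1], ![1, 1, 1], ![a, b, 1]]

/-- the open condition -/
def G5 {R : Type*} [CommRing R] (a b : R) : R := a * b * (a - 1) * (b - 1) * (a - b)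

lemma gp5 {a b : k} (h : G5 a b ≠ 0) : InGeneralPosition (pp5 a b) := by
  unfold G5 at h
  simp only [mul_ne_zero_iff, ne_eq] at h
  obtain ⟨⟨⟨⟨ha, hb⟩, ha1⟩, hb1⟩, hab⟩ := h
  have h3 : ∀ i j l : Fin 5, i < j → j < l →
      LinearIndependent k ![pp5 a b i, pp5 a b j, pp5 a b l] := by
    intro i j l hij hjl
    apply li3_of_det
    rw [Matrix.det_fin_three]
    fin_cases i <;> fin_cases j <;>
      first
      | exact absurd hij (by decide)
      | (fin_cases l <;>
          first
          | exact absurd hjl (by decide)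
          | (simp only [pp5, Fin.zero_eta, Fin.mk_one, Fin.reduceFinMk, Matrix.of_apply, Matrix.cons_val]
             intro h
             first
             | exact one_ne_zero (α := k) (by linear_combination h)
             | exact one_ne_zero (α := k) (by linear_combination -h)
             | exact ha (by linear_combination h)
             | exact ha (by linear_combination -h)
             | exact hb (by linear_combination h)
             | exact hb (by linear_combination -h)
             | exact ha1 (by linear_combination h)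
             | exact ha1 (by linear_combination -h)
             | exact hb1 (by linear_combination h)
             | exact hb1 (by linear_combination -h)
             | exact hab (by linear_combination h)
             | exact hab (by linear_combination -h)))
  refine ⟨?_, two_of_three (by norm_num) _ h3, h3, fun h => by omega⟩
  intro i
  fin_cases i <;> simp [pp5]

/-- the values of the monomials at the last point minus the value of `xyz` -/
def HH {R : Type*} [CommRing R] (a b : R) : Fin 6 → R :=
  ![b - a * b, b ^ 2 - a * b, a - a * b, a * b ^ 2 - a * b, a ^ 2 - a * b, a ^ 2 * b - a * b]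

/-- the coefficient matrix of the cubic forms -/
def A5 {R : Type*} [CommRing R] (a b : R) : Fin 5 → Fin 7 → R :=
  ![![HH a b 5, 0, 0, 0, 0, -HH a b 0, HH a b 0 - HH a b 5],
    ![0, HH a b 5, 0, 0, 0, -HH a b 1, HH a b 1 - HH a b 5],
    ![0, 0, HH a b 5, 0, 0, -HH a b 2, HH a b 2 - HH a b 5],
    ![0, 0, 0, HH a b 5, 0, -HH a b 3, HH a b 3 - HH a b 5],
    ![0, 0, 0, 0, HH a b 5, -HH a b 4, HH a b 4 - HH a b 5]]

lemma eval_A5 (m : Fin 2 → k) (b : Fin 5) (j : Fin 7) :
    eval m (A5 (X 0) (X 1) b j) = A5 (m 0) (m 1) b j := by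
  fin_cases b <;> fin_cases j <;> simp [A5, HH]

theorem span5 (m : Fin 2 → k) (hm : G5 (m 0) (m 1) ≠ 0) :
    LinearIndependent k (fam (fun j => mon3 (C4.ex j))
      (fun b j => eval m (A5 (X 0) (X 1) b j))) ∧
      Submodule.span k (Set.range (fam (fun j => mon3 (C4.ex j))
        (fun b j => eval m (A5 (X 0) (X 1) b j)))) = cubicsThrough (pp5 (m 0) (m 1)) := by
  have hdeg : ∀ j, (C4.ex j).1 + (C4.ex j).2 ≤ 3 := by decide
  simp only [eval_A5]
  generalize m 0 = a at *
  generalize m 1 = b at *
  have hH5 : HH a b 5 ≠ 0 := by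
    unfold G5 at hm
    simp only [mul_ne_zero_iff, ne_eq] at hm
    obtain ⟨⟨⟨⟨ha, hb⟩, ha1⟩, hb1⟩, hab⟩ := hm
    have : HH a b 5 = a * b * (a - 1) := by
      simp only [HH, Matrix.cons_val]
      ring
    rw [this]
    exact mul_ne_zero (mul_ne_zero ha hb) ha1
  refine span_fam _ (mon3_inj (by decide)) _ _ ?_ ?_ ?_ ?_
  · intro F hF d hd
    refine cubic_support [(3, 0), (0, 3), (0, 0)] (by decide) F hF.1 ?_ d hd
    intro e he
    fin_cases he
    · rw [mon3_30]; exact coeff_of_vanish _ F hF.1 hF.2 0 0 pt0
    · rw [mon3_03]; exact coeff_of_vanish _ F hF.1 hF.2 1 1 pt1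
    · rw [mon3_00]; exact coeff_of_vanish _ F hF.1 hF.2 2 2 pt2
  · intro l
    refine ⟨IsHomogeneous.sum _ _ _ fun j _ => hom3_mon3 (hdeg j) _, fun i => ?_⟩
    rw [fam, eval_sum_mon3, Fin.sum_univ_seven]
    fin_cases i <;> fin_cases l <;> simp [pp5, C4.ex, A5, HH] <;> ring
  · intro c hc
    have h1 := hc.2 3
    have h2 := hc.2 4
    rw [eval_sum_mon3, Fin.sum_univ_seven] at h1 h2
    simp [pp5, C4.ex] at h1 h2
    have h3 : c 0 * HH a b 0 + c 1 * HH a b 1 + c 2 * HH a b 2 + c 3 * HH a b 3 +
        c 4 * HH a b 4 + c 5 * HH a b 5 = 0 := by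
      simp only [HH, Matrix.cons_val]
      linear_combination h2 - a * b * h1
    refine ⟨fun l => c l.castSucc.castSucc / HH a b 5, fun j => ?_⟩
    rw [Fin.sum_univ_five]
    simp only [A5]
    generalize HH a b 0 = H0 at *
    generalize HH a b 1 = H1 at *
    generalize HH a b 2 = H2 at *
    generalize HH a b 3 = H3 at *
    generalize HH a b 4 = H4 at *
    generalize HH a b 5 = H5 at *
    fin_cases j <;> simp [hH5]
    · field_simp
      linear_combination h3
    · field_simp
      linear_combination H5 * h1 - h3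
  · intro γ h
    ext j
    have := h j.castSucc.castSucc
    fin_cases j <;> simpa [A5, Fin.sum_univ_five, hH5] using this

theorem strong5 [CharZero k] [IsAlgClosed k] :
    StrongInterpolation 26 {Y | IsDelPezzo (k := k) (Kind.plane 5) Y} := by
  have : Fact (1 < 31) := ⟨by norm_num⟩
  refine plane_strong (c := 2) (q := 13) (Q := 13) (D := 26) (R := 65) (p := 31) 5
    (A5 (X 0) (X 1)) C4.ex
    ![2, 3] (G5 (X 0) (X 1)) ?_ C4.a0 ?_ C4.a1 ?_ rfl (by norm_num) (by norm_num) (by norm_num)
    (by norm_num) (by norm_num) (by norm_num) C4.xys C4.pts C4.xs C4.hpts C4.hxs C4.hchk C4.hok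
    C4.ys C4.htri fun m hm => ⟨pp5 (m 0) (m 1), gp5 ?_, span5 m ?_⟩
  · simp [G5]
    norm_num
  · intro b j
    change Fin 5 at b
    fin_cases b <;> fin_cases j <;> simp [A5, HH, C4.a0] <;> norm_num
  · intro s b j
    change Fin 5 at b
    fin_cases s <;> fin_cases b <;> fin_cases j <;>
      simp [A5, HH, C4.a1, pderiv_mul, pderiv_pow, pderiv_X] <;> norm_num
  · simpa [G5] using hm
  · simpa [G5] using hm

end Pool.Agent.W507.DelPezzo
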