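import Mathlib
import Pool.Agent.W507.S4
import Pool.Agent.W507.C3

/-!
# Strong interpolation for cubic surfaces
-/

set_option autoImplicit false

namespace Pool.Agent.W507.DelPezzo

open MvPolynomial
open scoped LinearAlgebra.Projectivization

variable {k : Type*} [Field k]

/-- six points -/
def pp6 (a b c d : k) : Fin 6 → Fin 3 → k :=
  ![![1, 0, 0], ![0, 1, 0], ![0, 0, 1], ![1, 1, 1], ![a, b, 1], ![c, d, 1]]

/-- the condition that the six points are not on a conic -/
def conicDet {R : Type*} [CommRing R] (a b c d : R) : R :=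
  a * c * d - a * b * c - b * c * d + a * b * d + b * c - a * d

/-- the open condition -/
def G6 {R : Type*} [CommRing R] (a b c d : R) : R :=
  G5 a b * G5 c d * ((a - c) * (b - d) * (a * d - b * c) *
    ((a - 1) * (d - 1) - (b - 1) * (c - 1)) * conicDet a b c d)

lemma six_conic {a b c d : k} (h : conicDet a b c d ≠ 0) (F : MvPolynomial (Fin 3) k)
    (hF : F.IsHomogeneous 2) (hv : ∀ i, eval (pp6 a b c d i) F = 0) : F = 0 := by
  classical
  have e0 : coeff (Finsupp.single 0 2) F = 0 := by
    rw [← eval_coord F hF 0, ← pt0]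
    exact hv 0
  have e1 : coeff (Finsupp.single 1 2) F = 0 := by
    rw [← eval_coord F hF 1, ← pt1]
    exact hv 1
  have e2 : coeff (Finsupp.single 2 2) F = 0 := by
    rw [← eval_coord F hF 2, ← pt2]
    exact hv 2
  let E : Fin 3 → (Fin 3 →₀ ℕ) := ![Finsupp.equivFunOnFinite.symm ![1, 1, 0],
    Finsupp.equivFunOnFinite.symm ![1, 0, 1], Finsupp.equivFunOnFinite.symm ![0, 1, 1]]
  have hE : Function.Injective E := by
    have h0 : E 0 = Finsupp.equivFunOnFinite.symm ![1, 1, 0] := rfl
    have h1 : E 1 = Finsupp.equivFunOnFinite.symm ![1, 0, 1] := rfl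
    have h2 : E 2 = Finsupp.equivFunOnFinite.symm ![0, 1, 1] := rfl
    intro i j hij
    fin_cases i <;> fin_cases j <;> first | rfl | (exfalso; revert hij; simp [h0, h1, h2])
  have hsum := eq_sum_monomial E hE F ?_
  · have key : ∀ x : Fin 3 → k, eval x F = coeff (E 0) F * (x 0 * x 1) +
        coeff (E 1) F * (x 0 * x 2) + coeff (E 2) F * (x 1 * x 2) := by
      intro x
      conv_lhs => rw [hsum]
      rw [Fin.sum_univ_three, map_add, map_add, eval_monomial, eval_monomial, eval_monomial,
        Finsupp.prod_fintype _ _ (fun i => pow_zero _),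
        Finsupp.prod_fintype _ _ (fun i => pow_zero _),
        Finsupp.prod_fintype _ _ (fun i => pow_zero _), Fin.prod_univ_three,
        Fin.prod_univ_three, Fin.prod_univ_three]
      simp [E]
    have h3 := hv 3
    have h4 := hv 4
    have h5 := hv 5
    rw [key] at h3 h4 h5
    simp only [pp6, Matrix.cons_val] at h3 h4 h5
    have hα : coeff (E 0) F = 0 := by
      have : coeff (E 0) F * conicDet a b c d = 0 := by
        unfold conicDet
        linear_combination -((a * d - b * c) * h3 + (c - d) * h4 + (b - a) * h5)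
      exact (mul_eq_zero.1 this).resolve_right h
    have hβ : coeff (E 1) F = 0 := by
      have : coeff (E 1) F * conicDet a b c d = 0 := by
        unfold conicDet
        linear_combination -((-(a * b * d - b * (c * d))) * h3 + (d - c * d) * h4 +
          (a * b - b) * h5)
      exact (mul_eq_zero.1 this).resolve_right h
    have hγ : coeff (E 2) F = 0 := by
      have : coeff (E 2) F * conicDet a b c d = 0 := by
        unfold conicDet
        linear_combination -((a * b * c - a * (c * d)) * h3 + (c * d - c) * h4 +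
          (a - a * b) * h5)
      exact (mul_eq_zero.1 this).resolve_right h
    rw [hsum, Fin.sum_univ_three, hα, hβ, hγ]
    simp
  · intro t ht
    have h1 : t.degree = 2 := by
      rw [Finsupp.degree_eq_weight_one]
      exact hF ht
    rw [Finsupp.degree_eq_sum, Fin.sum_univ_three] at h1
    have n0 : ¬ (t 0 = 2 ∧ t 1 = 0 ∧ t 2 = 0) := by
      rintro ⟨h0, h1, h2⟩
      apply ht
      have : t = Finsupp.single 0 2 := by
        ext i; fin_cases i <;> simp [h0, h1, h2]
      rw [this, e0]
    have n1 : ¬ (t 0 = 0 ∧ t 1 = 2 ∧ t 2 = 0) := by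
      rintro ⟨h0, h1, h2⟩
      apply ht
      have : t = Finsupp.single 1 2 := by
        ext i; fin_cases i <;> simp [h0, h1, h2]
      rw [this, e1]
    have n2 : ¬ (t 0 = 0 ∧ t 1 = 0 ∧ t 2 = 2) := by
      rintro ⟨h0, h1, h2⟩
      apply ht
      have : t = Finsupp.single 2 2 := by
        ext i; fin_cases i <;> simp [h0, h1, h2]
      rw [this, e2]
    have hh : (t 0 = 1 ∧ t 1 = 1 ∧ t 2 = 0) ∨ (t 0 = 1 ∧ t 1 = 0 ∧ t 2 = 1) ∨
        (t 0 = 0 ∧ t 1 = 1 ∧ t 2 = 1) := by omega
    rcases hh with ⟨h0, h1, h2⟩ | ⟨h0, h1, h2⟩ | ⟨h0, h1, h2⟩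
    · refine ⟨0, ?_⟩
      ext i; fin_cases i <;> simp [E, h0, h1, h2]
    · refine ⟨1, ?_⟩
      ext i; fin_cases i <;> simp [E, h0, h1, h2]
    · refine ⟨2, ?_⟩
      ext i; fin_cases i <;> simp [E, h0, h1, h2]

lemma gp6 {a b c d : k} (h : G6 a b c d ≠ 0) : InGeneralPosition (pp6 a b c d) := by
  unfold G6 G5 at h
  simp only [mul_ne_zero_iff, ne_eq] at h
  obtain ⟨⟨⟨⟨⟨⟨ha, hb⟩, ha1⟩, hb1⟩, hab⟩, ⟨⟨⟨hc, hd⟩, hc1⟩, hd1⟩, hcd⟩,
    ⟨⟨⟨hac, hbd⟩, hadbc⟩, h345⟩, hcon⟩ := h
  have h3 : ∀ i j l : Fin 6, i < j → j < l →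
      LinearIndependent k ![pp6 a b c d i, pp6 a b c d j, pp6 a b c d l] := by
    intro i j l hij hjl
    apply li3_of_det
    rw [Matrix.det_fin_three]
    fin_cases i <;> fin_cases j <;>
      first
      | exact absurd hij (by decide)
      | (fin_cases l <;> first | exact absurd hjl (by decide) | skip)
    all_goals
      simp only [pp6, Fin.zero_eta, Fin.mk_one, Fin.reduceFinMk, Matrix.of_apply, Matrix.cons_val]
      intro h
    · exact one_ne_zero (α := k) (by linear_combination h)
    · exact one_ne_zero (α := k) (by linear_combination h)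
    · exact one_ne_zero (α := k) (by linear_combination h)
    · exact one_ne_zero (α := k) (by linear_combination h)
    · exact one_ne_zero (α := k) (by linear_combination -h)
    · exact hb (by linear_combination -h)
    · exact hd (by linear_combination -h)
    · exact hb1 (by linear_combination -h)
    · exact hd1 (by linear_combination -h)
    · exact hbd (by linear_combination h)
    · exact one_ne_zero (α := k) (by linear_combination h)
    · exact ha (by linear_combination h)
    · exact hc (by linear_combination h)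
    · exact ha1 (by linear_combination h)
    · exact hc1 (by linear_combination h)
    · exact hac (by linear_combination -h)
    · exact hab (by linear_combination -h)
    · exact hcd (by linear_combination -h)
    · exact hadbc (by linear_combination h)
    · exact h345 (by linear_combination h)
  refine ⟨?_, two_of_three (by norm_num) _ h3, h3, fun _ F hF hv => six_conic hcon F hF hv⟩
  intro i
  fin_cases i <;> simp [pp6]

/-- the minors of the two conditions -/
def DD {R : Type*} [CommRing R] (a b c d : R) (i j : Fin 6) : R :=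
  HH a b i * HH c d j - HH a b j * HH c d i

/-- the coefficient matrix of the cubic forms -/
def A6 {R : Type*} [CommRing R] (a b c d : R) : Fin 4 → Fin 7 → R :=
  ![![DD a b c d 4 5, 0, 0, 0, -DD a b c d 0 5, DD a b c d 0 4,
      DD a b c d 0 5 - DD a b c d 4 5 - DD a b c d 0 4],
    ![0, DD a b c d 4 5, 0, 0, -DD a b c d 1 5, DD a b c d 1 4,
      DD a b c d 1 5 - DD a b c d 4 5 - DD a b c d 1 4],
    ![0, 0, DD a b c d 4 5, 0, -DD a b c d 2 5, DD a b c d 2 4,
      DD a b c d 2 5 - DD a b c d 4 5 - DD a b c d 2 4],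
    ![0, 0, 0, DD a b c d 4 5, -DD a b c d 3 5, DD a b c d 3 4,
      DD a b c d 3 5 - DD a b c d 4 5 - DD a b c d 3 4]]

lemma eval_A6 (m : Fin 4 → k) (b : Fin 4) (j : Fin 7) :
    eval m (A6 (X 0) (X 1) (X 2) (X 3) b j) = A6 (m 0) (m 1) (m 2) (m 3) b j := by
  fin_cases b <;> fin_cases j <;> simp [A6, DD, HH]

theorem span6 (m : Fin 4 → k) (hm : G6 (m 0) (m 1) (m 2) (m 3) ≠ 0) :
    LinearIndependent k (fam (fun j => mon3 (C3.ex j))
      (fun b j => eval m (A6 (X 0) (X 1) (X 2) (X 3) b j))) ∧
      Submodule.span k (Set.range (fam (fun j => mon3 (C3.ex j))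
        (fun b j => eval m (A6 (X 0) (X 1) (X 2) (X 3) b j)))) =
          cubicsThrough (pp6 (m 0) (m 1) (m 2) (m 3)) := by
  have hdeg : ∀ j, (C3.ex j).1 + (C3.ex j).2 ≤ 3 := by decide
  simp only [eval_A6]
  generalize m 0 = a at *
  generalize m 1 = b at *
  generalize m 2 = c at *
  generalize m 3 = d at *
  have hD : HH a b 4 * HH c d 5 - HH a b 5 * HH c d 4 ≠ 0 := by
    unfold G6 G5 at hm
    simp only [mul_ne_zero_iff, ne_eq] at hm
    obtain ⟨⟨⟨⟨⟨⟨ha, hb⟩, ha1⟩, hb1⟩, hab⟩, ⟨⟨⟨hc, hd⟩, hc1⟩, hd1⟩, hcd⟩,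
      ⟨⟨⟨hac, hbd⟩, hadbc⟩, h345⟩, hcon⟩ := hm
    have : HH a b 4 * HH c d 5 - HH a b 5 * HH c d 4 = a * c * conicDet a b c d := by
      simp only [HH, Matrix.cons_val, conicDet]
      ring
    rw [this]
    exact mul_ne_zero (mul_ne_zero ha hc) hcon
  refine span_fam _ (mon3_inj (by decide)) _ _ ?_ ?_ ?_ ?_
  · intro F hF e he
    refine cubic_support [(3, 0), (0, 3), (0, 0)] (by decide) F hF.1 ?_ e he
    intro e he
    fin_cases he
    · rw [mon3_30]; exact coeff_of_vanish _ F hF.1 hF.2 0 0 pt0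
    · rw [mon3_03]; exact coeff_of_vanish _ F hF.1 hF.2 1 1 pt1
    · rw [mon3_00]; exact coeff_of_vanish _ F hF.1 hF.2 2 2 pt2
  · intro l
    refine ⟨IsHomogeneous.sum _ _ _ fun j _ => hom3_mon3 (hdeg j) _, fun i => ?_⟩
    rw [fam, eval_sum_mon3, Fin.sum_univ_seven]
    fin_cases i <;> fin_cases l <;> simp [pp6, C3.ex, A6, DD, HH] <;> ring
  · intro e he
    have h1 := he.2 3
    have h2 := he.2 4
    have h3 := he.2 5
    rw [eval_sum_mon3, Fin.sum_univ_seven] at h1 h2 h3
    simp [pp6, C3.ex] at h1 h2 h3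
    have h4 : e 0 * HH a b 0 + e 1 * HH a b 1 + e 2 * HH a b 2 + e 3 * HH a b 3 +
        e 4 * HH a b 4 + e 5 * HH a b 5 = 0 := by
      simp only [HH, Matrix.cons_val]
      linear_combination h2 - a * b * h1
    have h5 : e 0 * HH c d 0 + e 1 * HH c d 1 + e 2 * HH c d 2 + e 3 * HH c d 3 +
        e 4 * HH c d 4 + e 5 * HH c d 5 = 0 := by
      simp only [HH, Matrix.cons_val]
      linear_combination h3 - c * d * h1
    refine ⟨fun l => e l.castSucc.castSucc.castSucc /
      (HH a b 4 * HH c d 5 - HH a b 5 * HH c d 4), fun j => ?_⟩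
    rw [Fin.sum_univ_four]
    simp only [A6, DD]
    generalize HH a b 0 = H0 at *
    generalize HH a b 1 = H1 at *
    generalize HH a b 2 = H2 at *
    generalize HH a b 3 = H3 at *
    generalize HH a b 4 = H4 at *
    generalize HH a b 5 = H5 at *
    generalize HH c d 0 = K0 at *
    generalize HH c d 1 = K1 at *
    generalize HH c d 2 = K2 at *
    generalize HH c d 3 = K3 at *
    generalize HH c d 4 = K4 at *
    generalize HH c d 5 = K5 at *
    fin_cases j <;> simp [hD]
    · field_simp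
      linear_combination K5 * h4 - H5 * h5
    · field_simp
      linear_combination H4 * h5 - K4 * h4
    · field_simp
      linear_combination (H4 * K5 - H5 * K4) * h1 - (K5 * h4 - H5 * h5) - (H4 * h5 - K4 * h4)
  · intro γ h
    ext j
    have := h j.castSucc.castSucc.castSucc
    fin_cases j <;> simpa [A6, DD, Fin.sum_univ_four, hD] using this

theorem strong6pt [CharZero k] [IsAlgClosed k] :
    StrongInterpolation 19 {Y | IsDelPezzo (k := k) (Kind.plane 6) Y} := by
  have : Fact (1 < 31) := ⟨by norm_num⟩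
  refine plane_strong (c := 1) (q := 19) (Q := 19) (D := 19) (R := 76) (p := 31) 6
    (A6 (X 0) (X 1) (X 2) (X 3)) C3.ex
    ![2, 3, -1, 2] (G6 (X 0) (X 1) (X 2) (X 3)) ?_ C3.a0 ?_ C3.a1 ?_ rfl (by norm_num)
    (by norm_num) (by norm_num)
    (by norm_num) (by norm_num) (by norm_num) C3.xys C3.pts C3.xs C3.hpts C3.hxs C3.hchk C3.hok
    C3.ys C3.htri fun m hm => ⟨pp6 (m 0) (m 1) (m 2) (m 3), gp6 ?_, span6 m ?_⟩
  · simp [G6, G5, conicDet]
    norm_num
  · intro b j
    change Fin 4 at b
    fin_cases b <;> fin_cases j <;> simp [A6, DD, HH, C3.a0] <;> norm_num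
  · intro s b j
    change Fin 4 at b
    fin_cases s <;> fin_cases b <;> fin_cases j <;>
      simp [A6, DD, HH, C3.a1, pderiv_X] <;> norm_num
  · simpa [G6, G5, conicDet] using hm
  · simpa [G6, G5, conicDet] using hm

end Pool.Agent.W507.DelPezzo
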