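import Mathlib
import Pool.Agent.W507.Toric
import Pool.Agent.W507.C5

/-!
# Strong interpolation for del Pezzo surfaces of degree five
-/

set_option autoImplicit false

namespace Pool.Agent.W507.DelPezzo

open MvPolynomial
open scoped LinearAlgebra.Projectivization

variable {k : Type*} [Field k]

/-- four points in general position -/
def pp4 : Fin 4 → Fin 3 → k := ![![1, 0, 0], ![0, 1, 0], ![0, 0, 1], ![1, 1, 1]]

lemma gp4 : InGeneralPosition (pp4 : Fin 4 → Fin 3 → k) := by
  have h3 : ∀ i j l : Fin 4, i < j → j < l →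
      LinearIndependent k ![(pp4 : Fin 4 → Fin 3 → k) i, pp4 j, pp4 l] := by
    intro i j l hij hjl
    apply li3_of_det
    rw [Matrix.det_fin_three]
    fin_cases i <;> fin_cases j <;>
      first
      | exact absurd hij (by decide)
      | (fin_cases l <;> first | exact absurd hjl (by decide) | simp [pp4])
  refine ⟨?_, two_of_three (by norm_num) _ h3, h3, fun h => by omega⟩
  intro i
  fin_cases i <;> simp [pp4]

/-- the coefficient matrix of the cubic forms -/
noncomputable def A4 (b : Fin 6) (j : Fin 7) : MvPolynomial (Fin 0) k :=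
  if j = b.castSucc then 1 else if j = 6 then -1 else 0

theorem span4 (m : Fin 0 → k) :
    LinearIndependent k (fam (fun j => mon3 (C5.ex j)) (fun b j => eval m (A4 b j))) ∧
      Submodule.span k (Set.range (fam (fun j => mon3 (C5.ex j))
        (fun b j => eval m (A4 b j)))) = cubicsThrough (pp4 : Fin 4 → Fin 3 → k) := by
  have hdeg : ∀ j, (C5.ex j).1 + (C5.ex j).2 ≤ 3 := by decide
  refine span_fam _ (mon3_inj (by decide)) _ _ ?_ ?_ ?_ ?_
  · intro F hF d hd
    refine cubic_support [(3, 0), (0, 3), (0, 0)] (by decide) F hF.1 ?_ d hd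
    intro e he
    fin_cases he
    · rw [mon3_30]; exact coeff_of_vanish _ F hF.1 hF.2 0 0 pt0
    · rw [mon3_03]; exact coeff_of_vanish _ F hF.1 hF.2 1 1 pt1
    · rw [mon3_00]; exact coeff_of_vanish _ F hF.1 hF.2 2 2 pt2
  · intro b
    refine ⟨IsHomogeneous.sum _ _ _ fun j _ => hom3_mon3 (hdeg j) _, fun i => ?_⟩
    rw [fam, eval_sum_mon3, Fin.sum_univ_seven]
    fin_cases i <;> fin_cases b <;> simp [pp4, C5.ex, A4]
  · intro c hc
    have h1 := hc.2 3
    rw [eval_sum_mon3, Fin.sum_univ_seven] at h1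
    simp [pp4, C5.ex] at h1
    refine ⟨fun b => c b.castSucc, fun j => ?_⟩
    fin_cases j <;> simp [A4, Fin.sum_univ_six]
    linear_combination h1
  · intro γ h
    ext j
    have := h j.castSucc
    fin_cases j <;> simpa [A4, Fin.sum_univ_six] using this

theorem strong4 [CharZero k] [IsAlgClosed k] :
    StrongInterpolation 35 {Y | IsDelPezzo (k := k) (Kind.plane 4) Y} := by
  have : Fact (1 < 31) := ⟨by norm_num⟩
  refine plane_strong (c := 3) (q := 11) (Q := 12) (D := 35) (R := 71) (p := 31) 4 A4 C5.ex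
    0 1 (by simp) C5.a0 ?_ C5.a1 (fun s => s.elim0) rfl (by norm_num) (by norm_num) (by norm_num)
    (by norm_num) (by norm_num) (by norm_num) C5.xys C5.pts C5.xs C5.hpts C5.hxs C5.hchk C5.hok
    C5.ys C5.htri fun m _ => ⟨pp4, gp4, span4 m⟩
  intro b j
  change Fin 6 at b
  fin_cases b <;> fin_cases j <;> simp [A4, C5.a0]

end Pool.Agent.W507.DelPezzo
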