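import Mathlib
import Pool.Agent.W507.Toric
import Pool.Agent.W507.C6

/-!
# Strong interpolation for del Pezzo surfaces of degree six
-/

set_option autoImplicit false

namespace Pool.Agent.W507.DelPezzo

open MvPolynomial
open scoped LinearAlgebra.Projectivization

variable {k : Type*} [Field k]

/-- the coordinate points -/
def pp3 : Fin 3 → Fin 3 → k := ![![1, 0, 0], ![0, 1, 0], ![0, 0, 1]]

lemma gp3 : InGeneralPosition (pp3 : Fin 3 → Fin 3 → k) := by
  have h3 : ∀ i j l : Fin 3, i < j → j < l →
      LinearIndependent k ![(pp3 : Fin 3 → Fin 3 → k) i, pp3 j, pp3 l] := by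
    intro i j l hij hjl
    have hi : i = 0 := by omega
    have hj : j = 1 := by omega
    have hl : l = 2 := by omega
    subst hi hj hl
    apply li3_of_det
    simp [pp3, Matrix.det_fin_three]
  refine ⟨?_, two_of_three le_rfl _ h3, h3, fun h => by omega⟩
  intro i
  fin_cases i <;> simp [pp3]

theorem span3 (m : Fin 0 → k) :
    LinearIndependent k (fam (fun j => mon3 (C6.ex j)) (fun b j => eval m (idA 7 b j))) ∧
      Submodule.span k (Set.range (fam (fun j => mon3 (C6.ex j))
        (fun b j => eval m (idA 7 b j)))) = cubicsThrough (pp3 : Fin 3 → Fin 3 → k) := by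
  refine toric_span C6.ex (by decide) [(3, 0), (0, 3), (0, 0)] (by decide) (by decide) _ ?_ ?_ m
  · intro F hF hv e he
    fin_cases he
    · rw [mon3_30]; exact coeff_of_vanish _ F hF hv 0 0 pt0
    · rw [mon3_03]; exact coeff_of_vanish _ F hF hv 1 1 pt1
    · rw [mon3_00]; exact coeff_of_vanish _ F hF hv 2 2 pt2
  · intro i j
    fin_cases i <;> fin_cases j <;> simp [pp3, C6.ex]

theorem strong6 [CharZero k] [IsAlgClosed k] :
    StrongInterpolation 46 {Y | IsDelPezzo (k := k) (Kind.plane 3) Y} := by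
  have : Fact (1 < 31) := ⟨by norm_num⟩
  refine plane_strong (c := 4) (q := 11) (Q := 12) (D := 46) (R := 82) (p := 31) 3 (idA 7) C6.ex
    0 1 (by simp) C6.a0 ?_ C6.a1 (fun s => s.elim0) rfl (by norm_num) (by norm_num) (by norm_num)
    (by norm_num) (by norm_num) (by norm_num) C6.xys C6.pts C6.xs C6.hpts C6.hxs C6.hchk C6.hok
    C6.ys C6.htri fun m _ => ⟨pp3, gp3, span3 m⟩
  intro b j
  rw [eval_idA]
  unfold C6.a0
  split_ifs <;> simp

end Pool.Agent.W507.DelPezzo
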