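import Mathlib
import Pool.Agent.W507.Toric
import Pool.Agent.W507.C7

/-!
# Strong interpolation for the blow-ups of the plane at 2 points
-/

set_option autoImplicit false

namespace Pool.Agent.W507.DelPezzo

open MvPolynomial
open scoped LinearAlgebra.Projectivization

variable {k : Type*} [Field k]

/-- the coordinate points -/
def pp2 : Fin 2 → Fin 3 → k := ![![1, 0, 0], ![0, 1, 0]]

lemma gp2 : InGeneralPosition (pp2 : Fin 2 → Fin 3 → k) := by
  refine ⟨?_, ?_, fun i j l hij hjl => by omega, fun h => by omega⟩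
  · intro i
    fin_cases i <;> simp [pp2]
  · intro i j hij
    have hi : i = 0 := by omega
    have hj : j = 1 := by omega
    subst hi hj
    rw [LinearIndependent.pair_iff]
    intro s t hst
    have h0 := congrFun hst 0
    have h1 := congrFun hst 1
    simp [pp2] at h0 h1
    exact ⟨h0, h1⟩

theorem span2 (m : Fin 0 → k) :
    LinearIndependent k (fam (fun j => mon3 (C7.ex j)) (fun b j => eval m (idA 8 b j))) ∧
      Submodule.span k (Set.range (fam (fun j => mon3 (C7.ex j))
        (fun b j => eval m (idA 8 b j)))) = cubicsThrough (pp2 : Fin 2 → Fin 3 → k) := by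
  refine toric_span C7.ex (by decide) [(3, 0), (0, 3)] (by decide) (by decide) _ ?_ ?_ m
  · intro F hF hv e he
    fin_cases he
    · rw [mon3_30]; exact coeff_of_vanish _ F hF hv 0 0 pt0
    · rw [mon3_03]; exact coeff_of_vanish _ F hF hv 1 1 pt1
  · intro i j
    fin_cases i <;> fin_cases j <;> simp [pp2, C7.ex]

theorem strong2 [CharZero k] [IsAlgClosed k] :
    StrongInterpolation 59 {Y | IsDelPezzo (k := k) (Kind.plane 2) Y} := by
  have : Fact (1 < 31) := ⟨by norm_num⟩
  refine plane_strong (c := 5) (q := 11) (Q := 12) (D := 59) (R := 95) (p := 31) 2 (idA 8) C7.ex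
    0 1 (by simp) C7.a0 ?_ C7.a1 (fun s => s.elim0) rfl (by norm_num) (by norm_num)
    (by norm_num) (by norm_num) (by norm_num) (by norm_num) C7.xys C7.pts C7.xs
    C7.hpts C7.hxs C7.hchk C7.hok C7.ys C7.htri
    fun m _ => ⟨pp2, gp2, span2 m⟩
  intro b j
  rw [eval_idA]
  unfold C7.a0
  split_ifs <;> simp

end Pool.Agent.W507.DelPezzo
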