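import Mathlib
import Pool.Agent.W507.Toric
import Pool.Agent.W507.C80

/-!
# Strong interpolation for the product of two lines
-/

set_option autoImplicit false

namespace Pool.Agent.W507.DelPezzo

open MvPolynomial
open scoped LinearAlgebra.Projectivization

variable {k : Type*} [Field k]

/-- the exponent vector of a monomial of bidegree `(2, 2)` -/
noncomputable def mon22 (e : ℕ × ℕ) : Fin 2 ⊕ Fin 2 →₀ ℕ :=
  Finsupp.equivFunOnFinite.symm (Sum.elim ![e.1, 2 - e.1] ![e.2, 2 - e.2])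

lemma mon22_inj {K : ℕ} {ex : Fin K → ℕ × ℕ} (h : Function.Injective ex) :
    Function.Injective (fun j => mon22 (ex j)) := by
  intro i j hij
  apply h
  have h1 : (Sum.elim ![(ex i).1, 2 - (ex i).1] ![(ex i).2, 2 - (ex i).2] :
      Fin 2 ⊕ Fin 2 → ℕ) = Sum.elim ![(ex j).1, 2 - (ex j).1] ![(ex j).2, 2 - (ex j).2] :=
    Finsupp.equivFunOnFinite.symm.injective hij
  have h2 := congrFun h1 (Sum.inl 0)
  have h3 := congrFun h1 (Sum.inr 0)
  exact Prod.ext h2 h3

lemma eval_mon22 (x : Fin 2 ⊕ Fin 2 → k) (e : ℕ × ℕ) (c : k) :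
    eval x (monomial (mon22 e) c) = c * (x (Sum.inl 0) ^ e.1 * x (Sum.inl 1) ^ (2 - e.1) *
      (x (Sum.inr 0) ^ e.2 * x (Sum.inr 1) ^ (2 - e.2))) := by
  rw [eval_monomial, Finsupp.prod_fintype _ _ (fun i => pow_zero _), Fintype.prod_sum_type,
    Fin.prod_univ_two, Fin.prod_univ_two]
  rfl

lemma weight22 (d : Fin 2 ⊕ Fin 2 →₀ ℕ) :
    Finsupp.weight (Sum.elim (fun _ => ((1, 0) : ℕ × ℕ)) (fun _ => ((0, 1) : ℕ × ℕ))) d =
      (d (Sum.inl 0) + d (Sum.inl 1), d (Sum.inr 0) + d (Sum.inr 1)) := by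
  rw [Finsupp.weight_apply, Finsupp.sum_fintype, Fintype.sum_sum_type, Fin.sum_univ_two,
    Fin.sum_univ_two]
  · simp
  · intro i
    exact zero_smul _ _

theorem span22 (m : Fin 0 → k) :
    LinearIndependent k (fam (fun j => mon22 (C80.ex j)) (fun b j => eval m (idA 9 b j))) ∧
      Submodule.span k (Set.range (fam (fun j => mon22 (C80.ex j))
        (fun b j => eval m (idA 9 b j)))) = biquadratics k := by
  have hcov : ∀ i j : Fin 3, ∃ l, C80.ex l = ((i : ℕ), (j : ℕ)) := by decide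
  have hdeg : ∀ j, (C80.ex j).1 ≤ 2 ∧ (C80.ex j).2 ≤ 2 := by decide
  refine span_fam _ (mon22_inj (by decide)) _ _ ?_ ?_ ?_ ?_
  · intro F hF d hd
    have h1 := hF hd
    rw [weight22] at h1
    have h2 := congrArg Prod.fst h1
    have h3 := congrArg Prod.snd h1
    simp only at h2 h3
    obtain ⟨l, hl⟩ := hcov ⟨d (Sum.inl 0), by omega⟩ ⟨d (Sum.inr 0), by omega⟩
    refine ⟨l, ?_⟩
    rw [hl]
    ext i
    rcases i with i | i
    · fin_cases i
      · rfl
      · change 2 - d (Sum.inl 0) = d (Sum.inl 1)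
        omega
    · fin_cases i
      · rfl
      · change 2 - d (Sum.inr 0) = d (Sum.inr 1)
        omega
  · intro b
    refine Submodule.sum_mem _ fun j _ => ?_
    apply isWeightedHomogeneous_monomial
    rw [weight22]
    have := hdeg j
    change ((C80.ex j).1 + (2 - (C80.ex j).1), (C80.ex j).2 + (2 - (C80.ex j).2)) = (2, 2)
    ext <;> simp <;> omega
  · intro c _
    refine ⟨c, fun j => ?_⟩
    simp [eval_idA]
  · intro γ h
    ext j
    have := h j
    simpa [eval_idA] using this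

theorem strong_quadric [CharZero k] [IsAlgClosed k] :
    StrongInterpolation 74 {Y | IsDelPezzo (k := k) Kind.quadric Y} := by
  have : Fact (1 < 31) := ⟨by norm_num⟩
  refine strong_of (c := 6) rfl _ fun m lam hlam hsum => ?_
  obtain ⟨P, hP, h⟩ := fam_general (N := 8 + 1) (k := k) (c := 6) (q := 12) (Q := 13) (D := 74)
    (R := 113)
    (p := 31) (idA 9) C80.ex 0 1 (by simp) C80.a0 (by
      intro b j
      rw [eval_idA]
      unfold C80.a0
      split_ifs <;> simp) C80.a1 (fun s => s.elim0) rfl (by norm_num) (by norm_num) (by norm_num)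
    (by norm_num) (by norm_num) (by norm_num) C80.xys C80.pts C80.xs
    C80.hpts C80.hxs C80.hchk C80.hok C80.ys C80.htri m lam hlam hsum
  refine ⟨P, hP, fun v hv => ?_⟩
  obtain ⟨g, mm, hg, hmm, hu⟩ := h v hv
  obtain ⟨hli, hsp⟩ := span22 mm
  obtain ⟨h1, h2⟩ := basis_change _ g hg hli
  refine ⟨zclosure (image _), ⟨_, h1, h2.trans hsp, rfl⟩, fun i => ?_⟩
  obtain ⟨u, hu, huL⟩ := hu i
  have he : (fun b => eval (Sum.elim ![u 0, 1] ![u 1, 1])
      (fam (fun j => mon22 (C80.ex j)) (fun b j => eval mm (idA 9 b j)) b)) =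
      val (PhiOf (idA 9) C80.ex) mm u := by
    ext b
    rw [val_PhiOf, fam, map_sum]
    refine Finset.sum_congr rfl fun j _ => ?_
    rw [eval_mon22]
    simp
  exact mem_image _ g hg (Sum.elim ![u 0, 1] ![u 1, 1]) (by rw [he]; exact hu) _
    (by rw [he]; exact huL)

end Pool.Agent.W507.DelPezzo
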