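import Mathlib
import Pool.Agent.W507.Toric
import Pool.Agent.W507.C81

/-!
# Strong interpolation for the blow-ups of the plane at 1 points
-/

set_option autoImplicit false

namespace Pool.Agent.W507.DelPezzo

open MvPolynomial
open scoped LinearAlgebra.Projectivization

variable {k : Type*} [Field k]

/-- the coordinate points -/
def pp1 : Fin 1 → Fin 3 → k := ![![1, 0, 0]]

lemma gp1 : InGeneralPosition (pp1 : Fin 1 → Fin 3 → k) := by
  refine ⟨?_, fun i j hij => by omega, fun i j l hij hjl => by omega, fun h => by omega⟩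
  intro i
  fin_cases i
  simp [pp1]

theorem span1 (m : Fin 0 → k) :
    LinearIndependent k (fam (fun j => mon3 (C81.ex j)) (fun b j => eval m (idA 9 b j))) ∧
      Submodule.span k (Set.range (fam (fun j => mon3 (C81.ex j))
        (fun b j => eval m (idA 9 b j)))) = cubicsThrough (pp1 : Fin 1 → Fin 3 → k) := by
  refine toric_span C81.ex (by decide) [(3, 0)] (by decide) (by decide) _ ?_ ?_ m
  · intro F hF hv e he
    fin_cases he
    rw [mon3_30]; exact coeff_of_vanish _ F hF hv 0 0 pt0
  · intro i j
    fin_cases i <;> fin_cases j <;> simp [pp1, C81.ex]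

theorem strong1 [CharZero k] [IsAlgClosed k] :
    StrongInterpolation 74 {Y | IsDelPezzo (k := k) (Kind.plane 1) Y} := by
  have : Fact (1 < 31) := ⟨by norm_num⟩
  refine plane_strong (c := 6) (q := 12) (Q := 13) (D := 74) (R := 113) (p := 31) 1 (idA 9) C81.ex
    0 1 (by simp) C81.a0 ?_ C81.a1 (fun s => s.elim0) rfl (by norm_num) (by norm_num)
    (by norm_num) (by norm_num) (by norm_num) (by norm_num) C81.xys C81.pts C81.xs
    C81.hpts C81.hxs C81.hchk C81.hok C81.ys C81.htri
    fun m _ => ⟨pp1, gp1, span1 m⟩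
  intro b j
  rw [eval_idA]
  unfold C81.a0
  split_ifs <;> simp

end Pool.Agent.W507.DelPezzo
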