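import Mathlib
import Pool.Agent.W507.Toric
import Pool.Agent.W507.C9

/-!
# Strong interpolation for the blow-ups of the plane at 0 points
-/

set_option autoImplicit false

namespace Pool.Agent.W507.DelPezzo

open MvPolynomial
open scoped LinearAlgebra.Projectivization

variable {k : Type*} [Field k]

/-- the coordinate points -/
def pp0 : Fin 0 → Fin 3 → k := ![]

lemma gp0 : InGeneralPosition (pp0 : Fin 0 → Fin 3 → k) := by
  exact ⟨fun i => i.elim0, fun i => i.elim0, fun i => i.elim0, fun h => by omega⟩

theorem span0 (m : Fin 0 → k) :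
    LinearIndependent k (fam (fun j => mon3 (C9.ex j)) (fun b j => eval m (idA 10 b j))) ∧
      Submodule.span k (Set.range (fam (fun j => mon3 (C9.ex j))
        (fun b j => eval m (idA 10 b j)))) = cubicsThrough (pp0 : Fin 0 → Fin 3 → k) := by
  refine toric_span C9.ex (by decide) [] (by decide) (by decide) _ ?_ ?_ m
  · intro F hF hv e he
    simp at he
  · intro i j
    fin_cases i <;> fin_cases j <;> simp [pp0, C9.ex]

theorem strong0 [CharZero k] [IsAlgClosed k] :
    StrongInterpolation 91 {Y | IsDelPezzo (k := k) (Kind.plane 0) Y} := by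
  have : Fact (1 < 31) := ⟨by norm_num⟩
  refine plane_strong (c := 7) (q := 13) (Q := 13) (D := 91) (R := 130) (p := 31) 0 (idA 10) C9.ex
    0 1 (by simp) C9.a0 ?_ C9.a1 (fun s => s.elim0) rfl (by norm_num) (by norm_num)
    (by norm_num) (by norm_num) (by norm_num) (by norm_num) C9.xys C9.pts C9.xs
    C9.hpts C9.hxs C9.hchk C9.hok C9.ys C9.htri
    fun m _ => ⟨pp0, gp0, span0 m⟩
  intro b j
  rw [eval_idA]
  unfold C9.a0
  split_ifs <;> simp

end Pool.Agent.W507.DelPezzo
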