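import Mathlib
import Pool.Agent.W507.DelPezzoDefs

/-!
# Projected scrolls and Veronese surfaces, and interpolation
-/

set_option autoImplicit false

namespace Pool.Agent.W507.DelPezzo

open MvPolynomial
open scoped LinearAlgebra.Projectivization

variable {k : Type*} [Field k]

/-- The polynomials `f j` define a map without base points on the set of the `valid` coordinate
vectors that separates points and tangent vectors. Here `same x y` says that the coordinate
vectors `x` and `y` belong to the same point, and `vert x w` that the vector `w` at `x` is tangent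
to the set of the coordinate vectors of the point of `x`. -/
structure Embeds {σ : Type} [Fintype σ] {n : ℕ} (valid : (σ → k) → Prop)
    (same vert : (σ → k) → (σ → k) → Prop) (f : Fin n → MvPolynomial σ k) : Prop where
  base : ∀ x, valid x → ∃ j, eval x (f j) ≠ 0
  points : ∀ x y c, valid x → valid y → (∀ j, eval x (f j) = c * eval y (f j)) → same x y
  tangents : ∀ x w c, valid x →
    (∀ j, ∑ s, w s * eval x (pderiv s (f j)) = c * eval x (f j)) → vert x w

/-- Homogeneous coordinates `(t₀, t₁; u, v)` on the projective bundle of `O(a) ⊕ O(b)` over the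
projective line. -/
def scrollValid (x : Fin 2 ⊕ Fin 2 → k) : Prop :=
  (x (Sum.inl 0) ≠ 0 ∨ x (Sum.inl 1) ≠ 0) ∧ (x (Sum.inr 0) ≠ 0 ∨ x (Sum.inr 1) ≠ 0)

/-- Two coordinate vectors of the same point of the bundle of `O(a) ⊕ O(b)`. -/
def scrollSame (a b : ℕ) (x y : Fin 2 ⊕ Fin 2 → k) : Prop :=
  ∃ ρ κ : k, ρ ≠ 0 ∧ κ ≠ 0 ∧ (∀ i, x (Sum.inl i) = ρ * y (Sum.inl i)) ∧
    ρ ^ a * x (Sum.inr 0) = κ * y (Sum.inr 0) ∧ ρ ^ b * x (Sum.inr 1) = κ * y (Sum.inr 1)

/-- Vectors tangent to the set of the coordinate vectors of a point of the bundle. -/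
def scrollVert (a b : ℕ) (x w : Fin 2 ⊕ Fin 2 → k) : Prop :=
  ∃ ρ κ : k, (∀ i, w (Sum.inl i) = ρ * x (Sum.inl i)) ∧
    w (Sum.inr 0) = (κ - a * ρ) * x (Sum.inr 0) ∧ w (Sum.inr 1) = (κ - b * ρ) * x (Sum.inr 1)

/-- The sections of `O(1)` on the bundle of `O(a) ⊕ O(b)`: the polynomials `u P + v Q` with binary
forms `P`, `Q` in `t₀, t₁` of degrees `a` and `b`. -/
def scrollForms (k : Type*) [Field k] (a b : ℕ) : Set (MvPolynomial (Fin 2 ⊕ Fin 2) k) :=
  {F | ∃ P Q : MvPolynomial (Fin 2) k, P.IsHomogeneous a ∧ Q.IsHomogeneous b ∧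
    F = X (Sum.inr 0) * rename Sum.inl P + X (Sum.inr 1) * rename Sum.inl Q}

/-- The smooth surfaces of degree `a + b` in `ℙ^(a+b)` that are isomorphic projections from a point
of the rational normal scroll of type `(a, b)` in `ℙ^(a+b+1)`: images of the bundle of
`O(a) ⊕ O(b)` under the embeddings by `a + b + 1` independent sections of `O(1)`. -/
def IsProjectedScroll (a b : ℕ) (Y : Set (ℙ k (Fin (a + b + 1) → k))) : Prop :=
  ∃ f : Fin (a + b + 1) → MvPolynomial (Fin 2 ⊕ Fin 2) k, LinearIndependent k f ∧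
    (∀ j, f j ∈ scrollForms k a b) ∧ Embeds scrollValid (scrollSame a b) (scrollVert a b) f ∧
    Y = zclosure (image f)

/-- The smooth surfaces of degree four in `ℙ⁴` that are isomorphic projections from a point of the
Veronese surface in `ℙ⁵`. -/
def IsProjectedVeronese (Y : Set (ℙ k (Fin (4 + 1) → k))) : Prop :=
  ∃ f : Fin (4 + 1) → MvPolynomial (Fin 3) k, LinearIndependent k f ∧
    (∀ j, (f j).IsHomogeneous 2) ∧
    Embeds (fun x => x ≠ 0) (fun x y => ∃ ρ : k, ρ ≠ 0 ∧ x = ρ • y)
      (fun x w => ∃ ρ : k, w = ρ • x) f ∧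
    Y = zclosure (image f)

/-- Interpolation for a family of surfaces in `ℙⁿ` of dimension `D = q (n - 2) + r`: through `q`
general points there is a member of the family that meets a general linear space of dimension
`n - 2 - r`. -/
def Interpolation {n : ℕ} (D : ℕ) (H : Set (Set (ℙ k (Fin (n + 1) → k)))) : Prop :=
  LambdaInterpolation H
    (Fin.snoc (α := fun _ => ℕ) (fun _ : Fin (D / (n - 2)) => n - 2) (D % (n - 2)))

/-- `lam`-interpolation for all systems of numbers `0 ≤ lam i ≤ n - 2` with sum `D`. -/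
def AllInterpolation {n : ℕ} (D : ℕ) (H : Set (Set (ℙ k (Fin (n + 1) → k)))) : Prop :=
  ∀ (m : ℕ) (lam : Fin m → ℕ), (∀ i, lam i ≤ n - 2) → ∑ i, lam i = D →
    LambdaInterpolation H lam

end Pool.Agent.W507.DelPezzo
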