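import Mathlib
import Pool.Agent.W507.General

/-!
# General interpolation with an open condition on the moduli
-/

set_option autoImplicit false

namespace Pool.Agent.W507

open MvPolynomial Module

variable {k : Type*} [Field k] {N μ : ℕ}

section all

variable {ι : Type*} [Fintype ι] [DecidableEq ι]

/-- the tangent matrix with polynomial entries in moduli and points -/
noncomputable def matAll (ι : Type*) [DecidableEq ι]
    (Φ : Fin N → MvPolynomial (Fin μ ⊕ Fin 2) k) :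
    Matrix (ι × Fin N) (((Fin N × Fin N) ⊕ Fin μ) ⊕ (ι × Fin 3))
      (MvPolynomial (Fin μ ⊕ (ι × Fin 2)) k) :=
  fun p => Sum.elim
    (Sum.elim (fun ab => if ab.1 = p.2 then
        rename (Sum.map id (fun a => (p.1, a))) (Φ ab.2) else 0)
      (fun s => rename (Sum.map id (fun a => (p.1, a))) (pderiv (Sum.inl s) (Φ p.2))))
    (fun il => if il.1 = p.1 then
      rename (Sum.map id (fun a => (p.1, a)))
        ((![Φ p.2, pderiv (Sum.inr 0) (Φ p.2), pderiv (Sum.inr 1) (Φ p.2)] :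
          Fin 3 → MvPolynomial (Fin μ ⊕ Fin 2) k) il.2) else 0)

omit [Fintype ι] [DecidableEq ι] in
lemma eval_rename_map (x : Fin μ ⊕ (ι × Fin 2) → k) (i : ι)
    (F : MvPolynomial (Fin μ ⊕ Fin 2) k) :
    eval x (rename (Sum.map id (fun a => (i, a))) F) =
      eval (Sum.elim (fun s => x (Sum.inl s)) (fun a => x (Sum.inr (i, a)))) F := by
  rw [eval_rename]
  congr 2
  ext s
  rcases s with s | a <;> rfl

lemma matAll_eval (Φ : Fin N → MvPolynomial (Fin μ ⊕ Fin 2) k)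
    (x : Fin μ ⊕ (ι × Fin 2) → k) :
    (matAll ι Φ).map (eval x) =
      mat Φ (fun s => x (Sum.inl s)) (fun (i : ι) a => x (Sum.inr (i, a))) := by
  ext p c
  rcases c with (⟨a, b⟩ | s) | ⟨i, l⟩
  · simp only [Matrix.map_apply, matAll, mat, Sum.elim_inl]
    split_ifs
    · rw [eval_rename_map]; rfl
    · simp
  · simp only [Matrix.map_apply, matAll, mat, Sum.elim_inl, Sum.elim_inr]
    rw [eval_rename_map]; rfl
  · simp only [Matrix.map_apply, matAll, mat, Sum.elim_inr]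
    split_ifs
    · rw [eval_rename_map]
      fin_cases l <;> rfl
    · simp

end all

lemma openAll_mat (Φ : Fin N → MvPolynomial (Fin μ ⊕ Fin 2) k) (m : Fin μ → k) (s r : ℕ)
    (w : Fin s → Fin 2 → k) (h : r ≤ (mat Φ m w).rank) :
    ∃ G : MvPolynomial (Fin μ ⊕ (Fin s × Fin 2)) k, G ≠ 0 ∧
      ∀ x : Fin μ ⊕ (Fin s × Fin 2) → k, eval x G ≠ 0 →
      r ≤ (mat Φ (fun s => x (Sum.inl s)) (fun i a => x (Sum.inr (i, a)))).rank := by
  obtain ⟨G, hG, hG'⟩ := semicont (matAll (Fin s) Φ)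
    (Sum.elim m (fun p : Fin s × Fin 2 => w p.1 p.2)) r (by
    rw [matAll_eval]
    exact h)
  refine ⟨G, eval_ne_zero_imp _ _ hG, fun x hx => ?_⟩
  have := hG' x hx
  rwa [matAll_eval] at this

lemma openAll_tri (Φ : Fin N → MvPolynomial (Fin μ ⊕ Fin 2) k) (m : Fin μ → k)
    (w : Fin 2 → k) (h : LinearIndependent k (tri Φ m w)) :
    ∃ G : MvPolynomial (Fin μ ⊕ Fin 2) k, G ≠ 0 ∧ ∀ x : Fin μ ⊕ Fin 2 → k, eval x G ≠ 0 →
      LinearIndependent k (tri Φ (fun s => x (Sum.inl s)) (fun a => x (Sum.inr a))) := by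
  classical
  let M : Matrix (Fin 3) (Fin N) (MvPolynomial (Fin μ ⊕ Fin 2) k) := fun l n =>
      ((![Φ n, pderiv (Sum.inr 0) (Φ n), pderiv (Sum.inr 1) (Φ n)] :
          Fin 3 → MvPolynomial (Fin μ ⊕ Fin 2) k) l)
  have hM : ∀ x : Fin μ ⊕ Fin 2 → k, M.map (eval x) =
      Matrix.of (tri Φ (fun s => x (Sum.inl s)) (fun a => x (Sum.inr a))) := by
    intro x
    have hx : x = Sum.elim (fun s => x (Sum.inl s)) (fun a => x (Sum.inr a)) := by
      ext s
      rcases s with s | s <;> rfl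
    ext l n
    simp only [M, Matrix.of_apply]
    rw [hx]
    fin_cases l <;> rfl
  obtain ⟨G, hG, hG'⟩ := semicont M (Sum.elim m w) 3 (by
    rw [hM]
    have := LinearIndependent.rank_matrix (M := Matrix.of (tri Φ m w)) h
    refine le_of_eq ?_
    refine Eq.trans ?_ this.symm
    simp)
  refine ⟨G, eval_ne_zero_imp _ _ hG, fun x hx => ?_⟩
  have h1 := hG' x hx
  rw [hM, Matrix.rank_eq_finrank_span_row] at h1
  rw [linearIndependent_iff_card_le_finrank_span, Set.finrank, Fintype.card_fin]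
  exact h1

lemma exists_eval_ne_one [Infinite k] {σ : Type*} (G : MvPolynomial σ k) (h : G ≠ 0) :
    ∃ x : σ → k, eval x G ≠ 0 := by
  by_contra hcon
  push Not at hcon
  exact h (MvPolynomial.funext fun x => by rw [hcon x, map_zero])

theorem general_open [CharZero k] [IsAlgClosed k] {c q Q D : ℕ}
    (Φ : Fin N → MvPolynomial (Fin μ ⊕ Fin 2) k)
    (m0 : Fin μ → k) (G0 : MvPolynomial (Fin μ) k) (hG0 : G0 ≠ 0) (hN : N = c + 3)
    (hc : 0 < c) (hQ : Q ≤ q + 1) (hqD : q * c ≤ D)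
    (w1 : Fin q → Fin 2 → k) (h1 : N * q ≤ (mat Φ m0 w1).rank)
    (w2 : Fin Q → Fin 2 → k) (h2 : D + 3 * Q ≤ (mat Φ m0 w2).rank)
    (w3 : Fin 2 → k) (h3 : LinearIndependent k (tri Φ m0 w3))
    (n : ℕ) (lam : Fin n → ℕ) (hlam : ∀ i, lam i ≤ c) (hsum : ∑ i, lam i = D) :
    ∃ P : MvPolynomial ((Σ i : Fin n, Fin (c - lam i + 1)) × Fin N) k, P ≠ 0 ∧
      ∀ v : (Σ i : Fin n, Fin (c - lam i + 1)) → Fin N → k,
        eval (fun p => v p.1 p.2) P ≠ 0 →
        ∃ (g : Matrix (Fin N) (Fin N) k) (m : Fin μ → k), g.det ≠ 0 ∧ eval m G0 ≠ 0 ∧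
          ∀ i, ∃ u : Fin 2 → k, val Φ m u ≠ 0 ∧
            g.mulVec (val Φ m u) ∈ Submodule.span k (Set.range fun j => v ⟨i, j⟩) := by
  classical
  have hinf : Infinite k := IsAlgClosed.instInfinite
  obtain ⟨G1, hG1, hG1'⟩ := openAll_mat Φ m0 q (N * q) w1 h1
  obtain ⟨G2, hG2, hG2'⟩ := openAll_mat Φ m0 Q (D + 3 * Q) w2 h2
  obtain ⟨G3, hG3, hG3'⟩ := openAll_tri Φ m0 w3 h3
  have i1 : Function.Injective (Sum.map id Sum.inl :
      Fin μ ⊕ (Fin q × Fin 2) → Fin μ ⊕ ((Fin q × Fin 2) ⊕ ((Fin Q × Fin 2) ⊕ Fin 2))) :=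
    Sum.map_injective.2 ⟨Function.injective_id, Sum.inl_injective⟩
  have i2 : Function.Injective (Sum.map id (fun p => Sum.inr (Sum.inl p)) :
      Fin μ ⊕ (Fin Q × Fin 2) → Fin μ ⊕ ((Fin q × Fin 2) ⊕ ((Fin Q × Fin 2) ⊕ Fin 2))) :=
    Sum.map_injective.2 ⟨Function.injective_id, Sum.inr_injective.comp Sum.inl_injective⟩
  have i3 : Function.Injective (Sum.map id (fun p => Sum.inr (Sum.inr p)) :
      Fin μ ⊕ Fin 2 → Fin μ ⊕ ((Fin q × Fin 2) ⊕ ((Fin Q × Fin 2) ⊕ Fin 2))) :=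
    Sum.map_injective.2 ⟨Function.injective_id, Sum.inr_injective.comp Sum.inr_injective⟩
  have p0 := rename_ne_zero G0 hG0
    (Sum.inl : Fin μ → Fin μ ⊕ ((Fin q × Fin 2) ⊕ ((Fin Q × Fin 2) ⊕ Fin 2))) Sum.inl_injective
  have p1 := rename_ne_zero G1 hG1 _ i1
  have p2 := rename_ne_zero G2 hG2 _ i2
  have p3 := rename_ne_zero G3 hG3 _ i3
  obtain ⟨x, hx⟩ := exists_eval_ne_one _ (mul_ne_zero (mul_ne_zero (mul_ne_zero p0 p1) p2) p3)
  rw [map_mul, map_mul, map_mul, eval_rename, eval_rename, eval_rename, eval_rename] at hx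
  have x3 := right_ne_zero_of_mul hx
  have hx := left_ne_zero_of_mul hx
  have x2 := right_ne_zero_of_mul hx
  have hx := left_ne_zero_of_mul hx
  have x1 := right_ne_zero_of_mul hx
  have x0 := left_ne_zero_of_mul hx
  have r1 := hG1' _ x1
  have r2 := hG2' _ x2
  have r3 := hG3' _ x3
  simp only [Function.comp_apply, Sum.map_inl, Sum.map_inr, id_eq] at r1 r2 r3
  exact general Φ (fun s => x (Sum.inl s)) G0 x0 hN hc hQ hqD _ r1 _ r2 _ r3 n lam hlam hsum

end Pool.Agent.W507
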